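import Mathlib

set_option autoImplicit false

namespace Pool.Agent.H865R3

open Filter Topology

universe u v w

/-- `y` is the directional derivative of `f` at `x` in direction `v`. -/
def HasDirDeriv {E : Type u} {F : Type v} [AddCommGroup E] [Module ℝ E] [AddCommGroup F]
    [Module ℝ F] [TopologicalSpace F] (f : E → F) (x v : E) (y : F) : Prop :=
  Tendsto (fun t : ℝ => t⁻¹ • (f (x + t • v) - f x)) (𝓝[≠] 0) (𝓝 y)

/-- `f` is `C^k` (Bastiani, Keller `C^k_c`) on the set `U`: `C^0` means continuous, and `C^(k+1)`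
means continuous, with all directional derivatives, such that `df` is `C^k` on `U × E`. -/
def IsCk (F : Type v) [AddCommGroup F] [Module ℝ F] [TopologicalSpace F] :
    ℕ → ∀ (E : Type u) [AddCommGroup E] [Module ℝ E] [TopologicalSpace E],
      (E → F) → Set E → Prop
  | 0, _, _, _, _, f, U => ContinuousOn f U
  | k + 1, E, _, _, _, f, U => ContinuousOn f U ∧ ∃ df : E × E → F,
      (∀ x ∈ U, ∀ v : E, HasDirDeriv f x v (df (x, v))) ∧
      IsCk F k (E × E) df (U ×ˢ (Set.univ : Set E))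

/-- smooth in the sense of Bastiani -/
def IsSmooth {E : Type u} {F : Type v} [AddCommGroup E] [Module ℝ E] [TopologicalSpace E]
    [AddCommGroup F] [Module ℝ F] [TopologicalSpace F] (f : E → F) (U : Set E) : Prop :=
  ∀ k : ℕ, IsCk F k E f U

section

variable {E : Type u} {F : Type v} [AddCommGroup E] [Module ℝ E] [AddCommGroup F] [Module ℝ F]
  [TopologicalSpace F]

theorem HasDirDeriv.unique [T2Space F] {f : E → F} {x v : E} {y z : F}
    (h1 : HasDirDeriv f x v y) (h2 : HasDirDeriv f x v z) : y = z :=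
  tendsto_nhds_unique h1 h2

theorem HasDirDeriv.zero_dir [T2Space F] {f : E → F} {x : E} {y : F}
    (h1 : HasDirDeriv f x 0 y) : y = 0 := by
  refine h1.unique ?_
  unfold HasDirDeriv
  simp

theorem HasDirDeriv.smul [ContinuousSMul ℝ F] {f : E → F} {x v : E} {y : F}
    (h : HasDirDeriv f x v y) (c : ℝ) : HasDirDeriv f x (c • v) (c • y) := by
  unfold HasDirDeriv at *
  rcases eq_or_ne c 0 with rfl | hc
  · simp only [zero_smul, smul_zero, add_zero, sub_self]
    exact tendsto_const_nhds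
  · have h1 : Tendsto (fun t : ℝ => t * c) (𝓝[≠] 0) (𝓝[≠] 0) := by
      rw [tendsto_nhdsWithin_iff]
      constructor
      · have : Tendsto (fun t : ℝ => t * c) (𝓝 0) (𝓝 (0 * c)) := tendsto_id.mul_const c
        rw [zero_mul] at this
        exact this.mono_left nhdsWithin_le_nhds
      · filter_upwards [self_mem_nhdsWithin] with t ht
        exact mul_ne_zero ht hc
    have h2 := (h.comp h1).const_smul c
    refine h2.congr' ?_
    filter_upwards [self_mem_nhdsWithin] with t ht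
    have ht' : t ≠ 0 := ht
    simp only [Function.comp, smul_smul]
    rw [mul_inv, mul_comm t⁻¹, ← mul_assoc, mul_inv_cancel₀ hc, one_mul]

/-- a scalar functional along a line -/
theorem HasDirDeriv.hasDerivAt {f : E → F} {x v : E} {r : ℝ} {y : F}
    (h : HasDirDeriv f (x + r • v) v y) (l : F →L[ℝ] ℝ) :
    HasDerivAt (fun s : ℝ => l (f (x + s • v))) (l y) r := by
  rw [hasDerivAt_iff_tendsto_slope_zero]
  have h1 := (l.continuous.tendsto y).comp h
  refine h1.congr fun t => ?_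
  simp only [Function.comp, map_smul, map_sub]
  rw [add_smul, add_assoc]

end

section

variable {E : Type u} {F : Type v} [AddCommGroup E] [Module ℝ E] [TopologicalSpace E]
  [IsTopologicalAddGroup E] [ContinuousSMul ℝ E]
  [AddCommGroup F] [Module ℝ F] [TopologicalSpace F] [IsTopologicalAddGroup F]
  [ContinuousSMul ℝ F] [LocallyConvexSpace ℝ F] [T2Space F]

/-- strict differentiability of `C^1` maps, along arbitrary families of pairs of points -/
theorem strict_chain {G : E → F} {U : Set E} (hU : IsOpen U) {dG : E × E → F}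
    (hd : ∀ x ∈ U, ∀ v, HasDirDeriv G x v (dG (x, v)))
    (hc : ContinuousOn dG (U ×ˢ (Set.univ : Set E)))
    {ι : Type w} {l : Filter ι} {x0 v : E} (hx0 : x0 ∈ U) {a b : ι → E} {s : ι → ℝ}
    (ha : Tendsto a l (𝓝 x0)) (hb : Tendsto b l (𝓝 x0)) (hs : ∀ᶠ i in l, s i ≠ 0)
    (hv : Tendsto (fun i => (s i)⁻¹ • (b i - a i)) l (𝓝 v)) :
    Tendsto (fun i => (s i)⁻¹ • (G (b i) - G (a i))) l (𝓝 (dG (x0, v))) := by
  intro N hN
  obtain ⟨C1, ⟨hC1, hC1c⟩, hC1N⟩ := (closed_nhds_basis (dG (x0, v))).mem_iff.1 hN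
  obtain ⟨C2, ⟨hC2, hC2c⟩, hC21⟩ :=
    (LocallyConvexSpace.convex_basis (𝕜 := ℝ) (dG (x0, v))).mem_iff.1 hC1
  simp only [id] at hC1N hC21
  have hcl : closure C2 ⊆ N := (closure_minimal hC21 hC1c).trans hC1N
  have hca : ContinuousAt dG (x0, v) :=
    hc.continuousAt (prod_mem_nhds (hU.mem_nhds hx0) univ_mem)
  obtain ⟨A, hA, B, hB, hAB⟩ := mem_nhds_prod_iff.1 (hca hC2)
  have hseg : ∀ᶠ p : E × E in 𝓝 (x0, x0), ∀ r ∈ Set.Icc (0 : ℝ) 1,
      p.1 + r • (p.2 - p.1) ∈ A ∩ U := by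
    refine isCompact_Icc.eventually_forall_of_forall_eventually
      (P := fun (p : E × E) (r : ℝ) => p.1 + r • (p.2 - p.1) ∈ A ∩ U) ?_
    intro r _
    have hcont : Continuous (fun z : (E × E) × ℝ => z.1.1 + z.2 • (z.1.2 - z.1.1)) := by
      fun_prop
    have h1 := hcont.tendsto ((x0, x0), r)
    simp only [sub_self, smul_zero, add_zero] at h1
    exact h1 (inter_mem hA (hU.mem_nhds hx0))
  have hab : Tendsto (fun i => (a i, b i)) l (𝓝 (x0, x0)) := by
    rw [nhds_prod_eq]
    exact ha.prodMk hb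
  rw [Filter.mem_map]
  filter_upwards [hab.eventually hseg, hs,
    hv.eventually (show ∀ᶠ z in 𝓝 v, z ∈ B from hB)] with i h1 h2 h3
  apply hcl
  by_contra hne
  obtain ⟨f, u0, hf1, hf2⟩ := geometric_hahn_banach_closed_point hC2c.closure isClosed_closure hne
  have hderiv : ∀ r ∈ Set.Icc (0 : ℝ) 1,
      HasDerivAt (fun r : ℝ => f (G (a i + r • (b i - a i))))
        (f (dG (a i + r • (b i - a i), b i - a i))) r := fun r hr =>
    (hd _ (h1 r hr).2 _).hasDerivAt f
  obtain ⟨r, hr, hr2⟩ := exists_hasDerivAt_eq_slope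
    (fun r : ℝ => f (G (a i + r • (b i - a i))))
    (fun r : ℝ => f (dG (a i + r • (b i - a i), b i - a i))) zero_lt_one
    (fun r hr => (hderiv r hr).continuousAt.continuousWithinAt)
    (fun r hr => hderiv r (Set.Ioo_subset_Icc_self hr))
  simp only [one_smul, zero_smul, add_zero, sub_zero, div_one, add_sub_cancel] at hr2
  have hrm := h1 r (Set.Ioo_subset_Icc_self hr)
  have h4 : dG (a i + r • (b i - a i), (s i)⁻¹ • (b i - a i)) =
      (s i)⁻¹ • dG (a i + r • (b i - a i), b i - a i) :=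
    (hd _ hrm.2 _).unique ((hd _ hrm.2 _).smul _)
  have h5 : dG (a i + r • (b i - a i), (s i)⁻¹ • (b i - a i)) ∈ C2 :=
    hAB (Set.mk_mem_prod hrm.1 h3)
  have h6 := hf1 _ (subset_closure h5)
  rw [h4, map_smul, hr2] at h6
  rw [map_smul, map_sub] at hf2
  exact lt_asymm h6 hf2

theorem dir_add {G : E → F} {U : Set E} (hU : IsOpen U) {dG : E × E → F}
    (hd : ∀ x ∈ U, ∀ v, HasDirDeriv G x v (dG (x, v)))
    (hc : ContinuousOn dG (U ×ˢ (Set.univ : Set E))) {x : E} (hx : x ∈ U) (y z : E) :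
    dG (x, y + z) = dG (x, y) + dG (x, z) := by
  have hlim : ∀ y : E, Tendsto (fun t : ℝ => x + t • y) (𝓝[≠] 0) (𝓝 x) := by
    intro y
    have hcont : Continuous (fun t : ℝ => x + t • y) := by fun_prop
    have h1 := hcont.tendsto 0
    simp only [zero_smul, add_zero] at h1
    exact h1.mono_left nhdsWithin_le_nhds
  have h1 := strict_chain hU hd hc hx (hlim y) (hlim (y + z)) (s := fun t => t)
    (v := z) self_mem_nhdsWithin (by
      refine tendsto_const_nhds.congr' ?_
      filter_upwards [self_mem_nhdsWithin] with t ht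
      have ht' : t ≠ 0 := ht
      rw [smul_add, ← add_assoc, add_sub_cancel_left, smul_smul, inv_mul_cancel₀ ht', one_smul])
  have h2 := (hd x hx y)
  have h3 := (hd x hx (y + z))
  refine h3.unique ?_
  unfold HasDirDeriv at *
  refine (h2.add h1).congr fun t => ?_
  rw [← smul_add]
  congr 1
  abel

end

section Taylor

variable {E : Type u} {F : Type v} [NormedAddCommGroup E] [NormedSpace ℝ E]
  [AddCommGroup F] [Module ℝ F] [TopologicalSpace F]
  [ContinuousSMul ℝ F] [T2Space F]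

/-- second order Taylor estimate, for a continuous linear functional of a `C^2` map on a normed
space -/
theorem taylor_two {G : E → F} {U : Set E} (hU : IsOpen U) (h0 : (0 : E) ∈ U) {dG : E × E → F}
    (hd : ∀ x ∈ U, ∀ v, HasDirDeriv G x v (dG (x, v)))
    {ddG : (E × E) × (E × E) → F}
    (hdd : ∀ x ∈ U ×ˢ (Set.univ : Set E), ∀ v, HasDirDeriv dG x v (ddG (x, v)))
    (hcc : ContinuousOn ddG ((U ×ˢ (Set.univ : Set E)) ×ˢ (Set.univ : Set (E × E))))
    (l : F →L[ℝ] ℝ) :
    ∃ δ > 0, ∀ x : E, ‖x‖ ≤ δ → |l (G x) - l (G 0) - l (dG (0, x))| ≤ (‖x‖ / δ) ^ 2 := by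
  have hca : ContinuousAt (fun p => l (ddG p)) (((0 : E), (0 : E)), ((0 : E), (0 : E))) := by
    refine l.continuous.continuousAt.comp (hcc.continuousAt ?_)
    exact prod_mem_nhds (prod_mem_nhds (hU.mem_nhds h0) univ_mem) univ_mem
  have hz : l (ddG (((0 : E), (0 : E)), ((0 : E), (0 : E)))) = 0 := by
    have h1 : ddG (((0 : E), (0 : E)), ((0 : E), (0 : E))) = 0 :=
      (hdd ((0 : E), (0 : E)) ⟨h0, trivial⟩ (0 : E × E)).zero_dir
    rw [h1, map_zero]
  have h1 : ∀ᶠ p in 𝓝 (((0 : E), (0 : E)), ((0 : E), (0 : E))), |l (ddG p)| < 1 := by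
    have h2 := hca.abs
    unfold ContinuousAt at h2
    simp only [hz, abs_zero] at h2
    exact h2.eventually (gt_mem_nhds one_pos)
  obtain ⟨δ1, hδ1, h2⟩ := Metric.eventually_nhds_iff_ball.1 h1
  obtain ⟨δ2, hδ2, h3⟩ := Metric.isOpen_iff.1 hU 0 h0
  set δ := min δ1 δ2 / 2 with hδ
  have hδpos : 0 < δ := by positivity
  have hlt1 : δ < δ1 := by
    rw [hδ]; have := min_le_left δ1 δ2; have := lt_min hδ1 hδ2; linarith
  have hlt2 : δ < δ2 := by
    rw [hδ]; have := min_le_right δ1 δ2; have := lt_min hδ1 hδ2; linarith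
  have hin : ∀ y : E, ‖y‖ ≤ δ → y ∈ U := fun y hy =>
    h3 (by rw [mem_ball_zero_iff]; exact lt_of_le_of_lt hy hlt2)
  have hb : ∀ y v w : E, ‖y‖ ≤ δ → ‖v‖ ≤ δ → ‖w‖ ≤ δ → |l (ddG ((y, v), (w, 0)))| ≤ 1 := by
    intro y v w hy hv hw
    refine (h2 _ ?_).le
    rw [Metric.mem_ball, Prod.dist_eq, Prod.dist_eq, Prod.dist_eq]
    simp only [dist_zero_right, norm_zero]
    refine max_lt (max_lt ?_ ?_) (max_lt ?_ hδ1)
    · exact lt_of_le_of_lt hy hlt1
    · exact lt_of_le_of_lt hv hlt1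
    · exact lt_of_le_of_lt hw hlt1
  refine ⟨δ, hδpos, fun x hx => ?_⟩
  rcases eq_or_ne x 0 with rfl | hxne
  · have : dG ((0 : E), (0 : E)) = 0 := (hd 0 h0 0).zero_dir
    rw [this, map_zero, sub_self, sub_zero, abs_zero]
    positivity
  have hnx : 0 < ‖x‖ := norm_pos_iff.2 hxne
  set c := ‖x‖ / δ with hcdef
  have hcpos : 0 < c := by positivity
  set x' := c⁻¹ • x with hx'
  have hxx' : x = c • x' := by rw [hx', smul_smul, mul_inv_cancel₀ hcpos.ne', one_smul]
  have hnx' : ‖x'‖ ≤ δ := by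
    rw [hx', norm_smul, norm_inv, Real.norm_of_nonneg hcpos.le, hcdef]
    field_simp
    exact le_refl _
  -- homogeneity of the second derivative
  have hhom : ∀ y : E, ‖y‖ ≤ δ → ddG ((y, x), (x, 0)) = (c ^ 2) • ddG ((y, x'), (x', 0)) := by
    intro y hy
    have hyU := hin y hy
    have e1 : ddG ((y, x), (x, 0)) = c • ddG ((y, x), (x', 0)) := by
      have h4 := (hdd (y, x) ⟨hyU, trivial⟩ (x', 0)).smul c
      have h5 : c • ((x', 0) : E × E) = (x, 0) := by
        rw [Prod.smul_mk, smul_zero, ← hxx']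
      rw [h5] at h4
      exact (hdd (y, x) ⟨hyU, trivial⟩ (x, 0)).unique h4
    have e2 : ddG ((y, x), (x', 0)) = c • ddG ((y, x'), (x', 0)) := by
      refine (hdd (y, x) ⟨hyU, trivial⟩ (x', 0)).unique ?_
      have h4 := (hdd (y, x') ⟨hyU, trivial⟩ (x', 0))
      unfold HasDirDeriv at h4 ⊢
      refine (h4.const_smul c).congr' ?_
      have h5 : ∀ᶠ t : ℝ in 𝓝[≠] 0, y + t • x' ∈ U := by
        have hcont : Continuous (fun t : ℝ => y + t • x') := by fun_prop
        have h6 := hcont.tendsto 0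
        simp only [zero_smul, add_zero] at h6
        exact (h6.mono_left nhdsWithin_le_nhds) (hU.mem_nhds hyU)
      filter_upwards [h5] with t ht
      have e3 : ∀ z ∈ U, dG (z, x) = c • dG (z, x') := by
        intro z hz
        have h7 := (hd z hz x').smul c
        rw [← hxx'] at h7
        exact (hd z hz x).unique h7
      simp only [Prod.mk_add_mk, Prod.smul_mk, smul_zero, add_zero]
      rw [e3 _ ht, e3 _ hyU, smul_comm c t⁻¹, smul_sub]
    rw [e1, e2, smul_smul, sq]
  have hb2 : ∀ y : E, ‖y‖ ≤ δ → |l (ddG ((y, x), (x, 0)))| ≤ c ^ 2 := by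
    intro y hy
    rw [hhom y hy, map_smul, smul_eq_mul, abs_mul, abs_of_pos (by positivity : 0 < c ^ 2)]
    have := hb y x' x' hy hnx' hnx'
    nlinarith [sq_nonneg c]
  have hsm : ∀ r ∈ Set.Icc (0 : ℝ) 1, ‖r • x‖ ≤ δ := by
    intro r hr
    rw [norm_smul, Real.norm_of_nonneg hr.1]
    calc r * ‖x‖ ≤ 1 * ‖x‖ := by gcongr; exact hr.2
      _ ≤ δ := by rw [one_mul]; exact hx
  have hD1 : ∀ r ∈ Set.Icc (0 : ℝ) 1,
      HasDerivAt (fun r : ℝ => l (G (0 + r • x))) (l (dG (0 + r • x, x))) r := by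
    intro r hr
    refine (hd _ ?_ _).hasDerivAt l
    rw [zero_add]
    exact hin _ (hsm r hr)
  have hD2 : ∀ r ∈ Set.Icc (0 : ℝ) 1,
      HasDerivAt (fun r : ℝ => l (dG (0 + r • x, x))) (l (ddG ((0 + r • x, x), (x, 0)))) r := by
    intro r hr
    have h4 := (hdd (0 + r • x, x) ⟨by
      change 0 + r • x ∈ U
      rw [zero_add]; exact hin _ (hsm r hr), trivial⟩ (x, 0))
    have h5 : ((0 : E) + r • x, x) = ((0 : E), x) + r • ((x, 0) : E × E) := by
      simp
    rw [h5] at h4
    have h6 := h4.hasDerivAt l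
    have h7 : (fun s : ℝ => l (dG (((0 : E), x) + s • ((x, 0) : E × E)))) =
        fun r : ℝ => l (dG (0 + r • x, x)) := by
      funext s
      simp
    rw [h7] at h6
    rw [h5]
    exact h6
  -- first application of the mean value theorem
  have hM1 : ∀ r ∈ Set.Ioo (0 : ℝ) 1, |l (dG (0 + r • x, x)) - l (dG (0, x))| ≤ c ^ 2 := by
    intro r hr
    have hsub : Set.Icc (0 : ℝ) r ⊆ Set.Icc 0 1 := Set.Icc_subset_Icc_right hr.2.le
    obtain ⟨q, hq, hq2⟩ := exists_hasDerivAt_eq_slope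
      (fun r : ℝ => l (dG (0 + r • x, x)))
      (fun r : ℝ => l (ddG ((0 + r • x, x), (x, 0)))) hr.1
      (fun r hr => (hD2 r (hsub hr)).continuousAt.continuousWithinAt)
      (fun r hr => hD2 r (hsub (Set.Ioo_subset_Icc_self hr)))
    simp only [zero_smul, add_zero, sub_zero] at hq2
    have h5 : l (dG (0 + r • x, x)) - l (dG (0, x)) = r * l (ddG ((0 + q • x, x), (x, 0))) := by
      rw [hq2]
      field_simp [hr.1.ne']
    rw [h5, abs_mul, abs_of_pos hr.1]
    have h6 := hb2 (0 + q • x) (by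
      rw [zero_add]; exact hsm q (hsub (Set.Ioo_subset_Icc_self hq)))
    calc r * |l (ddG ((0 + q • x, x), (x, 0)))| ≤ 1 * c ^ 2 :=
          mul_le_mul hr.2.le h6 (abs_nonneg _) zero_le_one
      _ = c ^ 2 := one_mul _
  obtain ⟨q, hq, hq2⟩ := exists_hasDerivAt_eq_slope
      (fun r : ℝ => l (G (0 + r • x)))
      (fun r : ℝ => l (dG (0 + r • x, x))) zero_lt_one
      (fun r hr => (hD1 r hr).continuousAt.continuousWithinAt)
      (fun r hr => hD1 r (Set.Ioo_subset_Icc_self hr))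
  simp only [zero_smul, add_zero, sub_zero, one_smul, div_one] at hq2
  rw [zero_add] at hq2
  rw [zero_add] at hq2
  have h7 := hM1 q hq
  rw [zero_add] at h7
  rw [← hq2]
  exact h7

end Taylor

end Pool.Agent.H865R3
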