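import Mathlib

set_option autoImplicit false

namespace Pool.Agent.H865R3.DerAut

open MvPolynomial

variable {F : Type*} [Field F] {σ : Type*}

/-- the polynomial algebra -/
abbrev A (F : Type*) [Field F] (σ : Type*) := MvPolynomial σ F

/-- the Lie algebra of all derivations -/
abbrev W (F : Type*) [Field F] (σ : Type*) := Derivation F (A F σ) (A F σ)

/-- partial derivative -/
noncomputable abbrev P (i : σ) : W F σ := pderiv i

theorem lie_smul' (D E : W F σ) (a : A F σ) : ⁅D, a • E⁆ = a • ⁅D, E⁆ + D a • E := by
  refine Derivation.ext fun x => ?_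
  simp only [Derivation.commutator_apply, Derivation.coe_smul, Pi.smul_apply, smul_eq_mul,
    Derivation.leibniz, Derivation.coe_add, Pi.add_apply]
  ring

theorem smul_lie' (D E : W F σ) (a : A F σ) : ⁅a • D, E⁆ = a • ⁅D, E⁆ - E a • D := by
  refine Derivation.ext fun x => ?_
  simp only [Derivation.commutator_apply, Derivation.coe_smul, Pi.smul_apply, smul_eq_mul,
    Derivation.leibniz, Derivation.coe_sub, Pi.sub_apply]
  ring

theorem lie_sub' (D E E' : W F σ) : ⁅D, E - E'⁆ = ⁅D, E⁆ - ⁅D, E'⁆ := by
  refine Derivation.ext fun x => ?_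
  simp only [Derivation.commutator_apply, Derivation.coe_sub, Pi.sub_apply, map_sub]
  ring

theorem lie_add' (D E E' : W F σ) : ⁅D, E + E'⁆ = ⁅D, E⁆ + ⁅D, E'⁆ := by
  refine Derivation.ext fun x => ?_
  simp only [Derivation.commutator_apply, Derivation.coe_add, Pi.add_apply, map_add]
  ring

theorem P_X_self (i : σ) : P i (X i : A F σ) = 1 := pderiv_X_self i

theorem P_X_ne {i j : σ} (h : j ≠ i) : P i (X j : A F σ) = 0 := pderiv_X_of_ne h

theorem P_comm (i j : σ) : ⁅(P i : W F σ), (P j : W F σ)⁆ = 0 := by
  classical
  apply MvPolynomial.derivation_ext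
  intro k
  simp only [Derivation.commutator_apply, pderiv_X, Derivation.coe_zero, Pi.zero_apply]
  by_cases h1 : j = k <;> by_cases h2 : i = k <;> simp [h1, h2, Pi.single_apply]

theorem P_comm_apply (i j : σ) (a : A F σ) : P i (P j a) = P j (P i a) := by
  have h := congrArg (fun D : W F σ => D a) (P_comm (F := F) i j)
  simp only [Derivation.commutator_apply, Derivation.coe_zero, Pi.zero_apply, sub_eq_zero] at h
  exact h

theorem cancel {D : W F σ} (hD : D ≠ 0) {a b : A F σ} (h : a • D = b • D) : a = b := by
  by_contra hab
  apply hD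
  refine Derivation.ext fun x => ?_
  have h1 := congrArg (fun E : W F σ => E x) h
  simp only [Derivation.coe_smul, Pi.smul_apply, smul_eq_mul] at h1
  have h2 : (a - b) * D x = 0 := by rw [sub_mul, h1, sub_self]
  rcases mul_eq_zero.1 h2 with h3 | h3
  · exact absurd (sub_eq_zero.1 h3) hab
  · simpa using h3

theorem P_ne_zero (i : σ) : (P i : W F σ) ≠ 0 := by
  intro h
  have := congrArg (fun D : W F σ => D (X i)) h
  simp at this

/-- local nilpotency of the partial derivatives -/
theorem nilp (i : σ) (a : A F σ) : ∃ n : ℕ, (fun x => P i x)^[n] a = 0 := by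
  classical
  have key : ∀ (j : σ) (n : ℕ) (p : A F σ), (fun x => P i x)^[n] p = 0 →
      (fun x => P i x)^[n + 1] (p * X j) = 0 := by
    intro j n
    induction n with
    | zero =>
      intro p hp
      simp only [Function.iterate_zero, id_eq] at hp
      simp [hp]
    | succ n ih =>
      intro p hp
      rw [Function.iterate_succ_apply] at hp
      rw [Function.iterate_succ_apply]
      have h1 : P i (p * X j) = P i p * X j + (if j = i then p else 0) := by
        rw [Derivation.leibniz]
        by_cases h : j = i
        · subst h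
          simp [mul_comm, add_comm]
        · simp [h, pderiv_X_of_ne h, mul_comm]
      have hadd : ∀ (m : ℕ) (x y : A F σ), (fun x => P i x)^[m] (x + y) =
          (fun x => P i x)^[m] x + (fun x => P i x)^[m] y := by
        intro m
        induction m with
        | zero => intro x y; simp
        | succ m ihm => intro x y; simp only [Function.iterate_succ_apply, map_add, ihm]
      have hz : ∀ m : ℕ, (fun x => P i x)^[m] (0 : A F σ) = 0 := by
        intro m
        induction m with
        | zero => simp
        | succ m ihm => simp only [Function.iterate_succ_apply, map_zero, ihm]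
      show (fun x => P i x)^[n + 1] (P i (p * X j)) = 0
      rw [h1, hadd, ih _ hp, zero_add]
      by_cases h : j = i
      · rw [if_pos h, Function.iterate_succ_apply]; exact hp
      · rw [if_neg h]; exact hz _
  have hadd : ∀ (m : ℕ) (x y : A F σ), (fun x => P i x)^[m] (x + y) =
      (fun x => P i x)^[m] x + (fun x => P i x)^[m] y := by
    intro m
    induction m with
    | zero => intro x y; simp
    | succ m ihm => intro x y; simp only [Function.iterate_succ_apply, map_add, ihm]
  have hz : ∀ m : ℕ, (fun x => P i x)^[m] (0 : A F σ) = 0 := by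
    intro m
    induction m with
    | zero => simp
    | succ m ihm => simp only [Function.iterate_succ_apply, map_zero, ihm]
  induction a using MvPolynomial.induction_on with
  | C c => exact ⟨1, by simp⟩
  | add p q hp hq =>
    obtain ⟨m, hm⟩ := hp
    obtain ⟨n, hn⟩ := hq
    refine ⟨m + n, ?_⟩
    rw [hadd, add_comm m n, Function.iterate_add_apply, hm, hz, zero_add, add_comm n m,
      Function.iterate_add_apply, hn, hz]
  | mul_X p j hp =>
    obtain ⟨n, hn⟩ := hp
    exact ⟨n + 1, key j n p hn⟩

/-- in characteristic zero a polynomial killed by all partial derivatives is a constant -/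
theorem const_of_P [CharZero F] {a : A F σ} (h : ∀ j, P j a = 0) : a = C (coeff 0 a) := by
  classical
  ext m
  rw [coeff_C]
  by_cases hm : 0 = m
  · simp [hm]
  · rw [if_neg hm]
    have : ∃ j, m j ≠ 0 := by
      by_contra hc
      push Not at hc
      exact hm (Finsupp.ext hc).symm
    obtain ⟨j, hj⟩ := this
    have h1 := congrArg (coeff (m - Finsupp.single j 1)) (h j)
    rw [coeff_pderiv] at h1
    have h2 : m - Finsupp.single j 1 + Finsupp.single j 1 = m := by
      apply tsub_add_cancel_of_le
      rw [Finsupp.single_le_iff]
      omega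
    rw [h2, coeff_zero] at h1
    rcases mul_eq_zero.1 h1 with h3 | h3
    · exact h3
    · exfalso
      have h4 : (m - Finsupp.single j 1 : σ →₀ ℕ) j + 1 = m j := by
        rw [Finsupp.tsub_apply, Finsupp.single_eq_same]; omega
      have h5 : (((m - Finsupp.single j 1 : σ →₀ ℕ) j + 1 : ℕ) : F) = 0 := by
        push_cast; exact h3
      rw [h4] at h5
      exact hj (by exact_mod_cast h5)

end Pool.Agent.H865R3.DerAut
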