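import Pool.Agent.H865R3.DerAut1

set_option autoImplicit false

namespace Pool.Agent.H865R3.DerAut

open MvPolynomial

variable {F : Type*} [Field F] {σ : Type*}

/-- `w` is sent by `ψ` to a multiple of `ψ(∂_i)` -/
def IsM (ψ : W F σ ≃ₗ⁅F⁆ W F σ) (i : σ) (w : W F σ) : Prop :=
  ∃ a : A F σ, ψ w = a • ψ (P i)

variable {ψ : W F σ ≃ₗ⁅F⁆ W F σ} {i : σ}

theorem IsM.add {v w : W F σ} (hv : IsM ψ i v) (hw : IsM ψ i w) : IsM ψ i (v + w) := by
  obtain ⟨a, ha⟩ := hv
  obtain ⟨b, hb⟩ := hw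
  refine ⟨a + b, ?_⟩
  rw [map_add, ha, hb, add_smul]

theorem IsM.neg {v : W F σ} (hv : IsM ψ i v) : IsM ψ i (-v) := by
  obtain ⟨a, ha⟩ := hv
  refine ⟨-a, ?_⟩
  rw [map_neg, ha]
  refine Derivation.ext fun x => ?_
  simp

theorem IsM.sub {v w : W F σ} (hv : IsM ψ i v) (hw : IsM ψ i w) : IsM ψ i (v - w) := by
  rw [sub_eq_add_neg]; exact hv.add hw.neg

theorem IsM.zero : IsM ψ i 0 := ⟨0, by simp⟩

/-- `M` is stable under the centraliser of `∂_i` -/
theorem IsM.lie {E w : W F σ} (hE : ⁅E, (P i : W F σ)⁆ = 0) (hw : IsM ψ i w) :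
    IsM ψ i ⁅E, w⁆ := by
  obtain ⟨a, ha⟩ := hw
  refine ⟨ψ E a, ?_⟩
  rw [LieEquiv.map_lie, ha, lie_smul', ← LieEquiv.map_lie, hE, map_zero, smul_zero, zero_add]

theorem comm_smul_P {j : σ} {f : A F σ} (hf : P i f = 0) : ⁅f • (P j : W F σ), (P i : W F σ)⁆ = 0 := by
  rw [smul_lie', P_comm, hf, smul_zero, zero_smul, sub_zero]

/-- the identity producing elements of rank two -/
theorem ham_identity {l : σ} {f g : A F σ} (w : W F σ) (hfi : P i f = 0) (hfl : P l f = 0)
    (hgi : P i g = 0) (hgl : P l g = 0) :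
    ⁅f • (P i : W F σ), ⁅g • (P l : W F σ), w⁆⁆ - ⁅(P i : W F σ), ⁅(f * g) • (P l : W F σ), w⁆⁆ =
      (g * P i (w f)) • (P l : W F σ) - (g * P l (w f)) • (P i : W F σ) := by
  refine Derivation.ext fun x => ?_
  simp only [Derivation.commutator_apply, Derivation.coe_smul, Pi.smul_apply, smul_eq_mul,
    Derivation.leibniz, Derivation.coe_sub, Pi.sub_apply, map_sub, map_add, hfi, hfl, hgi, hgl,
    P_comm_apply l i, mul_zero, add_zero, zero_add, map_zero, zero_mul, smul_zero]
  ring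

/-- the property `S(p,q)` -/
def S (ψ : W F σ ≃ₗ⁅F⁆ W F σ) (i l : σ) (p q : A F σ) : Prop :=
  ∀ g : A F σ, P i g = 0 → P l g = 0 →
    IsM ψ i ((g * p) • (P l : W F σ) - (g * q) • (P i : W F σ))

theorem S_step {l : σ} {p q : A F σ} (h : S ψ i l p q) : S ψ i l (P i p) (P i q) := by
  intro g hgi hgl
  have h1 := (h g hgi hgl).lie (E := P i) (lie_self _)
  have h2 : ⁅(P i : W F σ), (g * p) • (P l : W F σ) - (g * q) • (P i : W F σ)⁆ =
      (g * P i p) • (P l : W F σ) - (g * P i q) • (P i : W F σ) := by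
    rw [lie_sub', lie_smul', lie_smul', P_comm, lie_self, Derivation.leibniz, Derivation.leibniz,
      hgi]
    simp
  rwa [h2] at h1

theorem S_last {l : σ} : ∀ (n : ℕ) (p q : A F σ), S ψ i l p q → (p ≠ 0 ∨ q ≠ 0) →
    (fun x => P i x)^[n] p = 0 → (fun x => P i x)^[n] q = 0 →
    ∃ p' q' : A F σ, S ψ i l p' q' ∧ (p' ≠ 0 ∨ q' ≠ 0) ∧ P i p' = 0 ∧ P i q' = 0 := by
  intro n
  induction n with
  | zero =>
    intro p q _ h h1 h2
    simp only [Function.iterate_zero, id_eq] at h1 h2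
    exact absurd h (by simp [h1, h2])
  | succ n ih =>
    intro p q hS h h1 h2
    rw [Function.iterate_succ_apply] at h1 h2
    by_cases hc : P i p ≠ 0 ∨ P i q ≠ 0
    · exact ih _ _ (S_step hS) hc h1 h2
    · push Not at hc
      exact ⟨p, q, hS, h, hc.1, hc.2⟩

theorem S_exists {l : σ} {p q : A F σ} (hS : S ψ i l p q) (h : p ≠ 0 ∨ q ≠ 0) :
    ∃ p' q' : A F σ, S ψ i l p' q' ∧ (p' ≠ 0 ∨ q' ≠ 0) ∧ P i p' = 0 ∧ P i q' = 0 := by
  obtain ⟨m, hm⟩ := nilp i p
  obtain ⟨n, hn⟩ := nilp i q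
  have hz : ∀ m : ℕ, (fun x => P i x)^[m] (0 : A F σ) = 0 := by
    intro m
    induction m with
    | zero => simp
    | succ m ihm => simp only [Function.iterate_succ_apply, map_zero, ihm]
  apply S_last (m + n) p q hS h
  · rw [add_comm m n, Function.iterate_add_apply, hm, hz]
  · rw [Function.iterate_add_apply, hn, hz]

/-- the property used at the end of step 1 -/
def R (ψ : W F σ ≃ₗ⁅F⁆ W F σ) (i l : σ) (c : A F σ) : Prop :=
  ∀ g : A F σ, P i g = 0 → P l g = 0 → IsM ψ i ((g * c) • (P i : W F σ))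

theorem R_of_S {l : σ} (hl : l ≠ i) {p q : A F σ} (hS : S ψ i l p q) (h : p ≠ 0 ∨ q ≠ 0)
    (hp : P i p = 0) (hq : P i q = 0) : ∃ c : A F σ, c ≠ 0 ∧ P i c = 0 ∧ R ψ i l c := by
  by_cases hp0 : p = 0
  · refine ⟨q, by simpa [hp0] using h, hq, ?_⟩
    intro g hgi hgl
    have := (hS g hgi hgl).neg
    simpa [hp0] using this
  · refine ⟨p, hp0, hp, ?_⟩
    intro g hgi hgl
    have h1 := ((hS g hgi hgl).lie (E := (X l : A F σ) • (P i : W F σ))
      (comm_smul_P (P_X_ne hl))).neg
    have h2 : -⁅(X l : A F σ) • (P i : W F σ), (g * p) • (P l : W F σ) - (g * q) • (P i : W F σ)⁆ =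
        (g * p) • (P i : W F σ) := by
      rw [lie_sub', lie_smul', lie_smul', smul_lie', smul_lie', P_comm, lie_self, P_X_self,
        P_X_ne hl]
      simp only [Derivation.coe_smul, Pi.smul_apply, Derivation.leibniz, hp, hq, hgi]
      simp
    rwa [h2] at h1

theorem nonconst_of_R [Infinite σ] {l : σ} {c : A F σ} (hc : c ≠ 0) (hci : P i c = 0)
    (hR : R ψ i l c) : ∃ c' : A F σ, P i c' = 0 ∧ (∃ j, P j c' ≠ 0) ∧
      IsM ψ i (c' • (P i : W F σ)) := by
  classical
  by_cases h : ∃ j, P j c ≠ 0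
  · refine ⟨c, hci, h, ?_⟩
    have := hR 1 (by simp) (by simp)
    simpa using this
  · push Not at h
    obtain ⟨m, hm⟩ := Infinite.exists_notMem_finset ({i, l} : Finset σ)
    simp only [Finset.mem_insert, Finset.mem_singleton, not_or] at hm
    refine ⟨X m * c, ?_, ⟨m, ?_⟩, hR (X m) (P_X_ne hm.1) (P_X_ne hm.2)⟩
    · rw [Derivation.leibniz, hci, P_X_ne hm.1]; simp
    · rw [Derivation.leibniz, h m, P_X_self]; simpa using hc

theorem exists_R_of_P : ∀ (n : ℕ) (b : A F σ), IsM ψ i (b • (P i : W F σ)) → P i b ≠ 0 →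
    (fun x => P i x)^[n] b = 0 → ∃ c : A F σ, c ≠ 0 ∧ P i c = 0 ∧ ∀ l, R ψ i l c := by
  intro n
  induction n with
  | zero =>
    intro b _ h1 h2
    simp only [Function.iterate_zero, id_eq] at h2
    rw [h2] at h1; simp at h1
  | succ n ih =>
    intro b hb h1 h2
    rw [Function.iterate_succ_apply] at h2
    have key : ∀ g : A F σ, P i g = 0 → IsM ψ i ((g * P i b) • (P i : W F σ)) := by
      intro g hg
      have h3 := hb.lie (E := g • (P i : W F σ)) (comm_smul_P hg)
      have h4 : ⁅g • (P i : W F σ), b • (P i : W F σ)⁆ = (g * P i b) • (P i : W F σ) := by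
        rw [smul_lie', lie_smul', lie_self]
        simp [hg, smul_smul]
      rwa [h4] at h3
    by_cases h : P i (P i b) = 0
    · exact ⟨P i b, h1, h, fun l g hg _ => key g hg⟩
    · refine ih (P i b) ?_ h h2
      have := key 1 (by simp)
      simpa using this

/-- **Step 1**: some nonconstant `f ∈ ker ∂_i` has `ψ(f ∂_i)` proportional to `ψ(∂_i)`. -/
theorem step1 [CharZero F] [Infinite σ] (ψ : W F σ ≃ₗ⁅F⁆ W F σ) (i : σ) :
    ∃ c : A F σ, P i c = 0 ∧ (∃ j, P j c ≠ 0) ∧ IsM ψ i (c • (P i : W F σ)) := by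
  classical
  by_cases hcase : ∃ (w : W F σ) (l : σ) (f : A F σ), IsM ψ i w ∧ l ≠ i ∧ P i f = 0 ∧ P l f = 0 ∧
      (P i (w f) ≠ 0 ∨ P l (w f) ≠ 0)
  · obtain ⟨w, l, f, hw, hl, hfi, hfl, hne⟩ := hcase
    have hS : S ψ i l (P i (w f)) (P l (w f)) := by
      intro g hgi hgl
      rw [← ham_identity w hfi hfl hgi hgl]
      have hfg : P i (f * g) = 0 := by rw [Derivation.leibniz, hfi, hgi]; simp
      exact ((hw.lie (comm_smul_P hgi)).lie (comm_smul_P hfi)).sub
        ((hw.lie (comm_smul_P hfg)).lie (lie_self _))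
    obtain ⟨p, q, hS', hpq, hp, hq⟩ := S_exists hS hne
    obtain ⟨c, hc, hci, hR⟩ := R_of_S hl hS' hpq hp hq
    exact nonconst_of_R hc hci hR
  · push Not at hcase
    -- every `w ∈ M` is a multiple of `∂_i`
    have hzero : ∀ w : W F σ, IsM ψ i w → ∀ l, l ≠ i → w (X l) = 0 := by
      intro w hw l hl
      obtain ⟨j, hj⟩ := Infinite.exists_notMem_finset ({i, l} : Finset σ)
      simp only [Finset.mem_insert, Finset.mem_singleton, not_or] at hj
      obtain ⟨hji, hjl⟩ := hj
      have e1 : P l (w (X j)) = 0 :=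
        (hcase w l (X j) hw hl (P_X_ne hji) (P_X_ne hjl)).2
      have e2 : ∀ a : A F σ, P i a = 0 → P l (a * P j (w (X j)) - w a) = 0 := by
        intro a ha
        have h1 := (hcase ⁅a • (P j : W F σ), w⁆ l (X j) (hw.lie (comm_smul_P ha)) hl
          (P_X_ne hji) (P_X_ne hjl)).2
        rw [Derivation.commutator_apply] at h1
        simp only [Derivation.coe_smul, Pi.smul_apply, P_X_self, smul_eq_mul, mul_one] at h1
        exact h1
      have e3 := e2 (X l) (P_X_ne hl)
      have e4 := e2 (X l * X l) (by rw [Derivation.leibniz, P_X_ne hl]; simp)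
      have e5 : P l (P j (w (X j))) = 0 := by rw [P_comm_apply, e1, map_zero]
      rw [map_sub, Derivation.leibniz, e5, P_X_self] at e3
      simp only [map_sub, Derivation.leibniz, e5, P_X_self, map_add, smul_eq_mul] at e4
      simp only [smul_eq_mul, mul_one, mul_zero, zero_add] at e3 e4
      have e6 : (2 : A F σ) * w (X l) = 0 := by
        linear_combination (-1 : A F σ) * e4 + 2 * X l * e3
      rcases mul_eq_zero.1 e6 with h | h
      · exact absurd h two_ne_zero
      · exact h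
    have hform : ∀ w : W F σ, IsM ψ i w → w = w (X i) • (P i : W F σ) := by
      intro w hw
      apply MvPolynomial.derivation_ext
      intro l
      by_cases hl : l = i
      · subst hl
        simp
      · rw [hzero w hw l hl]
        simp [pderiv_X_of_ne hl]
    obtain ⟨k⟩ : Nonempty σ := inferInstance
    have hD : ψ (P i) ≠ 0 := by
      intro h
      exact P_ne_zero (F := F) i (ψ.injective (h.trans (map_zero ψ).symm))
    set w := ψ.symm ((X k : A F σ) • ψ (P i)) with hw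
    have hwM : IsM ψ i w := ⟨X k, by rw [hw, LieEquiv.apply_symm_apply]⟩
    set a := w (X i) with ha
    have hwa : w = a • (P i : W F σ) := hform w hwM
    have hMa : IsM ψ i (a • (P i : W F σ)) := by rw [← hwa]; exact hwM
    by_cases hai : P i a = 0
    · refine ⟨a, hai, ?_, hMa⟩
      by_contra hc
      push Not at hc
      have hconst := const_of_P hc
      have h1 : ψ w = (C (coeff 0 a) : A F σ) • ψ (P i) := by
        have h2 : w = (coeff 0 a) • (P i : W F σ) := by
          rw [hwa]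
          refine Derivation.ext fun x => ?_
          rw [Derivation.coe_smul, Pi.smul_apply, Derivation.coe_smul, Pi.smul_apply,
            MvPolynomial.smul_eq_C_mul, smul_eq_mul, ← hconst]
        rw [h2, map_smul]
        refine Derivation.ext fun x => ?_
        simp [MvPolynomial.smul_eq_C_mul]
      rw [hw, LieEquiv.apply_symm_apply] at h1
      have h3 := cancel hD h1
      have h4 := congrArg (fun x => P k x) h3
      simp at h4
    · obtain ⟨n, hn⟩ := nilp i a
      obtain ⟨c, hc, hci, hR⟩ := exists_R_of_P n a hMa hai hn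
      exact nonconst_of_R hc hci (hR k)

end Pool.Agent.H865R3.DerAut
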