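import Pool.Agent.H865R3.DerAut2

set_option autoImplicit false

namespace Pool.Agent.H865R3.DerAut

open MvPolynomial

variable {F : Type*} [Field F] {σ : Type*} {ψ : W F σ ≃ₗ⁅F⁆ W F σ} {i : σ}

/-- `Q(p)`: the ideal of `ker ∂_i` generated by `p` is sent to multiples of `ψ(∂_i)` -/
def Q (ψ : W F σ ≃ₗ⁅F⁆ W F σ) (i : σ) (p : A F σ) : Prop :=
  P i p = 0 ∧ ∀ g : A F σ, P i g = 0 → IsM ψ i ((g * p) • (P i : W F σ))

theorem Q_of_nonconst {c : A F σ} (hc : P i c = 0) {j : σ}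
    (hM : IsM ψ i (c • (P i : W F σ))) : Q ψ i (P j c) := by
  refine ⟨by rw [P_comm_apply, hc, map_zero], fun g hg => ?_⟩
  have h1 := hM.lie (E := g • (P j : W F σ)) (comm_smul_P hg)
  have h2 : ⁅g • (P j : W F σ), c • (P i : W F σ)⁆ = (g * P j c) • (P i : W F σ) := by
    rw [smul_lie', lie_smul', P_comm]
    simp [hg, smul_smul]
  rwa [h2] at h1

theorem Q_step {p : A F σ} (hQ : Q ψ i p) (l : σ) : Q ψ i (P l p) := by
  refine ⟨by rw [P_comm_apply, hQ.1, map_zero], fun g hg => ?_⟩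
  have h1 := (hQ.2 g hg).lie (E := P l) (P_comm l i)
  have h2 : IsM ψ i ((P l g * p) • (P i : W F σ)) :=
    hQ.2 _ (by rw [P_comm_apply, hg, map_zero])
  have h3 : ⁅(P l : W F σ), (g * p) • (P i : W F σ)⁆ - (P l g * p) • (P i : W F σ) =
      (g * P l p) • (P i : W F σ) := by
    rw [lie_smul', P_comm, Derivation.leibniz]
    refine Derivation.ext fun x => ?_
    simp
    ring
  have h4 := h1.sub h2
  rwa [h3] at h4

theorem Q_iter (l : σ) : ∀ (n : ℕ) (p : A F σ), Q ψ i p → p ≠ 0 → (fun x => P l x)^[n] p = 0 →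
    ∃ p' : A F σ, Q ψ i p' ∧ p' ≠ 0 ∧ P l p' = 0 ∧ ∀ k, P k p = 0 → P k p' = 0 := by
  intro n
  induction n with
  | zero =>
    intro p _ h1 h2
    simp only [Function.iterate_zero, id_eq] at h2
    exact absurd h2 h1
  | succ n ih =>
    intro p hQ hp h2
    rw [Function.iterate_succ_apply] at h2
    by_cases h : P l p = 0
    · exact ⟨p, hQ, hp, h, fun _ hk => hk⟩
    · obtain ⟨p', h3, h4, h5, h6⟩ := ih _ (Q_step hQ l) h h2
      refine ⟨p', h3, h4, h5, fun k hk => h6 k ?_⟩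
      rw [P_comm_apply, hk, map_zero]

theorem Q_finset (s : Finset σ) : ∀ (p : A F σ), Q ψ i p → p ≠ 0 →
    ∃ p' : A F σ, Q ψ i p' ∧ p' ≠ 0 ∧ (∀ l ∈ s, P l p' = 0) ∧ ∀ k, P k p = 0 → P k p' = 0 := by
  classical
  induction s using Finset.induction_on with
  | empty => intro p hQ hp; exact ⟨p, hQ, hp, by simp, fun _ h => h⟩
  | insert a s ha ih =>
    intro p hQ hp
    obtain ⟨p1, h1, h2, h3, h4⟩ := ih p hQ hp
    obtain ⟨n, hn⟩ := nilp a p1
    obtain ⟨p2, h5, h6, h7, h8⟩ := Q_iter a n p1 h1 h2 hn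
    refine ⟨p2, h5, h6, ?_, fun k hk => h8 k (h4 k hk)⟩
    intro l hl
    rcases Finset.mem_insert.1 hl with rfl | hl
    · exact h7
    · exact h8 l (h3 l hl)

/-- **Step 2**: `ψ(f ∂_i)` is proportional to `ψ(∂_i)` for every `f ∈ ker ∂_i`. -/
theorem step2 [CharZero F] [Infinite σ] (ψ : W F σ ≃ₗ⁅F⁆ W F σ) (i : σ) {f : A F σ}
    (hf : P i f = 0) : IsM ψ i (f • (P i : W F σ)) := by
  classical
  obtain ⟨c, hc, ⟨j, hj⟩, hM⟩ := step1 ψ i
  have hQ : Q ψ i (P j c) := Q_of_nonconst hc hM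
  obtain ⟨p, h1, h2, h3, h4⟩ := Q_finset (P j c).vars _ hQ hj
  have h5 : ∀ l, P l p = 0 := by
    intro l
    by_cases hl : l ∈ (P j c : A F σ).vars
    · exact h3 l hl
    · exact h4 l (pderiv_eq_zero_of_notMem_vars hl)
  have h6 := const_of_P h5
  have h7 : coeff 0 p ≠ 0 := by
    intro h
    rw [h, C_0] at h6
    exact h2 h6
  have h8 := h1.2 (f * C (coeff 0 p)⁻¹) (by
    rw [Derivation.leibniz, hf]; simp)
  have h9 : f * C (coeff 0 p)⁻¹ * p = f := by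
    rw [h6, coeff_C, if_pos rfl, mul_assoc, ← C_mul, inv_mul_cancel₀ h7, C_1, mul_one]
  rwa [h9] at h8

end Pool.Agent.H865R3.DerAut
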