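import Pool.Agent.H865R3.DerAut3

set_option autoImplicit false

namespace Pool.Agent.H865R3.DerAut

open MvPolynomial

variable {F : Type*} [Field F] {σ : Type*} {ψ : W F σ ≃ₗ⁅F⁆ W F σ}

theorem psiP_ne_zero (ψ : W F σ ≃ₗ⁅F⁆ W F σ) (i : σ) : ψ (P i) ≠ 0 := by
  intro h
  exact P_ne_zero (F := F) i (ψ.injective (h.trans (map_zero ψ).symm))

theorem psi_comm (ψ : W F σ ≃ₗ⁅F⁆ W F σ) (i j : σ) : ⁅ψ (P i), ψ (P j)⁆ = 0 := by
  rw [← LieEquiv.map_lie, P_comm, map_zero]

/-- the key relation between the multipliers for two different indices -/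
theorem mult_rel [CharZero F] [Infinite σ] {i j : σ} (hij : i ≠ j) {f g a c : A F σ}
    (hfi : P i f = 0) (hfj : P j f = 0) (hgi : P i g = 0) (hgj : P j g = 0)
    (ha : ψ (f • (P i : W F σ)) = a • ψ (P i)) (hc : ψ (g • (P j : W F σ)) = c • ψ (P j)) :
    ψ ((f * g) • (P j : W F σ)) = (a * c) • ψ (P j) := by
  have hgX : P j (g * X i) = 0 := by rw [Derivation.leibniz, hgj, P_X_ne hij]; simp
  obtain ⟨b, hb⟩ := step2 ψ j hgX
  -- `D_i b = c`
  have h1 : (ψ (P i)) b = c := by
    have e : ⁅(P i : W F σ), (g * X i) • (P j : W F σ)⁆ = g • (P j : W F σ) := by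
      rw [lie_smul', P_comm, Derivation.leibniz, hgi, P_X_self]; simp
    have e2 := congrArg ψ e
    rw [LieEquiv.map_lie, hb, hc, lie_smul', psi_comm, smul_zero, zero_add] at e2
    exact cancel (psiP_ne_zero ψ j) e2
  -- `D_j a = 0`
  have h2 : (ψ (P j)) a = 0 := by
    have e : ⁅(P j : W F σ), f • (P i : W F σ)⁆ = 0 := by
      rw [lie_smul', P_comm, hfj]; simp
    have e2 := congrArg ψ e
    rw [LieEquiv.map_lie, ha, lie_smul', psi_comm, smul_zero, zero_add, map_zero] at e2
    exact cancel (psiP_ne_zero ψ i) (by rw [e2, zero_smul])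
  have e : ⁅f • (P i : W F σ), (g * X i) • (P j : W F σ)⁆ = (f * g) • (P j : W F σ) := by
    rw [smul_lie', lie_smul', P_comm, Derivation.leibniz, hgi, P_X_self]
    simp [hfj, smul_smul]
  rw [← e, LieEquiv.map_lie, ha, hb, smul_lie', lie_smul', psi_comm, Derivation.coe_smul,
    Pi.smul_apply, h2, h1]
  simp [smul_smul]

theorem exists_index [Infinite σ] (s : Finset σ) : ∃ i, i ∉ s := Infinite.exists_notMem_finset s

/-- the multiplier map exists -/
theorem exists_theta [CharZero F] [Infinite σ] (ψ : W F σ ≃ₗ⁅F⁆ W F σ) :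
    ∃ θ : A F σ → A F σ, ∀ (f : A F σ) (i : σ), P i f = 0 →
      ψ (f • (P i : W F σ)) = θ f • ψ (P i) := by
  classical
  have h0 : ∀ f : A F σ, ∃ a : A F σ, ∀ i : σ, P i f = 0 →
      ψ (f • (P i : W F σ)) = a • ψ (P i) := by
    intro f
    obtain ⟨j, hj⟩ := exists_index f.vars
    have hfj : P j f = 0 := pderiv_eq_zero_of_notMem_vars hj
    obtain ⟨a, ha⟩ := step2 ψ j hfj
    refine ⟨a, fun i hi => ?_⟩
    by_cases hij : j = i
    · subst hij; exact ha
    · have h1 : ψ ((1 : A F σ) • (P i : W F σ)) = (1 : A F σ) • ψ (P i) := by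
        rw [one_smul, one_smul]
      have := mult_rel hij hfj hi (by simp) (by simp) ha h1
      simpa using this
  choose θ hθ using h0
  exact ⟨θ, hθ⟩

section
variable [CharZero F] [Infinite σ] {θ : A F σ → A F σ}
  (hθ : ∀ (f : A F σ) (i : σ), P i f = 0 → ψ (f • (P i : W F σ)) = θ f • ψ (P i))

include hθ

theorem theta_unique {f a : A F σ} {i : σ} (hi : P i f = 0)
    (h : ψ (f • (P i : W F σ)) = a • ψ (P i)) : θ f = a := by
  rw [hθ f i hi] at h
  exact cancel (psiP_ne_zero ψ i) h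

theorem theta_mul (f g : A F σ) : θ (f * g) = θ f * θ g := by
  classical
  obtain ⟨i, hi⟩ := exists_index (f.vars ∪ g.vars)
  obtain ⟨j, hj⟩ := exists_index (insert i (f.vars ∪ g.vars))
  simp only [Finset.mem_union, not_or, Finset.mem_insert] at hi hj
  have hfi : P i f = 0 := pderiv_eq_zero_of_notMem_vars hi.1
  have hgi : P i g = 0 := pderiv_eq_zero_of_notMem_vars hi.2
  have hfj : P j f = 0 := pderiv_eq_zero_of_notMem_vars hj.2.1
  have hgj : P j g = 0 := pderiv_eq_zero_of_notMem_vars hj.2.2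
  have hij : i ≠ j := fun h => hj.1 h.symm
  refine theta_unique hθ (i := j) (by rw [Derivation.leibniz, hfj, hgj]; simp) ?_
  exact mult_rel hij hfi hfj hgi hgj (hθ f i hfi) (hθ g j hgj)

theorem theta_add (f g : A F σ) : θ (f + g) = θ f + θ g := by
  classical
  obtain ⟨i, hi⟩ := exists_index (f.vars ∪ g.vars)
  simp only [Finset.mem_union, not_or] at hi
  have hfi : P i f = 0 := pderiv_eq_zero_of_notMem_vars hi.1
  have hgi : P i g = 0 := pderiv_eq_zero_of_notMem_vars hi.2
  refine theta_unique hθ (i := i) (by rw [map_add, hfi, hgi, add_zero]) ?_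
  rw [add_smul, map_add, hθ f i hfi, hθ g i hgi, add_smul]

theorem theta_C (c : F) : θ (C c) = C c := by
  obtain ⟨i⟩ : Nonempty σ := inferInstance
  refine theta_unique hθ (i := i) (by simp) ?_
  have h1 : ∀ D : W F σ, (C c : A F σ) • D = c • D := by
    intro D
    refine Derivation.ext fun x => ?_
    simp [MvPolynomial.smul_eq_C_mul]
  rw [h1, h1, map_smul]

/-- `θ` intertwines the actions of the centralisers -/
theorem theta_inter {E : W F σ} {i : σ} {f : A F σ} (hE : ⁅E, (P i : W F σ)⁆ = 0)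
    (hf : P i f = 0) : ψ E (θ f) = θ (E f) := by
  have hEf : P i (E f) = 0 := by
    have := congrArg (fun D : W F σ => D f) hE
    simp only [Derivation.commutator_apply, hf, map_zero, zero_sub, Derivation.coe_zero,
      Pi.zero_apply, neg_eq_zero] at this
    exact this
  symm
  refine theta_unique hθ hEf ?_
  have e : ⁅E, f • (P i : W F σ)⁆ = E f • (P i : W F σ) := by
    rw [lie_smul', hE, smul_zero, zero_add]
  rw [← e, LieEquiv.map_lie, hθ f i hf, lie_smul', ← LieEquiv.map_lie, hE, map_zero, smul_zero,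
    zero_add]

theorem theta_P (j : σ) (f : A F σ) : ψ (P j) (θ f) = θ (P j f) := by
  obtain ⟨i, hi⟩ := exists_index f.vars
  exact theta_inter hθ (P_comm j i) (pderiv_eq_zero_of_notMem_vars hi)

/-- **Key step**: `E f = 0` implies `ψ(E)(θ f) = 0`. -/
theorem key_step {E : W F σ} {f : A F σ} (hEf : E f = 0) : ψ E (θ f) = 0 := by
  classical
  obtain ⟨i, hi⟩ := exists_index f.vars
  obtain ⟨l, hl⟩ := exists_index (insert i f.vars)
  simp only [not_or, Finset.mem_insert] at hl
  have hfi : P i f = 0 := pderiv_eq_zero_of_notMem_vars hi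
  have hfl : P l f = 0 := pderiv_eq_zero_of_notMem_vars hl.2
  have hil : i ≠ l := fun h => hl.1 h.symm
  set g := θ f with hg
  set u := θ (X i) with hu
  set v := θ (X l) with hv
  set a := ψ E g with ha
  set Y : W F σ := ⁅(P i : W F σ), E⁆ with hY
  have h1 : ∀ c : F, θ (C c) = C c := theta_C hθ
  have hθ0 : θ 0 = 0 := by simpa using h1 0
  have hθ1 : θ 1 = 1 := by simpa using h1 1
  have Dig : ψ (P i) g = 0 := by rw [hg, theta_P hθ, hfi, hθ0]
  have Dlg : ψ (P l) g = 0 := by rw [hg, theta_P hθ, hfl, hθ0]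
  have Diu : ψ (P i) u = 1 := by rw [hu, theta_P hθ, P_X_self, hθ1]
  have Dlu : ψ (P l) u = 0 := by rw [hu, theta_P hθ, P_X_ne hil, hθ0]
  have Div : ψ (P i) v = 0 := by rw [hv, theta_P hθ, P_X_ne hil.symm, hθ0]
  have Dlv : ψ (P l) v = 1 := by rw [hv, theta_P hθ, P_X_self, hθ1]
  have hYf : Y f = 0 := by
    rw [hY, Derivation.commutator_apply, hEf, hfi, map_zero, map_zero, sub_zero]
  have hfY : ψ (f • Y) = g • ψ Y - a • ψ (P i) := by
    have e : f • Y = ⁅f • (P i : W F σ), E⁆ := by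
      rw [smul_lie', hEf, zero_smul, sub_zero]
    rw [e, LieEquiv.map_lie, hθ f i hfi, smul_lie', ← LieEquiv.map_lie]
  -- (2)
  have h2 : (ψ (P l) a) • ψ (P i) = (ψ Y g) • ψ (P l) := by
    have e : ⁅f • Y, (P l : W F σ)⁆ = ⁅Y, f • (P l : W F σ)⁆ := by
      rw [smul_lie', lie_smul', hfl, hYf]; simp
    have e2 := congrArg ψ e
    rw [LieEquiv.map_lie, LieEquiv.map_lie, hfY, hθ f l hfl, lie_smul'] at e2
    have e3 : ⁅g • ψ Y - a • ψ (P i), ψ (P l)⁆ =
        g • ⁅ψ Y, ψ (P l)⁆ + (ψ (P l) a) • ψ (P i) := by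
      have : ⁅g • ψ Y - a • ψ (P i), ψ (P l)⁆ = ⁅g • ψ Y, ψ (P l)⁆ - ⁅a • ψ (P i), ψ (P l)⁆ := by
        refine Derivation.ext fun x => ?_
        simp only [Derivation.commutator_apply, Derivation.coe_sub, Pi.sub_apply, map_sub]
        ring
      rw [this, smul_lie', smul_lie', psi_comm, Dlg, smul_zero, zero_smul]
      refine Derivation.ext fun x => ?_
      simp
    rw [e3] at e2
    exact add_left_cancel e2
  have h2u := congrArg (fun D : W F σ => D u) h2
  have h2v := congrArg (fun D : W F σ => D v) h2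
  simp only [Derivation.coe_smul, Pi.smul_apply, smul_eq_mul, Diu, Dlu, Div, Dlv, mul_one,
    mul_zero] at h2u h2v
  -- (3)
  have hψZ : ψ ((X i : A F σ) • (P l : W F σ)) = u • ψ (P l) := hθ _ l (P_X_ne hil)
  have hψfZ : ψ ((f * X i : A F σ) • (P l : W F σ)) = (g * u) • ψ (P l) := by
    rw [hθ _ l (by rw [Derivation.leibniz, hfl, P_X_ne hil]; simp), theta_mul hθ]
  have e : ⁅f • Y, (X i : A F σ) • (P l : W F σ)⁆ = ⁅Y, (f * X i) • (P l : W F σ)⁆ := by
    rw [smul_lie', lie_smul', lie_smul', Derivation.leibniz, hYf]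
    simp only [Derivation.coe_smul, Pi.smul_apply, hfl, smul_zero, zero_smul, sub_zero, smul_add,
      smul_smul, add_zero, smul_eq_mul, mul_zero]
  have e2 := congrArg ψ e
  rw [LieEquiv.map_lie, LieEquiv.map_lie, hfY, hψZ, hψfZ] at e2
  have e3 := congrArg (fun D : W F σ => D v) e2
  simp only [Derivation.commutator_apply, Derivation.coe_smul, Pi.smul_apply, Derivation.coe_sub,
    Pi.sub_apply, smul_eq_mul, Derivation.leibniz, map_sub, map_add, Diu, Dlu, Div, Dlv, Dlg, Dig,
    h2u, ← h2v, mul_one, mul_zero, Derivation.map_one_eq_zero, sub_zero, zero_sub, add_zero,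
    zero_add, map_zero] at e3
  linear_combination (-1 : A F σ) * e3

end

end Pool.Agent.H865R3.DerAut

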