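import Pool.Agent.H865R3.DerAut4

set_option autoImplicit false

namespace Pool.Agent.H865R3.DerAut

open MvPolynomial

variable {F : Type*} [Field F] {σ : Type*} {ψ : W F σ ≃ₗ⁅F⁆ W F σ}

theorem sum_apply' {ι : Type*} (s : Finset ι) (D : ι → W F σ) (x : A F σ) :
    (∑ j ∈ s, D j) x = ∑ j ∈ s, D j x := by
  classical
  induction s using Finset.induction_on with
  | empty => simp
  | insert a s ha ih => rw [Finset.sum_insert ha, Finset.sum_insert ha, Derivation.coe_add,
      Pi.add_apply, ih]

/-- the intertwining property for all derivations -/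
theorem theta_all [CharZero F] [Infinite σ] {θ : A F σ → A F σ}
    (hθ : ∀ (f : A F σ) (i : σ), P i f = 0 → ψ (f • (P i : W F σ)) = θ f • ψ (P i))
    (E : W F σ) (f : A F σ) : ψ E (θ f) = θ (E f) := by
  classical
  set E' : W F σ := ∑ j ∈ f.vars, E (X j) • (P j : W F σ) with hE'
  have hX : ∀ k ∈ f.vars, E' (X k) = E (X k) := by
    intro k hk
    rw [hE', sum_apply', Finset.sum_eq_single k]
    · simp
    · intro b _ hb
      rw [Derivation.coe_smul, Pi.smul_apply, P_X_ne hb.symm, smul_zero]
    · intro h; exact absurd hk h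
  have h1 : (E - E') f = 0 := by
    apply MvPolynomial.derivation_eq_zero_of_forall_mem_vars
    intro k hk
    rw [Derivation.coe_sub, Pi.sub_apply, hX k hk, sub_self]
  have h2 := key_step hθ h1
  rw [map_sub, Derivation.coe_sub, Pi.sub_apply, sub_eq_zero] at h2
  rw [Derivation.coe_sub, Pi.sub_apply, sub_eq_zero] at h1
  rw [h2, h1]
  obtain ⟨i, hi⟩ := exists_index (f.vars ∪ f.vars.biUnion fun j => (E (X j)).vars)
  simp only [Finset.mem_union, not_or, Finset.mem_biUnion, not_exists, not_and] at hi
  have hE'i : ⁅E', (P i : W F σ)⁆ = 0 := by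
    refine Derivation.ext fun x => ?_
    rw [Derivation.commutator_apply, hE', sum_apply', sum_apply', map_sum, ← Finset.sum_sub_distrib]
    apply Finset.sum_eq_zero
    intro j hj
    rw [Derivation.coe_smul, Pi.smul_apply, Pi.smul_apply, smul_eq_mul, smul_eq_mul,
      Derivation.leibniz, pderiv_eq_zero_of_notMem_vars (hi.2 j hj), P_comm_apply i j]
    simp
  exact theta_inter hθ hE'i (pderiv_eq_zero_of_notMem_vars hi.1)

/-- `θ` as an algebra homomorphism -/
theorem exists_algHom [CharZero F] [Infinite σ] (ψ : W F σ ≃ₗ⁅F⁆ W F σ) :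
    ∃ θ : A F σ →ₐ[F] A F σ, ∀ (E : W F σ) (f : A F σ), ψ E (θ f) = θ (E f) := by
  obtain ⟨θ, hθ⟩ := exists_theta ψ
  have h1 : θ 1 = 1 := by simpa using theta_C hθ 1
  have h0 : θ 0 = 0 := by simpa using theta_C hθ 0
  refine ⟨{ toFun := θ
            map_one' := h1
            map_mul' := theta_mul hθ
            map_zero' := h0
            map_add' := theta_add hθ
            commutes' := fun c => by
              rw [MvPolynomial.algebraMap_eq]; exact theta_C hθ c }, ?_⟩
  intro E f
  exact theta_all hθ E f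

/-- an algebra endomorphism commuting with all derivations is the identity -/
theorem eq_id_of_comm [CharZero F] (e : A F σ →ₐ[F] A F σ)
    (he : ∀ (E : W F σ) (f : A F σ), E (e f) = e (E f)) : e = AlgHom.id F (A F σ) := by
  classical
  apply MvPolynomial.algHom_ext
  intro i
  have h1 : ∀ j, P j (e (X i) - X i) = 0 := by
    intro j
    rw [map_sub, he]
    by_cases h : i = j
    · subst h; rw [P_X_self]; simp
    · rw [P_X_ne h]; simp
  have h2 := const_of_P h1
  set c := coeff 0 (e (X i) - X i) with hc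
  have h3 : e (X i) = X i + C c := by rw [← h2]; ring
  have h4 := he ((X i : A F σ) • (P i : W F σ)) (X i)
  simp only [Derivation.coe_smul, Pi.smul_apply, P_X_self, smul_eq_mul, mul_one] at h4
  rw [h3, map_add, P_X_self] at h4
  simp only [Derivation.map_algebraMap, pderiv_C, add_zero, mul_one] at h4
  rw [h3, AlgHom.id_apply]
  exact h4.symm

/-- every automorphism of the Lie algebra of derivations is a conjugation -/
theorem main [CharZero F] [Infinite σ] (ψ : W F σ ≃ₗ⁅F⁆ W F σ) :
    ∃ φ : A F σ ≃ₐ[F] A F σ, ∀ (D : W F σ) (f : A F σ), ψ D f = φ (D (φ.symm f)) := by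
  obtain ⟨θ, hθ⟩ := exists_algHom ψ
  obtain ⟨θ', hθ'⟩ := exists_algHom ψ.symm
  have h1 : θ.comp θ' = AlgHom.id F (A F σ) := by
    apply eq_id_of_comm
    intro E f
    rw [AlgHom.comp_apply, AlgHom.comp_apply]
    have := hθ (ψ.symm E) (θ' f)
    rw [LieEquiv.apply_symm_apply] at this
    rw [this, hθ']
  have h2 : θ'.comp θ = AlgHom.id F (A F σ) := by
    apply eq_id_of_comm
    intro E f
    rw [AlgHom.comp_apply, AlgHom.comp_apply]
    have := hθ' (ψ E) (θ f)
    rw [LieEquiv.symm_apply_apply] at this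
    rw [this, hθ]
  refine ⟨AlgEquiv.ofAlgHom θ θ' h1 h2, fun D f => ?_⟩
  have h3 : f = θ (θ' f) := by
    have := congrArg (fun e : A F σ →ₐ[F] A F σ => e f) h1
    simpa using this.symm
  show ψ D f = θ (D (θ' f))
  rw [← hθ, ← h3]

end Pool.Agent.H865R3.DerAut
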