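import Pool.Agent.H865R3.Bast1

set_option autoImplicit false

namespace Pool.Agent.H865R3

open Filter Topology

universe u v w z

/-- A smooth atlas modelled on `E` on the topological group `G` for which multiplication and
inversion are smooth (both read in charts). -/
structure LieStructure (E : Type u) [AddCommGroup E] [Module ℝ E] [TopologicalSpace E]
    (G : Type v) [Group G] [TopologicalSpace G] where
  charts : Set (OpenPartialHomeomorph G E)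
  cover : ∀ g : G, ∃ e ∈ charts, g ∈ e.source
  transition : ∀ e₁ ∈ charts, ∀ e₂ ∈ charts,
    IsSmooth (fun x : E => e₂ (e₁.symm x)) {x | x ∈ e₁.target ∧ e₁.symm x ∈ e₂.source}
  mul_smooth : ∀ e₁ ∈ charts, ∀ e₂ ∈ charts, ∀ e₃ ∈ charts,
    IsSmooth (fun p : E × E => e₃ (e₁.symm p.1 * e₂.symm p.2))
      {p | p.1 ∈ e₁.target ∧ p.2 ∈ e₂.target ∧ e₁.symm p.1 * e₂.symm p.2 ∈ e₃.source}
  inv_smooth : ∀ e₁ ∈ charts, ∀ e₂ ∈ charts,
    IsSmooth (fun x : E => e₂ (e₁.symm x)⁻¹) {x | x ∈ e₁.target ∧ (e₁.symm x)⁻¹ ∈ e₂.source}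

/-- A map between groups with Lie group structures is smooth if it is continuous and smooth in
all charts. -/
def SmoothMap {E : Type u} {F : Type v} [AddCommGroup E] [Module ℝ E] [TopologicalSpace E]
    [AddCommGroup F] [Module ℝ F] [TopologicalSpace F]
    {H : Type w} {G : Type z} [Group H] [TopologicalSpace H] [Group G] [TopologicalSpace G]
    (LH : LieStructure E H) (LG : LieStructure F G) (f : H → G) : Prop :=
  Continuous f ∧ ∀ e ∈ LH.charts, ∀ e' ∈ LG.charts,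
    IsSmooth (fun x : E => e' (f (e.symm x))) {x | x ∈ e.target ∧ f (e.symm x) ∈ e'.source}

section Vel

variable {M : Type u} [AddCommGroup M] [Module ℝ M] [TopologicalSpace M]
  [IsTopologicalAddGroup M] [ContinuousSMul ℝ M] [LocallyConvexSpace ℝ M] [T2Space M]
  {K : Type v} [Group K] [TopologicalSpace K] [IsTopologicalGroup K]

/-- the curve `c` has velocity `v` at time `0` in the chart `e` -/
def HasVel (e : OpenPartialHomeomorph K M) (c : ℝ → K) (y : M) : Prop :=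
  Tendsto (fun s : ℝ => s⁻¹ • (e (c s) - e (c 0))) (𝓝[≠] 0) (𝓝 y)

theorem mulVel (L : LieStructure M K) {e₁ e₂ e₃ : OpenPartialHomeomorph K M}
    (h₁ : e₁ ∈ L.charts) (h₂ : e₂ ∈ L.charts) (h₃ : e₃ ∈ L.charts) {g₁ g₂ : K}
    (hg₁ : g₁ ∈ e₁.source) (hg₂ : g₂ ∈ e₂.source) (hg₃ : g₁ * g₂ ∈ e₃.source) :
    ∃ D : M × M → M, D 0 = 0 ∧ ∀ (c₁ c₂ : ℝ → K) (y₁ y₂ : M), c₁ 0 = g₁ → c₂ 0 = g₂ →
      Tendsto c₁ (𝓝[≠] 0) (𝓝 g₁) → Tendsto c₂ (𝓝[≠] 0) (𝓝 g₂) →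
      HasVel e₁ c₁ y₁ → HasVel e₂ c₂ y₂ → HasVel e₃ (fun s => c₁ s * c₂ s) (D (y₁, y₂)) := by
  obtain ⟨_, dm, hd, hc⟩ := L.mul_smooth e₁ h₁ e₂ h₂ e₃ h₃ 1
  set Ω : Set (M × M) :=
    {p | p.1 ∈ e₁.target ∧ p.2 ∈ e₂.target ∧ e₁.symm p.1 * e₂.symm p.2 ∈ e₃.source} with hΩ
  have hopen : IsOpen Ω := by
    have h4 : ContinuousOn (fun p : M × M => e₁.symm p.1 * e₂.symm p.2)
        (e₁.target ×ˢ e₂.target) := by
      refine ContinuousOn.mul ?_ ?_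
      · exact e₁.continuousOn_symm.comp continuousOn_fst (fun p hp => hp.1)
      · exact e₂.continuousOn_symm.comp continuousOn_snd (fun p hp => hp.2)
    have h5 := h4.isOpen_inter_preimage (e₁.open_target.prod e₂.open_target) e₃.open_source
    have h6 : Ω = (e₁.target ×ˢ e₂.target) ∩
        (fun p : M × M => e₁.symm p.1 * e₂.symm p.2) ⁻¹' e₃.source := by
      ext p
      simp only [hΩ, Set.mem_setOf_eq, Set.mem_inter_iff, Set.mem_prod, Set.mem_preimage]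
      tauto
    rw [h6]
    exact h5
  have hmem : (e₁ g₁, e₂ g₂) ∈ Ω := by
    refine ⟨e₁.map_source hg₁, e₂.map_source hg₂, ?_⟩
    simp only [e₁.left_inv hg₁, e₂.left_inv hg₂]
    exact hg₃
  refine ⟨fun q => dm ((e₁ g₁, e₂ g₂), q), (hd _ hmem (0 : M × M)).zero_dir, ?_⟩
  intro c₁ c₂ y₁ y₂ hc1 hc2 ht1 ht2 hv1 hv2
  have hb1 : Tendsto (fun s => e₁ (c₁ s)) (𝓝[≠] 0) (𝓝 (e₁ g₁)) :=
    (e₁.continuousAt hg₁).tendsto.comp ht1
  have hb2 : Tendsto (fun s => e₂ (c₂ s)) (𝓝[≠] 0) (𝓝 (e₂ g₂)) :=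
    (e₂.continuousAt hg₂).tendsto.comp ht2
  have hb : Tendsto (fun s => (e₁ (c₁ s), e₂ (c₂ s))) (𝓝[≠] 0) (𝓝 (e₁ g₁, e₂ g₂)) := by
    rw [nhds_prod_eq]
    exact hb1.prodMk hb2
  have hq : Tendsto (fun s : ℝ => s⁻¹ • ((e₁ (c₁ s), e₂ (c₂ s)) - (e₁ g₁, e₂ g₂)))
      (𝓝[≠] 0) (𝓝 (y₁, y₂)) := by
    rw [nhds_prod_eq]
    unfold HasVel at hv1 hv2
    rw [hc1] at hv1
    rw [hc2] at hv2
    exact hv1.prodMk hv2
  have h7 := strict_chain hopen hd hc hmem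
    (tendsto_const_nhds (x := (e₁ g₁, e₂ g₂))) hb (s := fun s : ℝ => s)
    self_mem_nhdsWithin hq
  unfold HasVel
  refine h7.congr' ?_
  filter_upwards [ht1.eventually (e₁.open_source.mem_nhds hg₁),
    ht2.eventually (e₂.open_source.mem_nhds hg₂)] with s hs1 hs2
  simp only [e₁.left_inv hs1, e₂.left_inv hs2, e₁.left_inv hg₁, e₂.left_inv hg₂, hc1, hc2]

theorem invVel (L : LieStructure M K) {e₁ e₂ : OpenPartialHomeomorph K M}
    (h₁ : e₁ ∈ L.charts) (h₂ : e₂ ∈ L.charts) {g₁ : K}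
    (hg₁ : g₁ ∈ e₁.source) (hg₂ : g₁⁻¹ ∈ e₂.source) :
    ∃ D : M → M, ∀ (c₁ : ℝ → K) (y₁ : M), c₁ 0 = g₁ →
      Tendsto c₁ (𝓝[≠] 0) (𝓝 g₁) →
      HasVel e₁ c₁ y₁ → HasVel e₂ (fun s => (c₁ s)⁻¹) (D y₁) := by
  obtain ⟨_, dm, hd, hc⟩ := L.inv_smooth e₁ h₁ e₂ h₂ 1
  set Ω : Set M := {x | x ∈ e₁.target ∧ (e₁.symm x)⁻¹ ∈ e₂.source} with hΩ
  have hopen : IsOpen Ω := by
    have h4 : ContinuousOn (fun p : M => (e₁.symm p)⁻¹) e₁.target := e₁.continuousOn_symm.inv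
    exact h4.isOpen_inter_preimage e₁.open_target e₂.open_source
  have hmem : e₁ g₁ ∈ Ω := by
    refine ⟨e₁.map_source hg₁, ?_⟩
    simp only [e₁.left_inv hg₁]
    exact hg₂
  refine ⟨fun q => dm (e₁ g₁, q), ?_⟩
  intro c₁ y₁ hc1 ht1 hv1
  have hb1 : Tendsto (fun s => e₁ (c₁ s)) (𝓝[≠] 0) (𝓝 (e₁ g₁)) :=
    (e₁.continuousAt hg₁).tendsto.comp ht1
  have hq : Tendsto (fun s : ℝ => s⁻¹ • (e₁ (c₁ s) - e₁ g₁)) (𝓝[≠] 0) (𝓝 y₁) := by
    unfold HasVel at hv1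
    rw [hc1] at hv1
    exact hv1
  have h7 := strict_chain hopen hd hc hmem
    (tendsto_const_nhds (x := e₁ g₁)) hb1 (s := fun s : ℝ => s)
    self_mem_nhdsWithin hq
  unfold HasVel
  refine h7.congr' ?_
  filter_upwards [ht1.eventually (e₁.open_source.mem_nhds hg₁)] with s hs1
  simp only [e₁.left_inv hs1, e₁.left_inv hg₁, hc1]

omit [IsTopologicalAddGroup M] [LocallyConvexSpace ℝ M] [T2Space M] in
theorem hasVel_const (e : OpenPartialHomeomorph K M) (g : K) : HasVel e (fun _ => g) 0 := by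
  unfold HasVel
  simp only [sub_self, smul_zero]
  exact tendsto_const_nhds

end Vel

end Pool.Agent.H865R3
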