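import Pool.Agent.H865R3.Epi1

set_option autoImplicit false

namespace Pool.Agent.H865R3

open Filter Topology

universe u v w z

/-- continuous linear maps are smooth -/
theorem lin_isCk {E : Type u} {F : Type v} [AddCommGroup F] [Module ℝ F] [TopologicalSpace F]
    [AddCommGroup E] [Module ℝ E] [TopologicalSpace E]
    (L : E →L[ℝ] F) (k : ℕ) (U : Set E) : IsCk F k E (fun x => L x) U := by
  induction k generalizing E with
  | zero => exact L.continuous.continuousOn
  | succ k ih =>
    refine ⟨L.continuous.continuousOn, fun p => L p.2, ?_,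
      ih (L.comp (ContinuousLinearMap.snd ℝ E E)) _⟩
    intro x _ v
    unfold HasDirDeriv
    have : ∀ᶠ t : ℝ in 𝓝[≠] 0, L v = t⁻¹ • (L (x + t • v) - L x) := by
      filter_upwards [self_mem_nhdsWithin] with t ht
      rw [map_add, map_smul, add_sub_cancel_left, smul_smul, inv_mul_cancel₀ ht, one_smul]
    exact tendsto_const_nhds.congr' this

/-- the identity chart of a topological vector space, seen as a multiplicative group -/
def vecHomeo (E : Type u) [AddCommGroup E] [TopologicalSpace E] : Multiplicative E ≃ₜ E where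
  toEquiv := Multiplicative.toAdd
  continuous_toFun := continuous_toAdd
  continuous_invFun := continuous_ofAdd

/-- the additive group of a topological vector space `E`, as a Lie group with one chart, the
identity -/
def vecLie (E : Type u) [AddCommGroup E] [Module ℝ E] [TopologicalSpace E]
    [IsTopologicalAddGroup E] [ContinuousSMul ℝ E] : LieStructure E (Multiplicative E) where
  charts := {(vecHomeo E).toOpenPartialHomeomorph}
  cover g := ⟨_, rfl, trivial⟩
  transition := by
    rintro e₁ rfl e₂ rfl k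
    exact lin_isCk (ContinuousLinearMap.id ℝ E) k _
  mul_smooth := by
    rintro e₁ rfl e₂ rfl e₃ rfl k
    exact lin_isCk (ContinuousLinearMap.fst ℝ E E + ContinuousLinearMap.snd ℝ E E) k _
  inv_smooth := by
    rintro e₁ rfl e₂ rfl k
    exact lin_isCk (-(ContinuousLinearMap.id ℝ E)) k _

section Hom

variable {M : Type u} [AddCommGroup M] [Module ℝ M] [TopologicalSpace M]
  [IsTopologicalAddGroup M] [ContinuousSMul ℝ M] [LocallyConvexSpace ℝ M] [T2Space M]
  {K : Type v} [Group K] [TopologicalSpace K] [IsTopologicalGroup K]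
  {H : Type w} [NormedAddCommGroup H] [NormedSpace ℝ H]

/-- the data of the derivative at `0` of a smooth homomorphism defined on a normed space -/
theorem hom_data (L : LieStructure M K) {e : OpenPartialHomeomorph K M} (he : e ∈ L.charts)
    (h1 : (1 : K) ∈ e.source) (φ : Multiplicative H →* K) (hφ : SmoothMap (vecLie H) L φ) :
    ∃ T : H →L[ℝ] M, (∀ x : H, HasVel e (fun s : ℝ => φ (Multiplicative.ofAdd (s • x))) (T x)) ∧
      ∀ l : M →L[ℝ] ℝ, ∃ δ > 0, ∀ x : H, ‖x‖ ≤ δ →
        |l (e (φ (Multiplicative.ofAdd x))) - l (e 1) - l (T x)| ≤ (‖x‖ / δ) ^ 2 := by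
  set F : H → M := fun x => e (φ (Multiplicative.ofAdd x)) with hF
  set U : Set H := {x | x ∈ (Set.univ : Set H) ∧ φ (Multiplicative.ofAdd x) ∈ e.source} with hU
  have hUo : IsOpen U := by
    have h2 : U = (fun x : H => φ (Multiplicative.ofAdd x)) ⁻¹' e.source := by
      ext x
      simp [hU]
    rw [h2]
    exact e.open_source.preimage (hφ.1.comp continuous_ofAdd)
  have hsm : IsSmooth F U := hφ.2 _ rfl e he
  obtain ⟨_, dF, hd, hc, ddF, hdd, hcc⟩ := hsm 2
  have h0 : (0 : H) ∈ U := by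
    refine ⟨trivial, ?_⟩
    rw [ofAdd_zero, map_one]
    exact h1
  have hF0 : F 0 = e 1 := by
    simp only [hF]
    rw [ofAdd_zero, map_one]
  refine ⟨{ toFun := fun x => dF (0, x), map_add' := ?_, map_smul' := ?_, cont := ?_ }, ?_, ?_⟩
  · intro x y
    exact dir_add hUo hd hc h0 x y
  · intro c x
    exact (hd 0 h0 (c • x)).unique ((hd 0 h0 x).smul c)
  · have h3 : ContinuousOn (fun x : H => dF (0, x)) Set.univ :=
      hc.comp (Continuous.prodMk continuous_const continuous_id).continuousOn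
        (fun x _ => ⟨h0, trivial⟩)
    exact continuousOn_univ.1 h3
  · intro x
    have h4 := hd 0 h0 x
    unfold HasDirDeriv at h4
    unfold HasVel
    refine h4.congr fun t => ?_
    simp only [hF, zero_add, zero_smul]
  · intro l
    obtain ⟨δ, hδ, h5⟩ := taylor_two hUo h0 hd hdd hcc l
    refine ⟨δ, hδ, fun x hx => ?_⟩
    have h6 := h5 x hx
    rw [hF0] at h6
    exact h6

/-- If two smooth homomorphisms from a normed space to a Lie group have the same derivative at
`0`, they agree. -/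
theorem hom_ext (L : LieStructure M K) {e : OpenPartialHomeomorph K M} (he : e ∈ L.charts)
    (h1 : (1 : K) ∈ e.source) (φ₁ φ₂ : Multiplicative H →* K) (hφ₁ : Continuous φ₁)
    (hφ₂ : Continuous φ₂) (T : H → M)
    (hT₁ : ∀ x : H, HasVel e (fun s : ℝ => φ₁ (Multiplicative.ofAdd (s • x))) (T x))
    (hT₂ : ∀ x : H, HasVel e (fun s : ℝ => φ₂ (Multiplicative.ofAdd (s • x))) (T x)) :
    φ₁ = φ₂ := by
  -- the curve of quotients
  have key : ∀ x : H, ∃ η > 0, ∀ t : ℝ, |t| < η →
      φ₁ (Multiplicative.ofAdd (t • x)) = φ₂ (Multiplicative.ofAdd (t • x)) := by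
    intro x
    set c₁ : ℝ → K := fun s => φ₁ (Multiplicative.ofAdd (s • x)) with hc₁
    set c₂ : ℝ → K := fun s => φ₂ (Multiplicative.ofAdd (s • x)) with hc₂
    have hcont₁ : Continuous c₁ := by
      have : Continuous (fun s : ℝ => s • x) := by fun_prop
      exact hφ₁.comp (continuous_ofAdd.comp this)
    have hcont₂ : Continuous c₂ := by
      have : Continuous (fun s : ℝ => s • x) := by fun_prop
      exact hφ₂.comp (continuous_ofAdd.comp this)
    have h10 : c₁ 0 = 1 := by simp only [hc₁, zero_smul]; rw [ofAdd_zero, map_one]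
    have h20 : c₂ 0 = 1 := by simp only [hc₂, zero_smul]; rw [ofAdd_zero, map_one]
    have hadd₁ : ∀ s t, c₁ (s + t) = c₁ s * c₁ t := by
      intro s t
      simp only [hc₁, add_smul]
      rw [ofAdd_add, map_mul]
    have hadd₂ : ∀ s t, c₂ (s + t) = c₂ s * c₂ t := by
      intro s t
      simp only [hc₂, add_smul]
      rw [ofAdd_add, map_mul]
    have ht₁ : Tendsto c₁ (𝓝[≠] 0) (𝓝 1) := by
      have := hcont₁.tendsto 0
      rw [h10] at this
      exact this.mono_left nhdsWithin_le_nhds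
    have ht₂ : Tendsto c₂ (𝓝[≠] 0) (𝓝 1) := by
      have := hcont₂.tendsto 0
      rw [h20] at this
      exact this.mono_left nhdsWithin_le_nhds
    have h1' : (1 : K)⁻¹ ∈ e.source := by rw [inv_one]; exact h1
    have h11 : (1 : K) * 1⁻¹ ∈ e.source := by rw [inv_one, mul_one]; exact h1
    obtain ⟨D, hD⟩ := invVel L he he h1 h1'
    obtain ⟨D', _, hD'⟩ := mulVel L he he he h1 h1' h11
    have hv₁ := hD c₁ (T x) h10 ht₁ (hT₁ x)
    have hv₂ := hD c₂ (T x) h20 ht₂ (hT₂ x)
    have hw₁ := hD' c₁ (fun s => (c₁ s)⁻¹) (T x) (D (T x)) h10 (by simp only [h10]) ht₁ ht₁.inv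
      (hT₁ x) hv₁
    have hw₂ := hD' c₁ (fun s => (c₂ s)⁻¹) (T x) (D (T x)) h10 (by simp only [h20]) ht₁ ht₂.inv
      (hT₁ x) hv₂
    have hzero : D' (T x, D (T x)) = 0 := by
      have h3 : (fun s => c₁ s * (c₁ s)⁻¹) = fun _ => (1 : K) := by
        funext s
        exact mul_inv_cancel _
      simp only [h3] at hw₁
      exact tendsto_nhds_unique hw₁ (hasVel_const e (1 : K))
    rw [hzero] at hw₂
    set k : ℝ → K := fun s => c₁ s * (c₂ s)⁻¹ with hk
    have hk0 : k 0 = 1 := by simp only [hk, h10, h20]; simp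
    have hkcont : Continuous k := hcont₁.mul hcont₂.inv
    have hkt : Tendsto k (𝓝[≠] 0) (𝓝 1) := by
      have := hkcont.tendsto 0
      rw [hk0] at this
      exact this.mono_left nhdsWithin_le_nhds
    -- the velocity of the quotient curve vanishes everywhere
    have hvel : ∀ t : ℝ, k t ∈ e.source →
        Tendsto (fun s : ℝ => s⁻¹ • (e (k (t + s)) - e (k t))) (𝓝[≠] 0) (𝓝 0) := by
      intro t ht
      set a := c₁ t with ha
      set b := (c₂ t)⁻¹ with hb
      have hkk : ∀ s, k (t + s) = a * k s * b := by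
        intro s
        simp only [hk, ha, hb]
        rw [hadd₁, hadd₂, mul_inv_rev]
        simp only [mul_assoc]
      have habs : a * 1 * b = k t := by
        rw [mul_one]
      obtain ⟨ea, hea, haea⟩ := L.cover a
      obtain ⟨eb, heb, hbeb⟩ := L.cover b
      have haea' : a * 1 ∈ ea.source := by rw [mul_one]; exact haea
      obtain ⟨D1, hD10, hD1⟩ := mulVel L hea he hea haea h1 haea'
      obtain ⟨D2, hD20, hD2⟩ := mulVel L hea heb he haea' hbeb (by rw [habs]; exact ht)
      have h5 := hD1 (fun _ => a) k 0 0 rfl hk0 tendsto_const_nhds hkt (hasVel_const ea a) hw₂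
      have h5' : D1 (0, 0) = 0 := hD10
      rw [h5'] at h5
      have h6 := hD2 (fun s => a * k s) (fun _ => b) 0 0 (by simp only [hk0]) rfl
        (tendsto_const_nhds.mul hkt) tendsto_const_nhds h5 (hasVel_const eb b)
      have h6' : D2 (0, 0) = 0 := hD20
      rw [h6'] at h6
      unfold HasVel at h6
      refine h6.congr fun s => ?_
      simp only [hkk]
      rw [← habs, hk0]
    -- so the curve is constant near `0`
    have hopen : IsOpen (k ⁻¹' e.source) := e.open_source.preimage hkcont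
    have h0m : (0 : ℝ) ∈ k ⁻¹' e.source := by
      change k 0 ∈ e.source
      rw [hk0]; exact h1
    obtain ⟨η, hη, hball⟩ := Metric.isOpen_iff.1 hopen 0 h0m
    refine ⟨η, hη, fun t ht => ?_⟩
    have htb : t ∈ Metric.ball (0 : ℝ) η := by
      rw [mem_ball_zero_iff, Real.norm_eq_abs]; exact ht
    have hkt1 : e (k t) = e 1 := by
      by_contra hne
      obtain ⟨f, hf⟩ := geometric_hahn_banach_point_point hne
      have hder : ∀ r ∈ Metric.ball (0 : ℝ) η, HasDerivAt (fun r => f (e (k r))) 0 r := by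
        intro r hr
        rw [hasDerivAt_iff_tendsto_slope_zero]
        have h7 := (f.continuous.tendsto 0).comp (hvel r (hball hr))
        rw [map_zero] at h7
        refine h7.congr fun s => ?_
        simp only [Function.comp, map_smul, map_sub]
      have hconst := Metric.isOpen_ball.is_const_of_deriv_eq_zero
        (convex_ball (0 : ℝ) η).isPreconnected
        (fun r hr => (hder r hr).differentiableAt.differentiableWithinAt)
        (fun r hr => (hder r hr).deriv) htb (Metric.mem_ball_self hη)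
      simp only [hk0] at hconst
      exact absurd hconst hf.ne
    have hk1 : k t = 1 := e.injOn (hball htb) h1 hkt1
    simp only [hk] at hk1
    exact mul_inv_eq_one.1 hk1
  apply MonoidHom.ext
  intro y
  obtain ⟨x, rfl⟩ := Multiplicative.ofAdd.surjective y
  obtain ⟨η, hη, h2⟩ := key x
  obtain ⟨n, hn⟩ := exists_nat_gt η⁻¹
  have hnpos : (0 : ℝ) < n := lt_trans (inv_pos.2 hη) hn
  have hlt : |(n : ℝ)⁻¹| < η := by
    rw [abs_of_pos (inv_pos.2 hnpos)]
    exact inv_lt_of_inv_lt₀ hη hn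
  have h3 := h2 _ hlt
  have h4 : Multiplicative.ofAdd x = (Multiplicative.ofAdd ((n : ℝ)⁻¹ • x)) ^ n := by
    rw [← ofAdd_nsmul]
    congr 1
    rw [← Nat.cast_smul_eq_nsmul ℝ, smul_smul, mul_inv_cancel₀ hnpos.ne', one_smul]
  rw [h4, map_pow, map_pow, h3]

/-- The key: agreement on a set `Γ` such that enough vectors are sums of small elements of `Γ`. -/
theorem agree (L : LieStructure M K) (φ₁ φ₂ : Multiplicative H →* K)
    (hφ₁ : SmoothMap (vecLie H) L φ₁) (hφ₂ : SmoothMap (vecLie H) L φ₂)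
    (Γ S : Set H) (hS : Dense (Submodule.span ℝ S : Set H))
    (hΓ : ∀ x ∈ S, ∃ C : ℝ, ∀ ε > 0, ∃ (n : ℕ) (y : Fin n → H), (∀ i, y i ∈ Γ) ∧
      (∀ i, ‖y i‖ ≤ ε) ∧ ∑ i, ‖y i‖ ≤ C ∧ ∑ i, y i = x)
    (hag : ∀ y ∈ Γ, φ₁ (Multiplicative.ofAdd y) = φ₂ (Multiplicative.ofAdd y)) : φ₁ = φ₂ := by
  obtain ⟨e, he, h1⟩ := L.cover 1
  obtain ⟨T₁, hT₁, ht₁⟩ := hom_data L he h1 φ₁ hφ₁
  obtain ⟨T₂, hT₂, ht₂⟩ := hom_data L he h1 φ₂ hφ₂
  have hTT : T₁ = T₂ := by
    refine ContinuousLinearMap.ext_on hS ?_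
    intro x hx
    by_contra hne
    obtain ⟨f, hf⟩ := geometric_hahn_banach_point_point hne
    obtain ⟨δ₁, hδ₁, hb₁⟩ := ht₁ f
    obtain ⟨δ₂, hδ₂, hb₂⟩ := ht₂ f
    obtain ⟨C, hC⟩ := hΓ x hx
    set gap := f (T₂ x) - f (T₁ x) with hgap
    have hgpos : 0 < gap := sub_pos.2 hf
    have hC0 : 0 ≤ C := by
      obtain ⟨n, y, _, _, h3, _⟩ := hC 1 one_pos
      exact le_trans (Finset.sum_nonneg fun i _ => norm_nonneg _) h3
    set A := (1 / δ₁ ^ 2 + 1 / δ₂ ^ 2) with hA
    have hApos : 0 < A := by positivity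
    set ε := min (min δ₁ δ₂) (gap / (2 * (C + 1) * A)) with hε
    have hεpos : 0 < ε := by
      rw [hε]
      refine lt_min (lt_min hδ₁ hδ₂) (by positivity)
    obtain ⟨n, y, hy1, hy2, hy3, hy4⟩ := hC ε hεpos
    have hterm : ∀ i, |f (T₂ (y i)) - f (T₁ (y i))| ≤ A * ε * ‖y i‖ := by
      intro i
      have hy2' := hy2 i
      have hle1 : ‖y i‖ ≤ δ₁ := (hy2 i).trans ((min_le_left _ _).trans (min_le_left _ _))
      have hle2 : ‖y i‖ ≤ δ₂ := (hy2 i).trans ((min_le_left _ _).trans (min_le_right _ _))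
      have h3 := hb₁ (y i) hle1
      have h4 := hb₂ (y i) hle2
      rw [hag _ (hy1 i)] at h3
      have h5 : |f (T₂ (y i)) - f (T₁ (y i))| ≤ (‖y i‖ / δ₁) ^ 2 + (‖y i‖ / δ₂) ^ 2 := by
        have h6 : f (T₂ (y i)) - f (T₁ (y i)) =
            (f (e (φ₂ (Multiplicative.ofAdd (y i)))) - f (e 1) - f (T₁ (y i))) -
            (f (e (φ₂ (Multiplicative.ofAdd (y i)))) - f (e 1) - f (T₂ (y i))) := by ring
        rw [h6]
        exact (abs_sub _ _).trans (add_le_add h3 h4)
      refine h5.trans ?_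
      have h7 : (‖y i‖ / δ₁) ^ 2 + (‖y i‖ / δ₂) ^ 2 = A * (‖y i‖ * ‖y i‖) := by
        rw [hA]; ring
      rw [h7, mul_assoc]
      refine mul_le_mul_of_nonneg_left ?_ hApos.le
      exact mul_le_mul_of_nonneg_right hy2' (norm_nonneg _)
    have hsum : gap = ∑ i, (f (T₂ (y i)) - f (T₁ (y i))) := by
      rw [Finset.sum_sub_distrib, ← map_sum, ← map_sum, ← map_sum, ← map_sum, hy4]
    have hbound : gap ≤ A * ε * C := by
      calc gap ≤ ∑ i, |f (T₂ (y i)) - f (T₁ (y i))| := by
            rw [hsum]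
            exact Finset.sum_le_sum fun i _ => le_abs_self _
        _ ≤ ∑ i, A * ε * ‖y i‖ := Finset.sum_le_sum fun i _ => hterm i
        _ = A * ε * ∑ i, ‖y i‖ := by rw [Finset.mul_sum]
        _ ≤ A * ε * C := by gcongr
    have h8 : ε ≤ gap / (2 * (C + 1) * A) := min_le_right _ _
    have h9 : A * ε * C ≤ A * (gap / (2 * (C + 1) * A)) * (C + 1) := by
      gcongr
      linarith
    have h10 : A * (gap / (2 * (C + 1) * A)) * (C + 1) = gap / 2 := by
      field_simp
    linarith
  subst hTT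
  exact hom_ext L he h1 φ₁ φ₂ hφ₁.1 hφ₂.1 T₁ hT₁ hT₂

end Hom

end Pool.Agent.H865R3
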