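import Pool.Agent.H865R3.Epi2

set_option autoImplicit false

namespace Pool.Agent.H865R3

open Filter Topology MeasureTheory

universe u v w z

/-- every map from a trivial vector space is smooth -/
theorem subsingleton_isCk {E : Type u} {F : Type v} [AddCommGroup F] [Module ℝ F]
    [TopologicalSpace F] [AddCommGroup E] [Module ℝ E] [TopologicalSpace E] [Subsingleton E]
    (f : E → F) (k : ℕ) (U : Set E) : IsCk F k E f U := by
  have hcont : Continuous f := by
    have : f = fun _ => f 0 := by
      funext x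
      rw [Subsingleton.elim x 0]
    rw [this]
    exact continuous_const
  cases k with
  | zero => exact hcont.continuousOn
  | succ k =>
    refine ⟨hcont.continuousOn, fun _ => 0, ?_, lin_isCk (0 : E × E →L[ℝ] F) k _⟩
    intro x _ v
    unfold HasDirDeriv
    have : (fun t : ℝ => t⁻¹ • (f (x + t • v) - f x)) = fun _ => 0 := by
      funext t
      rw [Subsingleton.elim (x + t • v) x, sub_self, smul_zero]
    rw [this]
    exact tendsto_const_nhds

/-- the chart of a discrete group at the point `g` -/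
def discChart (G : Type v) [TopologicalSpace G] [DiscreteTopology G] (g : G) :
    OpenPartialHomeomorph G PUnit.{u + 1} where
  toFun _ := PUnit.unit
  invFun _ := g
  source := {g}
  target := Set.univ
  map_source' _ _ := trivial
  map_target' _ _ := rfl
  left_inv' x hx := by
    rw [Set.mem_singleton_iff] at hx
    exact hx.symm
  right_inv' _ _ := rfl
  open_source := isOpen_discrete _
  open_target := isOpen_univ
  continuousOn_toFun := continuousOn_const
  continuousOn_invFun := continuousOn_const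

/-- a discrete group as a zero-dimensional Lie group -/
def discLie (G : Type v) [Group G] [TopologicalSpace G] [DiscreteTopology G] :
    LieStructure PUnit.{u + 1} G where
  charts := Set.range (discChart G)
  cover g := ⟨discChart G g, ⟨g, rfl⟩, rfl⟩
  transition := by
    intro e₁ _ e₂ _ k
    exact subsingleton_isCk _ k _
  mul_smooth := by
    intro e₁ _ e₂ _ e₃ _ k
    exact subsingleton_isCk _ k _
  inv_smooth := by
    intro e₁ _ e₂ _ k
    exact subsingleton_isCk _ k _

section Example

/-- the indicator function of the interval `[a, b)` in `L^1` of the real line -/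
noncomputable def ind (a b : ℝ) : Lp ℝ 1 (volume : Measure ℝ) :=
  indicatorConstLp 1 (measurableSet_Ico : MeasurableSet (Set.Ico a b))
    (by rw [Real.volume_Ico]; exact ENNReal.ofReal_ne_top) (1 : ℝ)

theorem ind_coe (a b : ℝ) :
    (ind a b : ℝ → ℝ) =ᵐ[volume] (Set.Ico a b).indicator fun _ => (1 : ℝ) :=
  indicatorConstLp_coeFn

theorem ind_norm {a b : ℝ} (h : a ≤ b) : ‖ind a b‖ = b - a := by
  unfold ind
  rw [norm_indicatorConstLp one_ne_zero ENNReal.one_ne_top]
  simp only [norm_one, one_mul, ENNReal.toReal_one, div_one, Real.rpow_one]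
  rw [measureReal_def, Real.volume_Ico, ENNReal.toReal_ofReal (by linarith)]

theorem ind_empty {a b : ℝ} (h : b ≤ a) : ind a b = 0 := by
  apply Lp.ext
  filter_upwards [ind_coe a b, Lp.coeFn_zero ℝ 1 (volume : Measure ℝ)] with x h1 h2
  rw [h1, h2, Set.Ico_eq_empty (not_lt.2 h), Set.indicator_empty]
  rfl

theorem ind_add {a b c : ℝ} (h1 : a ≤ b) (h2 : b ≤ c) : ind a b + ind b c = ind a c := by
  apply Lp.ext
  filter_upwards [ind_coe a b, ind_coe b c, ind_coe a c,
    Lp.coeFn_add (ind a b) (ind b c)] with x h3 h4 h5 h6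
  rw [h6, Pi.add_apply, h3, h4, h5, ← Set.Ico_union_Ico_eq_Ico h1 h2]
  rw [Set.indicator_union_of_disjoint]
  rw [Set.Ico_disjoint_Ico]
  exact (min_le_left b c).trans (le_max_right a b)

/-- the Banach space of the example: the closed linear span in `L^1` of the real line of the
indicator functions of the intervals with rational end points -/
noncomputable def ModelSub : Submodule ℝ (Lp ℝ 1 (volume : Measure ℝ)) :=
  (Submodule.span ℝ (Set.range fun p : ℚ × ℚ => ind p.1 p.2)).topologicalClosure

/-- the Banach space of the example as a type -/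
abbrev Model : Type := ModelSub

instance : CompleteSpace Model :=
  (Submodule.isClosed_topologicalClosure _).completeSpace_coe

/-- the indicator functions as elements of the Banach space -/
noncomputable def indH (p : ℚ × ℚ) : Model :=
  ⟨ind p.1 p.2, Submodule.le_topologicalClosure _ (Submodule.subset_span ⟨p, rfl⟩)⟩

theorem dense_span : Dense (Submodule.span ℝ (Set.range indH) : Set Model) := by
  intro x
  rw [closure_subtype]
  have h1 : (x : Lp ℝ 1 (volume : Measure ℝ)) ∈
      closure (Submodule.span ℝ (Set.range fun p : ℚ × ℚ => ind p.1 p.2) :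
        Set (Lp ℝ 1 (volume : Measure ℝ))) := x.2
  refine closure_mono ?_ h1
  intro y hy
  have h2 : (Submodule.span ℝ (Set.range indH)).map ModelSub.subtype =
      Submodule.span ℝ (Set.range fun p : ℚ × ℚ => ind p.1 p.2) := by
    rw [Submodule.map_span, ← Set.range_comp]
    rfl
  have h3 : y ∈ (Submodule.span ℝ (Set.range indH)).map ModelSub.subtype := by
    rw [h2]; exact hy
  obtain ⟨z, hz, rfl⟩ := h3
  exact ⟨z, hz, rfl⟩

/-- the countable discrete group of the example -/
def Dgrp : Type := Multiplicative ((ℚ × ℚ) →₀ ℤ)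

noncomputable instance : CommGroup Dgrp :=
  inferInstanceAs (CommGroup (Multiplicative ((ℚ × ℚ) →₀ ℤ)))

instance : TopologicalSpace Dgrp := ⊥

instance : DiscreteTopology Dgrp := ⟨rfl⟩

instance : Countable Dgrp := inferInstanceAs (Countable ((ℚ × ℚ) →₀ ℤ))

/-- the additive form of the homomorphism of the example -/
noncomputable def fAdd : ((ℚ × ℚ) →₀ ℤ) →+ Model :=
  (Finsupp.linearCombination ℤ indH).toAddMonoidHom

/-- the homomorphism of the example -/
noncomputable def fHom : Dgrp →* Multiplicative Model := AddMonoidHom.toMultiplicative fAdd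

theorem fHom_apply (g : (ℚ × ℚ) →₀ ℤ) :
    fHom (Multiplicative.ofAdd g) = Multiplicative.ofAdd (fAdd g) := rfl

theorem fAdd_single (p : ℚ × ℚ) : fAdd (Finsupp.single p 1) = indH p := by
  simp [fAdd]

/-- the values are integers -/
theorem fAdd_int (g : (ℚ × ℚ) →₀ ℤ) :
    ∀ᵐ x : ℝ, ∃ k : ℤ, ((fAdd g : Model) : Lp ℝ 1 (volume : Measure ℝ)) x = k := by
  induction g using Finsupp.induction_linear with
  | zero =>
    rw [map_zero]
    filter_upwards [Lp.coeFn_zero ℝ 1 (volume : Measure ℝ)] with x hx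
    exact ⟨0, by rw [Submodule.coe_zero, hx]; simp⟩
  | add f g hf hg =>
    rw [map_add]
    filter_upwards [hf, hg, Lp.coeFn_add ((fAdd f : Model) : Lp ℝ 1 (volume : Measure ℝ))
      ((fAdd g : Model) : Lp ℝ 1 (volume : Measure ℝ))] with x h1 h2 h3
    obtain ⟨k, hk⟩ := h1
    obtain ⟨m, hm⟩ := h2
    refine ⟨k + m, ?_⟩
    rw [Submodule.coe_add, h3, Pi.add_apply, hk, hm]
    push_cast
    rfl
  | single p m =>
    have h1 : fAdd (Finsupp.single p m) = (m : ℝ) • indH p := by
      simp only [fAdd, LinearMap.toAddMonoidHom_coe, Finsupp.linearCombination_single]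
      exact (Int.cast_smul_eq_zsmul ℝ m (indH p)).symm
    rw [h1]
    filter_upwards [Lp.coeFn_smul (m : ℝ) (ind p.1 p.2), ind_coe p.1 p.2] with x h2 h3
    have h4 : (((m : ℝ) • indH p : Model) : Lp ℝ 1 (volume : Measure ℝ)) =
        (m : ℝ) • ind p.1 p.2 := rfl
    rw [h4, h2, Pi.smul_apply, h3]
    by_cases hx : x ∈ Set.Ico (p.1 : ℝ) p.2
    · exact ⟨m, by rw [Set.indicator_of_mem hx]; simp⟩
    · exact ⟨0, by rw [Set.indicator_of_notMem hx]; simp⟩

/-- half an indicator function is far from all integer valued functions -/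
theorem far (y : Lp ℝ 1 (volume : Measure ℝ)) (hy : ∀ᵐ x : ℝ, ∃ k : ℤ, y x = k) :
    1 / 2 ≤ ‖(1 / 2 : ℝ) • ind 0 1 - y‖ := by
  rw [L1.norm_eq_integral_norm]
  have hint : Integrable (fun x => ‖((1 / 2 : ℝ) • ind 0 1 - y : Lp ℝ 1 (volume : Measure ℝ)) x‖)
      volume := (L1.integrable_coeFn _).norm
  have h1 : ∫ x in Set.Ico (0 : ℝ) 1, (1 / 2 : ℝ) = 1 / 2 := by
    rw [setIntegral_const, measureReal_def, Real.volume_Ico]
    simp
  calc (1 / 2 : ℝ) = ∫ x in Set.Ico (0 : ℝ) 1, (1 / 2 : ℝ) := h1.symm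
    _ ≤ ∫ x in Set.Ico (0 : ℝ) 1,
        ‖((1 / 2 : ℝ) • ind 0 1 - y : Lp ℝ 1 (volume : Measure ℝ)) x‖ := by
      refine setIntegral_mono_on_ae ?_ hint.integrableOn measurableSet_Ico ?_
      · rw [integrableOn_const_iff]
        right
        rw [Real.volume_Ico]
        exact ENNReal.ofReal_lt_top
      · filter_upwards [hy, Lp.coeFn_sub ((1 / 2 : ℝ) • ind 0 1) y,
          Lp.coeFn_smul (1 / 2 : ℝ) (ind 0 1), ind_coe 0 1] with x h2 h3 h4 h5 h6
        obtain ⟨k, hk⟩ := h2
        rw [h3, Pi.sub_apply, h4, Pi.smul_apply, h5, Set.indicator_of_mem h6, hk]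
        simp only [smul_eq_mul, mul_one, Real.norm_eq_abs]
        rcases le_or_gt k 0 with hk0 | hk0
        · have : (k : ℝ) ≤ 0 := by exact_mod_cast hk0
          rw [abs_of_nonneg (by linarith)]
          linarith
        · have : (1 : ℝ) ≤ k := by exact_mod_cast hk0
          rw [abs_of_nonpos (by linarith)]
          linarith
    _ ≤ ∫ x, ‖((1 / 2 : ℝ) • ind 0 1 - y : Lp ℝ 1 (volume : Measure ℝ)) x‖ :=
      setIntegral_le_integral hint (ae_of_all _ fun x => norm_nonneg _)

theorem not_dense : ¬ DenseRange fHom := by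
  intro h
  have h1 := h (Multiplicative.ofAdd ((1 / 2 : ℝ) • indH (0, 1)))
  have h2 : Continuous (fun y : Multiplicative Model =>
      ‖(1 / 2 : ℝ) • indH (0, 1) - Multiplicative.toAdd y‖) :=
    (continuous_const.sub continuous_toAdd).norm
  have h3 : IsOpen {y : Multiplicative Model |
      ‖(1 / 2 : ℝ) • indH (0, 1) - Multiplicative.toAdd y‖ < 1 / 2} :=
    isOpen_lt h2 continuous_const
  obtain ⟨y, hy1, g, rfl⟩ := mem_closure_iff.1 h1 _ h3 (by
    change ‖(1 / 2 : ℝ) • indH (0, 1) - (1 / 2 : ℝ) • indH (0, 1)‖ < 1 / 2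
    rw [sub_self, norm_zero]
    norm_num)
  let g0 : (ℚ × ℚ) →₀ ℤ := Multiplicative.toAdd (show Multiplicative ((ℚ × ℚ) →₀ ℤ) from g)
  have h4 := far _ (fAdd_int g0)
  have hy2 : ‖(1 / 2 : ℝ) • indH (0, 1) - fAdd g0‖ < 1 / 2 := hy1
  have h6 : (((1 / 2 : ℝ) • indH (0, 1) - fAdd g0 : Model) : Lp ℝ 1 (volume : Measure ℝ)) =
      (1 / 2 : ℝ) • ind 0 1 - ((fAdd g0 : Model) : Lp ℝ 1 (volume : Measure ℝ)) := by
    simp [indH]
  rw [← h6] at h4
  exact absurd hy2 (not_lt.2 h4)

/-- subdivision of an interval -/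
theorem subdivide (p : ℚ × ℚ) : ∃ C : ℝ, ∀ ε > 0, ∃ (n : ℕ) (y : Fin n → Model),
    (∀ i, y i ∈ Set.range fAdd) ∧ (∀ i, ‖y i‖ ≤ ε) ∧ ∑ i, ‖y i‖ ≤ C ∧ ∑ i, y i = indH p := by
  obtain ⟨a, b⟩ := p
  rcases le_or_gt b a with hab | hab
  · refine ⟨0, fun ε hε => ⟨0, fun i => i.elim0, fun i => i.elim0, fun i => i.elim0, ?_, ?_⟩⟩
    · simp
    · apply Subtype.ext
      change _ = ind (a : ℝ) b
      rw [ind_empty (by exact_mod_cast hab)]
      simp
  · refine ⟨(b : ℝ) - a, fun ε hε => ?_⟩
    obtain ⟨n, hn⟩ := exists_nat_gt (((b : ℝ) - a) / ε)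
    have hpos : (0 : ℝ) < (b : ℝ) - a := by
      have : (a : ℝ) < b := by exact_mod_cast hab
      linarith
    have hn0 : (0 : ℝ) < n := lt_trans (by positivity) hn
    have hnq : (0 : ℚ) < n := by exact_mod_cast hn0
    set q : ℕ → ℚ := fun i => a + (b - a) * i / n with hq
    have hqstep : ∀ i, q (i + 1) - q i = (b - a) / n := by
      intro i
      simp only [hq]
      push_cast
      ring
    have hqmono : ∀ i, q i ≤ q (i + 1) := by
      intro i
      have h1 := hqstep i
      have h2 : 0 < (b - a) / (n : ℚ) := div_pos (sub_pos.2 hab) hnq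
      linarith
    have hq0 : q 0 = a := by simp [hq]
    have hqn : q n = b := by
      simp only [hq]
      field_simp
      ring
    have hnorm : ∀ i : ℕ, ‖indH (q i, q (i + 1))‖ = ((b : ℝ) - a) / n := by
      intro i
      rw [Submodule.coe_norm]
      change ‖ind (q i : ℝ) (q (i + 1) : ℝ)‖ = _
      rw [ind_norm (by exact_mod_cast hqmono i)]
      have h1 := hqstep i
      have h2 : ((q (i + 1) - q i : ℚ) : ℝ) = (((b - a) / n : ℚ) : ℝ) := by rw [h1]
      push_cast at h2
      exact h2
    refine ⟨n, fun i => indH (q i, q (i + 1)), ?_, ?_, ?_, ?_⟩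
    · intro i
      exact ⟨_, fAdd_single _⟩
    · intro i
      change ‖indH (q i, q (i + 1))‖ ≤ ε
      rw [hnorm]
      rw [div_lt_iff₀ hε] at hn
      rw [div_le_iff₀ hn0]
      linarith
    · rw [Finset.sum_congr rfl (fun (i : Fin n) _ => hnorm (i : ℕ))]
      rw [Finset.sum_const, Finset.card_univ, Fintype.card_fin, nsmul_eq_mul]
      rw [mul_div_cancel₀ _ hn0.ne']
    · have h1 : ∀ m : ℕ, ∑ i ∈ Finset.range m, ind (q i) (q (i + 1)) = ind (q 0) (q m) := by
        intro m
        induction m with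
        | zero => rw [Finset.sum_range_zero, ind_empty (le_refl _)]
        | succ m ih =>
          rw [Finset.sum_range_succ, ih]
          have hmono : Monotone q := monotone_nat_of_le_succ hqmono
          exact ind_add (by exact_mod_cast hmono (Nat.zero_le m)) (by exact_mod_cast hqmono m)
      apply Subtype.ext
      rw [Submodule.coe_sum]
      have h2 := h1 n
      rw [hq0, hqn, ← Fin.sum_univ_eq_sum_range (fun i => ind (q i) (q (i + 1))) n] at h2
      exact h2

end Example

end Pool.Agent.H865R3
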