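import Mathlib

set_option autoImplicit false

/-!
Non-epimorphisms into topological groups with enough quasi-invariant length functions.
-/

namespace Pool.Agent.H865R3.Mu

open Filter Topology

universe u v

/-- a directed family of continuous length functions, locally quasi-invariant under
conjugation -/
structure LengthFamily (H : Type u) [Group H] [TopologicalSpace H] (I : Type v)
    (ν : I → H → ℝ) : Prop where
  one : ∀ i, ν i 1 = 0
  inv : ∀ i g, ν i g⁻¹ = ν i g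
  mul : ∀ i g h, ν i (g * h) ≤ ν i g + ν i h
  cont : ∀ i (ε : ℝ), 0 < ε → ∀ᶠ g in 𝓝 (1 : H), ν i g < ε
  conj : ∀ i (h₀ : H), ∃ j, ∀ᶠ h in 𝓝 h₀, ∀ g, ν i (h * g * h⁻¹) ≤ ν j g
  dir : ∀ i j, ∃ k, ∀ g, ν i g ≤ ν k g ∧ ν j g ≤ ν k g
  ne : Nonempty I

section
variable {H : Type u} [Group H]

/-- the abstract semidirect product of the free real vector space on `H` by `H` -/
@[ext] structure K0 (H : Type u) where
  a : H →₀ ℝ
  h : H

/-- left translation of finitely supported functions -/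
noncomputable def tr (h : H) : (H →₀ ℝ) →+ (H →₀ ℝ) :=
  Finsupp.mapDomain.addMonoidHom (fun x => h * x)

theorem tr_one (a : H →₀ ℝ) : tr (1 : H) a = a := by
  unfold tr
  simp only [Finsupp.mapDomain.addMonoidHom_apply, one_mul]
  exact Finsupp.mapDomain_id

theorem tr_mul (g h : H) (a : H →₀ ℝ) : tr (g * h) a = tr g (tr h a) := by
  unfold tr
  simp only [Finsupp.mapDomain.addMonoidHom_apply]
  rw [← Finsupp.mapDomain_comp]
  congr 1
  funext x
  simp [mul_assoc]

theorem tr_single (g x : H) (r : ℝ) : tr g (Finsupp.single x r) = Finsupp.single (g * x) r := by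
  unfold tr
  simp [Finsupp.mapDomain_single]

noncomputable instance : Mul (K0 H) := ⟨fun x y => ⟨x.a + tr x.h y.a, x.h * y.h⟩⟩
noncomputable instance : One (K0 H) := ⟨⟨0, 1⟩⟩
noncomputable instance : Inv (K0 H) := ⟨fun x => ⟨- tr x.h⁻¹ x.a, x.h⁻¹⟩⟩

theorem mul_a (x y : K0 H) : (x * y).a = x.a + tr x.h y.a := rfl
theorem mul_h (x y : K0 H) : (x * y).h = x.h * y.h := rfl
theorem one_a : (1 : K0 H).a = 0 := rfl
theorem one_h : (1 : K0 H).h = 1 := rfl
theorem inv_a (x : K0 H) : (x⁻¹).a = - tr x.h⁻¹ x.a := rfl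
theorem inv_h (x : K0 H) : (x⁻¹).h = x.h⁻¹ := rfl

noncomputable instance : Group (K0 H) :=
  Group.ofLeftAxioms
    (fun x y z => by
      ext1
      · simp only [mul_a, mul_h, map_add, tr_mul, add_assoc]
      · simp only [mul_h, mul_assoc])
    (fun x => by
      ext1
      · simp only [mul_a, one_a, one_h, tr_one, zero_add]
      · simp only [mul_h, one_h, one_mul])
    (fun x => by
      ext1
      · simp only [mul_a, inv_a, inv_h, one_a, neg_add_cancel]
      · simp only [mul_h, inv_h, one_h, inv_mul_cancel])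

/-- pairing -/
noncomputable def pair (b : H → ℝ) : (H →₀ ℝ) →ₗ[ℝ] ℝ := Finsupp.linearCombination ℝ b

theorem pair_tr (b : H → ℝ) (h : H) (a : H →₀ ℝ) :
    pair b (tr h a) = pair (fun x => b (h * x)) a := by
  unfold pair tr
  simp only [Finsupp.mapDomain.addMonoidHom_apply]
  rw [Finsupp.linearCombination_mapDomain]
  rfl

theorem pair_single (b : H → ℝ) (x : H) (r : ℝ) : pair b (Finsupp.single x r) = r * b x := by
  unfold pair
  simp [Finsupp.linearCombination_single]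

/-- the test functions -/
def BB (S : Subgroup H) (ν : H → ℝ) : Set (H → ℝ) :=
  {b | (∀ x, ∀ s ∈ S, b (x * s) = b x) ∧ ∀ x y, |b x - b y| ≤ ν (x * y⁻¹)}

theorem BB_mono (S : Subgroup H) {ν ν' : H → ℝ} (h : ∀ g, ν g ≤ ν' g) : BB S ν ⊆ BB S ν' :=
  fun _ hb => ⟨hb.1, fun x y => (hb.2 x y).trans (h _)⟩

theorem BB_tr (S : Subgroup H) {ν ν' : H → ℝ} (h : H) (hh : ∀ g, ν (h * g * h⁻¹) ≤ ν' g)
    {b : H → ℝ} (hb : b ∈ BB S ν) : (fun x => b (h * x)) ∈ BB S ν' := by
  refine ⟨fun x s hs => ?_, fun x y => ?_⟩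
  · dsimp only
    rw [← mul_assoc]; exact hb.1 _ s hs
  · refine (hb.2 _ _).trans ?_
    have : h * x * (h * y)⁻¹ = h * (x * y⁻¹) * h⁻¹ := by group
    rw [this]; exact hh _

/-- size of a finitely supported function -/
noncomputable def sz (a : H →₀ ℝ) : ℝ := a.sum fun _ r => |r|

theorem sz_nonneg (a : H →₀ ℝ) : 0 ≤ sz a :=
  Finsupp.sum_nonneg fun _ _ => abs_nonneg _

/-- moving a finitely supported function by a small element -/
theorem pair_move (S : Subgroup H) (ν : H → ℝ) {b : H → ℝ} (hb : b ∈ BB S ν)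
    (hinv : ∀ g, ν g⁻¹ = ν g) (g : H) (a : H →₀ ℝ) : |pair b (a - tr g a)| ≤ sz a * ν g := by
  rw [map_sub, pair_tr]
  unfold pair sz
  rw [Finsupp.linearCombination_apply, Finsupp.linearCombination_apply, ← Finsupp.sum_sub,
    Finsupp.sum_mul]
  unfold Finsupp.sum
  refine (Finset.abs_sum_le_sum_abs _ _).trans (Finset.sum_le_sum fun x _ => ?_)
  dsimp only
  rw [smul_eq_mul, smul_eq_mul, ← mul_sub, abs_mul]
  refine mul_le_mul_of_nonneg_left ?_ (abs_nonneg _)
  refine (hb.2 _ _).trans (le_of_eq ?_)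
  have : x * (g * x)⁻¹ = g⁻¹ := by group
  rw [this, hinv]

end

section
variable {H : Type u} [Group H] [TopologicalSpace H] [IsTopologicalGroup H]
  {I : Type v} {ν : I → H → ℝ}

/-- basic neighbourhoods -/
def UU (S : Subgroup H) (ν : I → H → ℝ) (i : I) (ε : ℝ) (W : Set H) : Set (K0 H) :=
  {x | (∀ b ∈ BB S (ν i), |pair b x.a| ≤ ε) ∧ x.h ∈ W}

/-- the filter basis -/
noncomputable def basis (S : Subgroup H) (hν : LengthFamily H I ν) : GroupFilterBasis (K0 H) where
  sets := {U | ∃ i, ∃ ε : ℝ, 0 < ε ∧ ∃ W ∈ 𝓝 (1 : H), U = UU S ν i ε W}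
  nonempty := by
    obtain ⟨i⟩ := hν.ne
    exact ⟨_, i, 1, one_pos, Set.univ, univ_mem, rfl⟩
  inter_sets := by
    rintro _ _ ⟨i, ε, hε, W, hW, rfl⟩ ⟨j, δ, hδ, V, hV, rfl⟩
    obtain ⟨k, hk⟩ := hν.dir i j
    refine ⟨_, ⟨k, min ε δ, lt_min hε hδ, W ∩ V, inter_mem hW hV, rfl⟩, ?_⟩
    rintro x ⟨hx1, hx2⟩
    exact ⟨⟨fun b hb => (hx1 b (BB_mono S (fun g => (hk g).1) hb)).trans (min_le_left _ _), hx2.1⟩,
      ⟨fun b hb => (hx1 b (BB_mono S (fun g => (hk g).2) hb)).trans (min_le_right _ _), hx2.2⟩⟩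
  one' := by
    rintro _ ⟨i, ε, hε, W, hW, rfl⟩
    refine ⟨fun b _ => ?_, mem_of_mem_nhds hW⟩
    rw [one_a, map_zero, abs_zero]; exact hε.le
  mul' := by
    rintro _ ⟨i, ε, hε, W, hW, rfl⟩
    obtain ⟨j, hj⟩ := hν.conj i 1
    obtain ⟨k, hk⟩ := hν.dir i j
    have h1 : ∀ᶠ p : H × H in 𝓝 ((1 : H), (1 : H)), p.1 * p.2 ∈ W := by
      have : Tendsto (fun p : H × H => p.1 * p.2) (𝓝 ((1 : H), (1 : H))) (𝓝 ((1 : H) * 1)) :=
        (continuous_mul.tendsto _)
      rw [mul_one] at this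
      exact this.eventually hW
    have h1' : {p : H × H | p.1 * p.2 ∈ W} ∈ 𝓝 ((1 : H), (1 : H)) := h1
    rw [nhds_prod_eq, mem_prod_self_iff] at h1'
    obtain ⟨V, hV, hVW'⟩ := h1'
    have hVW : ∀ x ∈ V, ∀ y ∈ V, x * y ∈ W := fun x hx y hy => hVW' (Set.mk_mem_prod hx hy)
    refine ⟨_, ⟨k, ε / 2, half_pos hε, V ∩ {h | ∀ g, ν i (h * g * h⁻¹) ≤ ν j g},
      inter_mem hV hj, rfl⟩, ?_⟩
    rintro _ ⟨x, ⟨hx1, hx2⟩, y, ⟨hy1, hy2⟩, rfl⟩
    refine ⟨fun b hb => ?_, hVW _ hx2.1 _ hy2.1⟩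
    dsimp only
    rw [mul_a, map_add]
    have h2 := hx1 b (BB_mono S (fun g => (hk g).1) hb)
    have h3 := hy1 _ (BB_mono S (fun g => (hk g).2) (BB_tr S x.h hx2.2 hb))
    rw [← pair_tr] at h3
    exact (abs_add_le _ _).trans (by linarith)
  inv' := by
    rintro _ ⟨i, ε, hε, W, hW, rfl⟩
    obtain ⟨j, hj⟩ := hν.conj i 1
    have h1 : ∀ᶠ h in 𝓝 (1 : H), h⁻¹ ∈ W ∧ ∀ g, ν i (h⁻¹ * g * h⁻¹⁻¹) ≤ ν j g := by
      have : Tendsto (fun h : H => h⁻¹) (𝓝 1) (𝓝 (1 : H)⁻¹) := continuous_inv.tendsto _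
      rw [inv_one] at this
      exact this.eventually (inter_mem hW hj)
    refine ⟨_, ⟨j, ε, hε, _, h1, rfl⟩, ?_⟩
    rintro x ⟨hx1, hx2, hx3⟩
    refine ⟨fun b hb => ?_, hx2⟩
    rw [inv_a, map_neg, abs_neg, pair_tr]
    exact hx1 _ (BB_tr S _ hx3 hb)
  conj' := by
    rintro x₀ _ ⟨i, ε, hε, W, hW, rfl⟩
    obtain ⟨j, hj⟩ := hν.conj i x₀.h
    have hj' := hj.self_of_nhds
    have hsz := sz_nonneg x₀.a
    have h1 : ∀ᶠ h in 𝓝 (1 : H), x₀.h * h * x₀.h⁻¹ ∈
        W ∩ {g | ν i g < ε / 2 / (sz x₀.a + 1)} := by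
      have : Tendsto (fun h : H => x₀.h * h * x₀.h⁻¹) (𝓝 1) (𝓝 (x₀.h * 1 * x₀.h⁻¹)) :=
        ((continuous_const.mul continuous_id).mul continuous_const).tendsto _
      rw [mul_one, mul_inv_cancel] at this
      exact this.eventually (inter_mem hW (hν.cont i _ (by positivity)))
    refine ⟨_, ⟨j, ε / 2, half_pos hε, _, h1, rfl⟩, ?_⟩
    rintro x ⟨hx1, hx2, hx3⟩
    refine ⟨fun b hb => ?_, hx2⟩
    have e1 : (x₀ * x * x₀⁻¹).a = tr x₀.h x.a + (x₀.a - tr (x₀.h * x.h * x₀.h⁻¹) x₀.a) := by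
      rw [mul_a, mul_a, inv_a, mul_h, map_neg, ← tr_mul]
      abel
    rw [e1, map_add]
    have h2 := hx1 _ (BB_tr S x₀.h hj' hb)
    rw [← pair_tr] at h2
    have h3 := pair_move S (ν i) hb (hν.inv i) (x₀.h * x.h * x₀.h⁻¹) x₀.a
    have h4 : sz x₀.a * ν i (x₀.h * x.h * x₀.h⁻¹) ≤ ε / 2 := by
      have hx3' : ν i (x₀.h * x.h * x₀.h⁻¹) < ε / 2 / (sz x₀.a + 1) := hx3
      calc sz x₀.a * ν i (x₀.h * x.h * x₀.h⁻¹)
          ≤ sz x₀.a * (ε / 2 / (sz x₀.a + 1)) := mul_le_mul_of_nonneg_left hx3'.le hsz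
        _ ≤ (sz x₀.a + 1) * (ε / 2 / (sz x₀.a + 1)) :=
            mul_le_mul_of_nonneg_right (by linarith) (by positivity)
        _ = ε / 2 := by field_simp
    exact (abs_add_le _ _).trans (by linarith)

/-- the cocycle -/
noncomputable def coc (h : H) : H →₀ ℝ := Finsupp.single 1 1 - Finsupp.single h 1

theorem exists_pair (S : Subgroup H) (hν : LengthFamily H I ν) (h : H) (i₀ : I) (ε₀ : ℝ)
    (hε₀ : 0 < ε₀) (hS : ∀ s ∈ S, ε₀ ≤ ν i₀ (h * s)) :
    ∃ (K : Type u) (_ : Group K) (_ : TopologicalSpace K) (_ : IsTopologicalGroup K)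
      (_ : T2Space K) (φ₁ φ₂ : H →* K), Continuous φ₁ ∧ Continuous φ₂ ∧
      (∀ s ∈ S, φ₁ s = φ₂ s) ∧ φ₁ ≠ φ₂ := by
  letI : TopologicalSpace (K0 H) := (basis S hν).topology
  haveI : IsTopologicalGroup (K0 H) := (basis S hν).isTopologicalGroup
  let f₁ : H →* K0 H :=
    { toFun := fun h => ⟨0, h⟩
      map_one' := rfl
      map_mul' := fun x y => by
        ext1
        · simp only [mul_a, map_zero, add_zero]
        · simp only [mul_h] }
  let f₂ : H →* K0 H :=
    { toFun := fun h => ⟨coc h, h⟩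
      map_one' := by
        ext1
        · simp only [coc, sub_self, one_a]
        · rfl
      map_mul' := fun x y => by
        ext1
        · simp only [mul_a, coc, map_sub, tr_single, mul_one]
          abel
        · simp only [mul_h] }
  have hbasis : ∀ U ∈ 𝓝 (1 : K0 H), ∃ i, ∃ ε : ℝ, 0 < ε ∧ ∃ W ∈ 𝓝 (1 : H), UU S ν i ε W ⊆ U := by
    intro U hU
    obtain ⟨V, ⟨i, ε, hε, W, hW, rfl⟩, hVU⟩ := (basis S hν).nhds_one_hasBasis.mem_iff.1 hU
    exact ⟨i, ε, hε, W, hW, hVU⟩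
  have hpair : ∀ (i : I) (b : H → ℝ), b ∈ BB S (ν i) → ∀ h, |pair b (coc h)| ≤ ν i h := by
    intro i b hb h
    unfold coc
    rw [map_sub, pair_single, pair_single, one_mul, one_mul]
    refine (hb.2 _ _).trans (le_of_eq ?_)
    rw [one_mul, hν.inv]
  have hc₁ : Continuous f₁ := by
    refine continuous_of_continuousAt_one f₁ ?_
    intro U hU
    rw [map_one] at hU
    obtain ⟨i, ε, hε, W, hW, hUU⟩ := hbasis U hU
    rw [mem_map]
    filter_upwards [hW] with h hh
    refine hUU ⟨fun b _ => ?_, hh⟩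
    have : (f₁ h).a = 0 := rfl
    rw [this, map_zero, abs_zero]; exact hε.le
  have hc₂ : Continuous f₂ := by
    refine continuous_of_continuousAt_one f₂ ?_
    intro U hU
    rw [map_one] at hU
    obtain ⟨i, ε, hε, W, hW, hUU⟩ := hbasis U hU
    rw [mem_map]
    filter_upwards [hW, hν.cont i ε hε] with h hh hh2
    exact hUU ⟨fun b hb => (hpair i b hb h).trans hh2.le, hh⟩
  let π : K0 H →* SeparationQuotient (K0 H) :=
    { toFun := SeparationQuotient.mk
      map_one' := rfl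
      map_mul' := fun _ _ => rfl }
  refine ⟨SeparationQuotient (K0 H), inferInstance, inferInstance, inferInstance, inferInstance,
    π.comp f₁, π.comp f₂, SeparationQuotient.continuous_mk.comp hc₁,
    SeparationQuotient.continuous_mk.comp hc₂, fun s hs => ?_, ?_⟩
  · -- agreement on `S`
    change SeparationQuotient.mk (f₁ s) = SeparationQuotient.mk (f₂ s)
    rw [SeparationQuotient.mk_eq_mk]
    have h1 : (f₂ s * (f₁ s)⁻¹) ⤳ (1 : K0 H) := by
      rw [specializes_iff_pure]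
      intro U hU
      obtain ⟨i, ε, hε, W, hW, hUU⟩ := hbasis U hU
      refine hUU ⟨fun b hb => ?_, ?_⟩
      · have e1 : (f₂ s * (f₁ s)⁻¹).a = coc s := by
          rw [mul_a, inv_a]
          change coc s + tr s (-tr s⁻¹ 0) = coc s
          simp
        rw [e1]
        unfold coc
        rw [map_sub, pair_single, pair_single]
        have := hb.1 1 s hs
        rw [one_mul] at this
        rw [this, sub_self, abs_zero]; exact hε.le
      · have e2 : (f₂ s * (f₁ s)⁻¹).h = 1 := by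
          rw [mul_h, inv_h]
          change s * s⁻¹ = 1
          exact mul_inv_cancel s
        rw [e2]; exact mem_of_mem_nhds hW
    have h2 : Inseparable (f₂ s * (f₁ s)⁻¹) 1 := h1.inseparable
    have h3 := h2.mul (Inseparable.refl (f₁ s))
    rw [inv_mul_cancel_right, one_mul] at h3
    exact h3.symm
  · -- they differ at `h`
    intro heq
    have hnn : ∀ i g, 0 ≤ ν i g := by
      intro i g
      have h1 := hν.mul i g g⁻¹
      rw [mul_inv_cancel, hν.one, hν.inv] at h1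
      linarith
    have hbdd : ∀ i x, BddBelow (Set.range fun s : S => ν i (x * s)) := fun i x =>
      ⟨0, by rintro _ ⟨s, rfl⟩; exact hnn _ _⟩
    set bf : I → H → ℝ := fun i x => ⨅ s : S, ν i (x * s) with hbf
    have hle : ∀ i x y, bf i x ≤ ν i (x * y⁻¹) + bf i y := by
      intro i x y
      have h1 : bf i x - ν i (x * y⁻¹) ≤ bf i y := by
        refine le_ciInf fun s => ?_
        have h2 : bf i x ≤ ν i (x * s) := ciInf_le (hbdd i x) s
        have h3 := hν.mul i (x * y⁻¹) (y * s)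
        have e : x * y⁻¹ * (y * s) = x * s := by group
        rw [e] at h3
        linarith
      linarith
    have hBB : ∀ i, bf i ∈ BB S (ν i) := by
      intro i
      refine ⟨fun x s hs => ?_, fun x y => ?_⟩
      · have : (fun t : S => ν i (x * s * t)) = (fun t : S => ν i (x * t)) ∘
            (Equiv.mulLeft (⟨s, hs⟩ : S)) := by
          funext t
          simp [mul_assoc]
        simp only [hbf]
        rw [this]
        exact Equiv.iInf_comp (g := fun t : S => ν i (x * t)) (Equiv.mulLeft (⟨s, hs⟩ : S))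
      · have h1 := hle i x y
        have h2 := hle i y x
        have e : y * x⁻¹ = (x * y⁻¹)⁻¹ := by group
        rw [e, hν.inv] at h2
        rw [abs_le]; constructor <;> linarith
    have h0 : ∀ i, bf i 1 = 0 := by
      intro i
      refine le_antisymm ?_ (Real.iInf_nonneg fun s => hnn _ _)
      have := ciInf_le (hbdd i 1) (1 : S)
      simpa [hbf, hν.one] using this
    have hpos : ∃ i, 0 < bf i h :=
      ⟨i₀, lt_of_lt_of_le hε₀ (le_ciInf fun s => hS s s.2)⟩
    obtain ⟨i, hi⟩ := hpos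
    have h1 : SeparationQuotient.mk (f₁ h) = SeparationQuotient.mk (f₂ h) := DFunLike.congr_fun heq h
    rw [SeparationQuotient.mk_eq_mk] at h1
    have h2 := h1.symm.mul (Inseparable.refl (f₁ h)⁻¹)
    rw [mul_inv_cancel] at h2
    have h3 : UU S ν i (bf i h / 2) Set.univ ∈ 𝓝 (1 : K0 H) :=
      (basis S hν).nhds_one_hasBasis.mem_of_mem ⟨i, _, half_pos hi, Set.univ, univ_mem, rfl⟩
    rw [← h2.nhds_eq] at h3
    have h4 := (mem_of_mem_nhds h3).1 (bf i) (hBB i)
    have e1 : (f₂ h * (f₁ h)⁻¹).a = coc h := by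
      rw [mul_a, inv_a]
      change coc h + tr h (-tr h⁻¹ 0) = coc h
      simp
    rw [e1] at h4
    unfold coc at h4
    rw [map_sub, pair_single, pair_single, h0 i, one_mul, one_mul, zero_sub, abs_neg,
      abs_of_pos hi] at h4
    linarith

end

end Pool.Agent.H865R3.Mu
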