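import Pool.Agent.H865R3.Epi1
import Pool.Agent.H865R3.Mu1

set_option autoImplicit false

/-!
Seminorm estimates for the multiplication of a locally convex Lie group.
-/

namespace Pool.Agent.H865R3.Mu

open Filter Topology Pool.Agent.H865R3

universe u v w z

section MV

variable {E : Type u} [AddCommGroup E] [Module ℝ E] [TopologicalSpace E]
  [IsTopologicalAddGroup E] [ContinuousSMul ℝ E] [LocallyConvexSpace ℝ E]

theorem exists_seminorm {B : Set E} (hB : B ∈ 𝓝 (0 : E)) :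
    ∃ q : Seminorm ℝ E, Continuous q ∧ ∀ v, q v < 1 → v ∈ B := by
  obtain ⟨s, hs, hsB⟩ := (nhds_hasBasis_absConvex_open ℝ E).mem_iff.1 hB
  obtain ⟨t, ht⟩ : ∃ t : AbsConvexOpenSets ℝ E, (t : Set E) = s := ⟨⟨s, hs⟩, rfl⟩
  refine ⟨gaugeSeminormFamily ℝ E t, with_gaugeSeminormFamily.continuous_seminorm _, ?_⟩
  intro v hv
  apply hsB
  have h1 : v ∈ (gaugeSeminormFamily ℝ E t).ball 0 1 := by
    rw [Seminorm.mem_ball_zero]; exact hv
  rw [gaugeSeminormFamily_ball, ht] at h1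
  exact h1

variable {F : Type v} [AddCommGroup F] [Module ℝ F] [TopologicalSpace F]
  [IsTopologicalAddGroup F] [ContinuousSMul ℝ F] [LocallyConvexSpace ℝ F] [T2Space F]

/-- mean value estimate -/
theorem mean_value {G : E → F} {U : Set E} (hU : IsOpen U) {dG : E × E → F}
    (hd : ∀ x ∈ U, ∀ v, HasDirDeriv G x v (dG (x, v)))
    (hc : ContinuousOn dG (U ×ˢ (Set.univ : Set E))) {x0 : E} (hx0 : x0 ∈ U)
    (p : Seminorm ℝ F) (hp : Continuous p) :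
    ∃ q : Seminorm ℝ E, Continuous q ∧ ∃ N ∈ 𝓝 x0, N ⊆ U ∧
      ∀ x ∈ N, ∀ y ∈ N, p (G y - G x) ≤ q (y - x) := by
  have hca : ContinuousAt dG (x0, 0) :=
    hc.continuousAt (prod_mem_nhds (hU.mem_nhds hx0) univ_mem)
  have h0 : dG (x0, 0) = 0 := (hd x0 hx0 0).zero_dir
  have hP : {y : F | p y < 1} ∈ 𝓝 (dG (x0, 0)) := by
    rw [h0]
    refine (isOpen_lt hp continuous_const).mem_nhds ?_
    change p 0 < 1
    rw [map_zero]; exact one_pos
  obtain ⟨A, hA, B, hB, hAB⟩ := mem_nhds_prod_iff.1 (hca hP)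
  obtain ⟨q, hq, hqB⟩ := exists_seminorm hB
  obtain ⟨N, ⟨hN, hNc⟩, hNA⟩ :=
    (LocallyConvexSpace.convex_basis (𝕜 := ℝ) x0).mem_iff.1 (inter_mem hA (hU.mem_nhds hx0))
  simp only [id] at hNA
  refine ⟨q, hq, N, hN, fun x hx => (hNA hx).2, fun x hx y hy => ?_⟩
  refine le_of_forall_gt_imp_ge_of_dense fun c hc' => ?_
  have hcpos : 0 < c := lt_of_le_of_lt (apply_nonneg q _) hc'
  by_contra hne
  have hclc : IsClosed {w : F | p w ≤ c} := isClosed_le hp continuous_const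
  have hcv : Convex ℝ {w : F | p w ≤ c} := by
    have h1 := p.convex_closedBall 0 c
    have h2 : p.closedBall 0 c = {w : F | p w ≤ c} := by
      ext w
      rw [Seminorm.mem_closedBall_zero, Set.mem_ofPred_eq]
    rwa [h2] at h1
  obtain ⟨f, u0, hf1, hf2⟩ := geometric_hahn_banach_closed_point hcv hclc
    (show G y - G x ∉ {w : F | p w ≤ c} from fun h => hne h)
  have hseg : ∀ r ∈ Set.Icc (0 : ℝ) 1, x + r • (y - x) ∈ N := by
    intro r hr
    have := hNc.add_smul_sub_mem hx hy hr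
    exact this
  have hderiv : ∀ r ∈ Set.Icc (0 : ℝ) 1,
      HasDerivAt (fun r : ℝ => f (G (x + r • (y - x))))
        (f (dG (x + r • (y - x), y - x))) r := fun r hr =>
    (hd _ (hNA (hseg r hr)).2 _).hasDerivAt f
  obtain ⟨r, hr, hr2⟩ := exists_hasDerivAt_eq_slope
    (fun r : ℝ => f (G (x + r • (y - x))))
    (fun r : ℝ => f (dG (x + r • (y - x), y - x))) zero_lt_one
    (fun r hr => (hderiv r hr).continuousAt.continuousWithinAt)
    (fun r hr => hderiv r (Set.Ioo_subset_Icc_self hr))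
  simp only [one_smul, zero_smul, add_zero, sub_zero, div_one, add_sub_cancel] at hr2
  have hrm := hNA (hseg r (Set.Ioo_subset_Icc_self hr))
  have h4 : dG (x + r • (y - x), c⁻¹ • (y - x)) = c⁻¹ • dG (x + r • (y - x), y - x) :=
    (hd _ hrm.2 _).unique ((hd _ hrm.2 _).smul _)
  have h5 : p (dG (x + r • (y - x), c⁻¹ • (y - x))) < 1 := by
    refine hAB (Set.mk_mem_prod hrm.1 (hqB _ ?_))
    rw [map_smul_eq_mul, norm_inv, Real.norm_of_nonneg hcpos.le, inv_mul_lt_iff₀ hcpos, mul_one]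
    exact hc'
  rw [h4, map_smul_eq_mul, norm_inv, Real.norm_of_nonneg hcpos.le, inv_mul_lt_iff₀ hcpos,
    mul_one] at h5
  have h6 := hf1 _ (show dG (x + r • (y - x), y - x) ∈ {w : F | p w ≤ c} from h5.le)
  rw [hr2, ← map_sub] at h6
  exact lt_asymm h6 hf2

end MV

section Lie

variable {M : Type u} [AddCommGroup M] [Module ℝ M] [TopologicalSpace M]
  [IsTopologicalAddGroup M] [ContinuousSMul ℝ M] [LocallyConvexSpace ℝ M] [T2Space M]
  {K : Type v} [Group K] [TopologicalSpace K] [IsTopologicalGroup K]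

/-- local Lipschitz estimate for the multiplication -/
theorem mul_lipschitz (L : LieStructure M K) {e₁ e₂ e₃ : OpenPartialHomeomorph K M}
    (h₁ : e₁ ∈ L.charts) (h₂ : e₂ ∈ L.charts) (h₃ : e₃ ∈ L.charts) {g₁ g₂ : K}
    (hg₁ : g₁ ∈ e₁.source) (hg₂ : g₂ ∈ e₂.source) (hg₃ : g₁ * g₂ ∈ e₃.source)
    (p : Seminorm ℝ M) (hp : Continuous p) :
    ∃ q : Seminorm ℝ M, Continuous q ∧ ∃ W₁ ∈ 𝓝 g₁, ∃ W₂ ∈ 𝓝 g₂,
      (∀ a ∈ W₁, ∀ b ∈ W₂, a * b ∈ e₃.source) ∧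
      (∀ a ∈ W₁, ∀ a' ∈ W₁, ∀ b ∈ W₂, p (e₃ (a * b) - e₃ (a' * b)) ≤ q (e₁ a - e₁ a')) ∧
      (∀ a ∈ W₁, ∀ b ∈ W₂, ∀ b' ∈ W₂, p (e₃ (a * b) - e₃ (a * b')) ≤ q (e₂ b - e₂ b')) := by
  obtain ⟨_, dm, hd, hc⟩ := L.mul_smooth e₁ h₁ e₂ h₂ e₃ h₃ 1
  set Ω : Set (M × M) :=
    {p | p.1 ∈ e₁.target ∧ p.2 ∈ e₂.target ∧ e₁.symm p.1 * e₂.symm p.2 ∈ e₃.source} with hΩ
  have hopen : IsOpen Ω := by
    have h4 : ContinuousOn (fun p : M × M => e₁.symm p.1 * e₂.symm p.2)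
        (e₁.target ×ˢ e₂.target) := by
      refine ContinuousOn.mul ?_ ?_
      · exact e₁.continuousOn_symm.comp continuousOn_fst (fun p hp => hp.1)
      · exact e₂.continuousOn_symm.comp continuousOn_snd (fun p hp => hp.2)
    have h5 := h4.isOpen_inter_preimage (e₁.open_target.prod e₂.open_target) e₃.open_source
    have h6 : Ω = (e₁.target ×ˢ e₂.target) ∩
        (fun p : M × M => e₁.symm p.1 * e₂.symm p.2) ⁻¹' e₃.source := by
      ext p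
      simp only [hΩ, Set.mem_ofPred_eq, Set.mem_inter_iff, Set.mem_prod, Set.mem_preimage]
      tauto
    rw [h6]
    exact h5
  have hmem : (e₁ g₁, e₂ g₂) ∈ Ω := by
    refine ⟨e₁.map_source hg₁, e₂.map_source hg₂, ?_⟩
    simp only [e₁.left_inv hg₁, e₂.left_inv hg₂]
    exact hg₃
  obtain ⟨Q, hQ, N, hN, hNΩ, hest⟩ := mean_value hopen hd hc hmem p hp
  obtain ⟨A, hA, B, hB, hAB⟩ := mem_nhds_prod_iff.1 hN
  refine ⟨Q.comp (LinearMap.inl ℝ M M) ⊔ Q.comp (LinearMap.inr ℝ M M), ?_,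
    e₁.source ∩ e₁ ⁻¹' A, ?_, e₂.source ∩ e₂ ⁻¹' B, ?_, ?_, ?_, ?_⟩
  · have h7 : Continuous fun x : M => Q (x, 0) := hQ.comp (by fun_prop)
    have h8 : Continuous fun x : M => Q (0, x) := hQ.comp (by fun_prop)
    exact h7.sup h8
  · exact inter_mem (e₁.open_source.mem_nhds hg₁) (e₁.continuousAt hg₁ hA)
  · exact inter_mem (e₂.open_source.mem_nhds hg₂) (e₂.continuousAt hg₂ hB)
  · intro a ha b hb
    have h9 := (hNΩ (hAB (Set.mk_mem_prod ha.2 hb.2))).2.2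
    simp only [e₁.left_inv ha.1, e₂.left_inv hb.1] at h9
    exact h9
  · intro a ha a' ha' b hb
    have h9 := hest _ (hAB (Set.mk_mem_prod ha'.2 hb.2)) _ (hAB (Set.mk_mem_prod ha.2 hb.2))
    simp only [e₁.left_inv ha.1, e₂.left_inv hb.1, e₁.left_inv ha'.1, Prod.mk_sub_mk,
      sub_self] at h9
    exact h9.trans (le_max_left (Q (e₁ a - e₁ a', 0)) (Q (0, e₁ a - e₁ a')))
  · intro a ha b hb b' hb'
    have h9 := hest _ (hAB (Set.mk_mem_prod ha.2 hb'.2)) _ (hAB (Set.mk_mem_prod ha.2 hb.2))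
    simp only [e₁.left_inv ha.1, e₂.left_inv hb.1, e₂.left_inv hb'.1, Prod.mk_sub_mk,
      sub_self] at h9
    exact h9.trans (le_max_right (Q (e₂ b - e₂ b', 0)) (Q (0, e₂ b - e₂ b')))

omit [T2Space M] [IsTopologicalGroup K] in
/-- elements whose chart coordinates are close are close -/
theorem exists_small {e : OpenPartialHomeomorph K M} (h1 : (1 : K) ∈ e.source) {V : Set K}
    (hV : V ∈ 𝓝 (1 : K)) :
    ∃ q : Seminorm ℝ M, Continuous q ∧ ∀ g ∈ e.source, q (e g - e 1) < 1 → g ∈ V := by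
  have h2 : e.target ∩ e.symm ⁻¹' V ∈ 𝓝 (e 1) := by
    refine inter_mem (e.open_target.mem_nhds (e.map_source h1)) ?_
    refine e.continuousAt_symm (e.map_source h1) ?_
    rwa [e.left_inv h1]
  have h3 : (fun x : M => x + e 1) ⁻¹' (e.target ∩ e.symm ⁻¹' V) ∈ 𝓝 (0 : M) := by
    have h4 : Tendsto (fun x : M => x + e 1) (𝓝 0) (𝓝 (0 + e 1)) :=
      (continuous_id.add continuous_const).tendsto _
    rw [zero_add] at h4
    exact h4 h2
  obtain ⟨q, hq, hq2⟩ := exists_seminorm h3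
  refine ⟨q, hq, fun g hg hlt => ?_⟩
  have h5 := (hq2 _ hlt).2
  simp only [Set.mem_preimage, sub_add_cancel, e.left_inv hg] at h5
  exact h5

/-- the conjugation estimate -/
theorem conj_estimate (L : LieStructure M K) {e : OpenPartialHomeomorph K M}
    (he : e ∈ L.charts) (h1 : (1 : K) ∈ e.source) (p : Seminorm ℝ M) (hp : Continuous p) (h₀ : K) :
    ∃ q : Seminorm ℝ M, Continuous q ∧ ∀ᶠ h in 𝓝 h₀, ∀ g ∈ e.source, q (e g - e 1) < 1 →
      h * g * h⁻¹ ∈ e.source ∧ p (e (h * g * h⁻¹) - e 1) ≤ q (e g - e 1) := by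
  obtain ⟨e', he', hh₀⟩ := L.cover h₀
  obtain ⟨e'', he'', hh₀'⟩ := L.cover h₀⁻¹
  obtain ⟨q₁, hq₁, V₁, hV₁, V₂, hV₂, hsrc, hR, _⟩ := mul_lipschitz L he' he'' he hh₀ hh₀'
    (by rw [mul_inv_cancel]; exact h1) p hp
  obtain ⟨q₂, hq₂, W₁, hW₁, W₂, hW₂, _, _, hL⟩ := mul_lipschitz L he' he he' hh₀ h1
    (by rw [mul_one]; exact hh₀) q₁ hq₁
  -- continuity of the multiplication at `(h₀, 1)`
  have h2 : Tendsto (fun r : K × K => r.1 * r.2) (𝓝 (h₀, 1)) (𝓝 (h₀ * 1)) :=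
    continuous_mul.tendsto _
  rw [mul_one] at h2
  obtain ⟨W₃, hW₃, W₄, hW₄, hW34⟩ := mem_nhds_prod_iff.1 (h2 hV₁)
  have h3 : Tendsto (fun h : K => h⁻¹) (𝓝 h₀) (𝓝 h₀⁻¹) := continuous_inv.tendsto _
  obtain ⟨q₃, hq₃, hq₃'⟩ := exists_small h1 (inter_mem hW₂ hW₄)
  refine ⟨q₂ ⊔ q₃, hq₂.sup hq₃, ?_⟩
  filter_upwards [hV₁, hW₁, hW₃, h3 hV₂] with h hh1 hh2 hh3 hh4
  intro g hg hlt
  have hle2 : q₂ (e g - e 1) ≤ (q₂ ⊔ q₃) (e g - e 1) := le_max_left _ _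
  have hle3 : q₃ (e g - e 1) ≤ (q₂ ⊔ q₃) (e g - e 1) := le_max_right _ _
  have hgW := hq₃' g hg (lt_of_le_of_lt hle3 hlt)
  have hhg : h * g ∈ V₁ := hW34 (Set.mk_mem_prod hh3 hgW.2)
  refine ⟨hsrc _ hhg _ hh4, ?_⟩
  have h5 := hR _ hhg _ hh1 _ hh4
  rw [mul_inv_cancel] at h5
  have h6 := hL _ hh2 _ hgW.1 _ (mem_of_mem_nhds hW₂)
  rw [mul_one] at h6
  exact h5.trans (h6.trans hle2)

end Lie

end Pool.Agent.H865R3.Mu
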