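import Pool.Agent.H865R3.Mu2

set_option autoImplicit false

/-!
Length functions on locally mu-convex Lie groups.
-/

namespace Pool.Agent.H865R3.Mu

open Filter Topology Pool.Agent.H865R3

universe u v w z

section Len

variable {K : Type v} [Group K]

/-- the length function generated by a cost function -/
noncomputable def len (C : K → ℝ) (g : K) : ℝ :=
  sInf {r | ∃ l : List K, l.prod = g ∧ r = (l.map C).sum}

variable {C C' : K → ℝ}

omit [Group K] in
theorem sum_nonneg' (hC : ∀ g, 0 ≤ C g) (l : List K) : 0 ≤ (l.map C).sum := by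
  refine List.sum_nonneg ?_
  intro x hx
  obtain ⟨g, _, rfl⟩ := List.mem_map.1 hx
  exact hC g

theorem len_bdd (hC : ∀ g, 0 ≤ C g) (g : K) :
    BddBelow {r | ∃ l : List K, l.prod = g ∧ r = (l.map C).sum} :=
  ⟨0, by rintro r ⟨l, _, rfl⟩; exact sum_nonneg' hC l⟩

theorem len_le (hC : ∀ g, 0 ≤ C g) (l : List K) : len C l.prod ≤ (l.map C).sum :=
  csInf_le (len_bdd hC _) ⟨l, rfl, rfl⟩

theorem len_le_cost (hC : ∀ g, 0 ≤ C g) (g : K) : len C g ≤ C g := by
  have := len_le hC [g]
  simpa using this

theorem le_len {r : ℝ} {g : K} (h : ∀ l : List K, l.prod = g → r ≤ (l.map C).sum) :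
    r ≤ len C g := by
  refine le_csInf ⟨_, [g], by simp, rfl⟩ ?_
  rintro s ⟨l, hl, rfl⟩
  exact h l hl

theorem len_one (hC : ∀ g, 0 ≤ C g) : len C 1 = 0 := by
  refine le_antisymm ?_ (le_len fun l _ => sum_nonneg' hC l)
  have := len_le hC ([] : List K)
  simpa using this

theorem len_mul (hC : ∀ g, 0 ≤ C g) (g h : K) : len C (g * h) ≤ len C g + len C h := by
  have h1 : len C (g * h) - len C h ≤ len C g := by
    refine le_len fun l hl => ?_
    have h2 : len C (g * h) - (l.map C).sum ≤ len C h := by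
      refine le_len fun l' hl' => ?_
      have h3 := len_le hC (l ++ l')
      rw [List.prod_append, hl, hl', List.map_append, List.sum_append] at h3
      linarith
    linarith
  linarith

theorem len_inv_le (hC : ∀ g, 0 ≤ C g) (hi : ∀ g, C g⁻¹ = C g) (g : K) :
    len C g⁻¹ ≤ len C g := by
  refine le_len fun l hl => ?_
  have h3 := len_le hC (l.map fun x => x⁻¹).reverse
  rw [← List.prod_inv_reverse, hl, List.map_reverse, List.sum_reverse, List.map_map] at h3
  have h4 : (C ∘ fun x => x⁻¹) = C := by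
    funext x
    exact hi x
  rwa [h4] at h3

theorem len_inv (hC : ∀ g, 0 ≤ C g) (hi : ∀ g, C g⁻¹ = C g) (g : K) :
    len C g⁻¹ = len C g := by
  refine le_antisymm (len_inv_le hC hi g) ?_
  have := len_inv_le hC hi g⁻¹
  rwa [inv_inv] at this

omit [Group K] in
theorem sum_mono' {l : List K} (h : ∀ g ∈ l, C g ≤ C' g) :
    (l.map C).sum ≤ (l.map C').sum := by
  induction l with
  | nil => simp
  | cons a l ih =>
    simp only [List.map_cons, List.sum_cons]
    exact add_le_add (h a (by simp)) (ih fun g hg => h g (by simp [hg]))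

theorem len_mono (hC : ∀ g, 0 ≤ C g) (h : ∀ g, C g ≤ C' g) (g : K) : len C g ≤ len C' g := by
  refine le_len fun l hl => ?_
  have := len_le hC l
  rw [hl] at this
  exact this.trans (sum_mono' fun g _ => h g)

theorem prod_conj (h : K) (l : List K) :
    (l.map fun g => h * g * h⁻¹).prod = h * l.prod * h⁻¹ := by
  induction l with
  | nil => simp
  | cons a l ih =>
    simp only [List.map_cons, List.prod_cons, ih]
    group

theorem len_conj (hC : ∀ g, 0 ≤ C g) {h : K} (hh : ∀ g, C (h * g * h⁻¹) ≤ C' g) (g : K) :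
    len C (h * g * h⁻¹) ≤ len C' g := by
  refine le_len fun l hl => ?_
  have h1 := len_le hC (l.map fun g => h * g * h⁻¹)
  rw [prod_conj, hl, List.map_map] at h1
  exact h1.trans (sum_mono' (C := C ∘ fun g => h * g * h⁻¹) fun g _ => hh g)

end Len

section Lie

variable {M : Type u} [AddCommGroup M] [Module ℝ M] [TopologicalSpace M]
  {K : Type v} [Group K] [TopologicalSpace K]

open Classical in
/-- the cost of a group element measured by a seminorm in the chart `e` -/
noncomputable def cost (e : OpenPartialHomeomorph K M) (q : Seminorm ℝ M) (g : K) : ℝ :=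
  if g ∈ e.source then min 1 (q (e g - e 1)) else 1

/-- the symmetrised cost -/
noncomputable def scost (e : OpenPartialHomeomorph K M) (q : Seminorm ℝ M) (g : K) : ℝ :=
  max (cost e q g) (cost e q g⁻¹)

variable (e : OpenPartialHomeomorph K M)

theorem cost_nonneg (q : Seminorm ℝ M) (g : K) : 0 ≤ cost e q g := by
  unfold cost
  split_ifs
  · exact le_min zero_le_one (apply_nonneg q _)
  · exact zero_le_one

theorem cost_le_one (q : Seminorm ℝ M) (g : K) : cost e q g ≤ 1 := by
  unfold cost
  split_ifs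
  · exact min_le_left _ _
  · exact le_refl _

theorem cost_le {q : Seminorm ℝ M} {g : K} (hg : g ∈ e.source) : cost e q g ≤ q (e g - e 1) := by
  unfold cost
  rw [if_pos hg]
  exact min_le_right _ _

theorem of_cost_lt {q : Seminorm ℝ M} {g : K} (h : cost e q g < 1) :
    g ∈ e.source ∧ cost e q g = q (e g - e 1) ∧ q (e g - e 1) < 1 := by
  unfold cost at h ⊢
  split_ifs at h with hg
  · rw [if_pos hg]
    have h2 : q (e g - e 1) < 1 := by
      rcases min_lt_iff.1 h with h3 | h3
      · exact absurd h3 (lt_irrefl _)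
      · exact h3
    exact ⟨hg, min_eq_right h2.le, h2⟩
  · exact absurd h (lt_irrefl _)

theorem scost_nonneg (q : Seminorm ℝ M) (g : K) : 0 ≤ scost e q g :=
  (cost_nonneg e q g).trans (le_max_left _ _)

theorem scost_inv (q : Seminorm ℝ M) (g : K) : scost e q g⁻¹ = scost e q g := by
  unfold scost
  rw [inv_inv, max_comm]

theorem cost_mono {q q' : Seminorm ℝ M} (h : q ≤ q') (g : K) : cost e q g ≤ cost e q' g := by
  unfold cost
  split_ifs
  · exact min_le_min le_rfl (h _)
  · exact le_refl _

theorem scost_mono {q q' : Seminorm ℝ M} (h : q ≤ q') (g : K) : scost e q g ≤ scost e q' g :=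
  max_le_max (cost_mono e h _) (cost_mono e h _)

/-- local mu-convexity (a weak form): for each identity neighbourhood `U` there is a continuous
seminorm `q` such that all finite products of elements `g` of a chart domain around the identity
whose lengths `q (e g - e 1)` sum up to less than `1` lie in `U` -/
def LocallyMuConvex (L : LieStructure M K) : Prop :=
  ∃ e ∈ L.charts, (1 : K) ∈ e.source ∧ ∀ U ∈ 𝓝 (1 : K), ∃ q : Seminorm ℝ M, Continuous q ∧
    ∀ l : List K, (∀ g ∈ l, g ∈ e.source) → (l.map fun g => q (e g - e 1)).sum < 1 → l.prod ∈ U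

variable [IsTopologicalAddGroup M] [ContinuousSMul ℝ M] [LocallyConvexSpace ℝ M] [T2Space M]
  [IsTopologicalGroup K]

theorem lengthFamily (L : LieStructure M K) (he : e ∈ L.charts) (h1 : (1 : K) ∈ e.source) :
    LengthFamily K {q : Seminorm ℝ M // Continuous q} (fun q => len (scost e q.1)) where
  one q := len_one (scost_nonneg e q.1)
  inv q g := len_inv (scost_nonneg e q.1) (scost_inv e q.1) g
  mul q g h := len_mul (scost_nonneg e q.1) g h
  cont := by
    rintro ⟨q, hq⟩ ε hε
    have hev : ∀ᶠ g in 𝓝 (1 : K), g ∈ e.source ∧ q (e g - e 1) < ε := by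
      refine Filter.Eventually.and (e.open_source.mem_nhds h1) ?_
      have h2 : Tendsto (fun g => q (e g - e 1)) (𝓝 1) (𝓝 (q (e 1 - e 1))) :=
        (hq.tendsto _).comp ((e.continuousAt h1).tendsto.sub_const _)
      rw [sub_self, map_zero] at h2
      exact h2.eventually (gt_mem_nhds hε)
    have hev' : ∀ᶠ g in 𝓝 (1 : K), g⁻¹ ∈ e.source ∧ q (e g⁻¹ - e 1) < ε := by
      have h2 : Tendsto (fun g : K => g⁻¹) (𝓝 1) (𝓝 (1 : K)⁻¹) := continuous_inv.tendsto _
      rw [inv_one] at h2
      exact h2.eventually hev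
    filter_upwards [hev, hev'] with g hg hg'
    refine lt_of_le_of_lt (len_le_cost (scost_nonneg e q) g) ?_
    exact max_lt (lt_of_le_of_lt (cost_le e hg.1) hg.2) (lt_of_le_of_lt (cost_le e hg'.1) hg'.2)
  conj := by
    rintro ⟨p, hp⟩ h₀
    obtain ⟨q, hq, hev⟩ := conj_estimate L he h1 p hp h₀
    refine ⟨⟨q, hq⟩, ?_⟩
    filter_upwards [hev] with h hh g
    have hcost : ∀ g, cost e p (h * g * h⁻¹) ≤ cost e q g := by
      intro g
      by_cases hlt : cost e q g < 1
      · obtain ⟨h2, h3, h4⟩ := of_cost_lt e hlt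
        obtain ⟨h5, h6⟩ := hh g h2 h4
        rw [h3]
        exact (cost_le e h5).trans h6
      · exact (cost_le_one e p _).trans (not_lt.1 hlt)
    refine len_conj (scost_nonneg e p) (fun g => ?_) g
    refine max_le_max (hcost g) ?_
    have h7 : (h * g * h⁻¹)⁻¹ = h * g⁻¹ * h⁻¹ := by group
    rw [h7]
    exact hcost _
  dir := by
    rintro ⟨p, hp⟩ ⟨q, hq⟩
    exact ⟨⟨p ⊔ q, hp.sup hq⟩, fun g =>
      ⟨len_mono (scost_nonneg e p) (scost_mono e le_sup_left) g,
        len_mono (scost_nonneg e q) (scost_mono e le_sup_right) g⟩⟩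
  ne := ⟨⟨0, continuous_const⟩⟩

omit [IsTopologicalAddGroup M] [ContinuousSMul ℝ M] [LocallyConvexSpace ℝ M] [T2Space M]
  [IsTopologicalGroup K] in
/-- elements of small length are products of elements of small total size -/
theorem exists_list {q : Seminorm ℝ M} {g : K} {ε : ℝ} (hε : ε ≤ 1)
    (hg : len (scost e q) g < ε) :
    ∃ l : List K, l.prod = g ∧ (∀ x ∈ l, x ∈ e.source) ∧
      (l.map fun x => q (e x - e 1)).sum < ε := by
  obtain ⟨_, ⟨l, hl, rfl⟩, hlt⟩ := exists_lt_of_csInf_lt
    (⟨_, [g], by simp, rfl⟩ :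
      {r | ∃ l : List K, l.prod = g ∧ r = (l.map (scost e q)).sum}.Nonempty) hg
  have hsm : ∀ x ∈ l, cost e q x < 1 := by
    intro x hx
    refine lt_of_le_of_lt ?_ (lt_of_lt_of_le hlt hε)
    refine (le_max_left _ _).trans (?_ : scost e q x ≤ _)
    refine List.single_le_sum ?_ _ (List.mem_map.2 ⟨x, hx, rfl⟩)
    intro y hy
    obtain ⟨z, _, rfl⟩ := List.mem_map.1 hy
    exact scost_nonneg e q z
  refine ⟨l, hl, fun x hx => (of_cost_lt e (hsm x hx)).1, lt_of_le_of_lt ?_ hlt⟩
  refine sum_mono' (C := fun g => q (e g - e 1)) fun x hx => ?_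
  rw [← (of_cost_lt e (hsm x hx)).2.1]
  exact le_max_left _ _

end Lie

end Pool.Agent.H865R3.Mu
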