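import Pool.Agent.H865R3.Mu1

set_option autoImplicit false

/-!
A general criterion: functions all of whose translates by elements near the identity are
equicontinuous.
-/

namespace Pool.Agent.H865R3.Mu

open Filter Topology

universe u v

section
variable {H : Type u} [Group H] [TopologicalSpace H]

/-- the translates of `b` by the elements of `T`, and by nearby elements, are equicontinuous -/
def Adm (b : H → ℝ) (T : Set H) : Prop :=
  ∃ V ∈ 𝓝 (1 : H), ∀ (x : H) (ε : ℝ), 0 < ε → ∃ V' ∈ 𝓝 (1 : H), ∀ t ∈ T, ∀ v ∈ V, ∀ v' ∈ V',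
    |b (t * v * v' * x) - b (t * v * x)| ≤ ε

theorem adm_empty (b : H → ℝ) : Adm b ∅ :=
  ⟨Set.univ, univ_mem, fun _ _ _ => ⟨Set.univ, univ_mem, fun _ ht => ht.elim⟩⟩

theorem adm_union {b : H → ℝ} {T T' : Set H} (hT : Adm b T) (hT' : Adm b T') :
    Adm b (T ∪ T') := by
  obtain ⟨V, hV, h1⟩ := hT
  obtain ⟨U, hU, h2⟩ := hT'
  refine ⟨V ∩ U, inter_mem hV hU, fun x ε hε => ?_⟩
  obtain ⟨V', hV', h3⟩ := h1 x ε hε
  obtain ⟨U', hU', h4⟩ := h2 x ε hε
  refine ⟨V' ∩ U', inter_mem hV' hU', ?_⟩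
  rintro t (ht | ht) v hv v' hv'
  · exact h3 t ht v hv.1 v' hv'.1
  · exact h4 t ht v hv.2 v' hv'.2

variable [IsTopologicalGroup H]

theorem adm_point {b : H → ℝ} {T : Set H} (hT : Adm b T) (x : H) {ε : ℝ} (hε : 0 < ε) :
    ∀ᶠ g in 𝓝 (1 : H), ∀ t ∈ T, |b (t * g * x) - b (t * x)| ≤ ε := by
  obtain ⟨V, hV, h1⟩ := hT
  obtain ⟨V', hV', h2⟩ := h1 x ε hε
  filter_upwards [hV'] with g hg t ht
  have := h2 t ht 1 (mem_of_mem_nhds hV) g hg
  rwa [mul_one] at this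

theorem exists_split {V : Set H} (hV : V ∈ 𝓝 (1 : H)) :
    ∃ W ∈ 𝓝 (1 : H), ∀ x ∈ W, ∀ y ∈ W, x * y ∈ V := by
  have h1' : {p : H × H | p.1 * p.2 ∈ V} ∈ 𝓝 ((1 : H), (1 : H)) := by
    have : Tendsto (fun p : H × H => p.1 * p.2) (𝓝 ((1 : H), (1 : H))) (𝓝 ((1 : H) * 1)) :=
      (continuous_mul.tendsto _)
    rw [mul_one] at this
    exact this hV
  rw [nhds_prod_eq, mem_prod_self_iff] at h1'
  obtain ⟨W, hW, hWV⟩ := h1'
  exact ⟨W, hW, fun x hx y hy => hWV (Set.mk_mem_prod hx hy)⟩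

/-- right multiplication by a small identity neighbourhood -/
theorem adm_mul {b : H → ℝ} {T : Set H} (hT : Adm b T) :
    ∃ W ∈ 𝓝 (1 : H), Adm b {g | ∃ t ∈ T, ∃ w ∈ W, g = t * w} := by
  obtain ⟨V, hV, h1⟩ := hT
  obtain ⟨W, hW, hWV⟩ := exists_split hV
  refine ⟨W, hW, W, hW, fun x ε hε => ?_⟩
  obtain ⟨V', hV', h2⟩ := h1 x ε hε
  refine ⟨V', hV', ?_⟩
  rintro _ ⟨t, ht, w, hw, rfl⟩ v hv v' hv'
  have := h2 t ht (w * v) (hWV w hw v hv) v' hv'
  rwa [← mul_assoc] at this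

/-- right multiplication by a group element -/
theorem adm_translate {b : H → ℝ} {T : Set H} (hT : Adm b T) (h₀ : H) :
    Adm b {g | ∃ t ∈ T, g = t * h₀} := by
  obtain ⟨V, hV, h1⟩ := hT
  have hconj : Tendsto (fun v : H => h₀ * v * h₀⁻¹) (𝓝 1) (𝓝 1) := by
    have : Tendsto (fun h : H => h₀ * h * h₀⁻¹) (𝓝 1) (𝓝 (h₀ * 1 * h₀⁻¹)) :=
      ((continuous_const.mul continuous_id).mul continuous_const).tendsto _
    rwa [mul_one, mul_inv_cancel] at this
  refine ⟨_, hconj hV, fun x ε hε => ?_⟩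
  obtain ⟨V', hV', h2⟩ := h1 (h₀ * x) ε hε
  refine ⟨_, hconj hV', ?_⟩
  rintro _ ⟨t, ht, rfl⟩ v hv v' hv'
  have h3 := h2 t ht _ hv _ hv'
  have e1 : t * (h₀ * v * h₀⁻¹) * (h₀ * v' * h₀⁻¹) * (h₀ * x) = t * h₀ * v * v' * x := by group
  have e2 : t * (h₀ * v * h₀⁻¹) * (h₀ * x) = t * h₀ * v * x := by group
  rwa [e1, e2] at h3

/-- basic neighbourhoods -/
def UB (b : H → ℝ) (T : Set H) (ε : ℝ) (W : Set H) : Set (K0 H) :=
  {x | (∀ t ∈ T, |pair (fun y => b (t * y)) x.a| ≤ ε) ∧ x.h ∈ W}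

theorem pair_tr' (b : H → ℝ) (t h : H) (a : H →₀ ℝ) :
    pair (fun y => b (t * y)) (tr h a) = pair (fun y => b (t * h * y)) a := by
  rw [pair_tr]
  congr 2
  funext y
  rw [mul_assoc]

/-- moving a finitely supported function by a small element -/
theorem pair_move' {b : H → ℝ} {T : Set H} (hT : Adm b T) (a : H →₀ ℝ) {ε : ℝ} (hε : 0 < ε) :
    ∀ᶠ g in 𝓝 (1 : H), ∀ t ∈ T, |pair (fun y => b (t * y)) (a - tr g a)| ≤ ε := by
  have hsz := sz_nonneg a
  have hδ : 0 < ε / (sz a + 1) := by positivity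
  have h1 : ∀ᶠ g in 𝓝 (1 : H), ∀ y ∈ a.support, ∀ t ∈ T,
      |b (t * g * y) - b (t * y)| ≤ ε / (sz a + 1) :=
    (Filter.eventually_all_finset a.support).2 fun y _ => adm_point hT y hδ
  filter_upwards [h1] with g hg t ht
  rw [map_sub, pair_tr']
  unfold pair
  rw [Finsupp.linearCombination_apply, Finsupp.linearCombination_apply, ← Finsupp.sum_sub]
  unfold Finsupp.sum
  calc |∑ y ∈ a.support, (a y • b (t * y) - a y • b (t * g * y))|
      ≤ ∑ y ∈ a.support, |a y • b (t * y) - a y • b (t * g * y)| :=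
        Finset.abs_sum_le_sum_abs _ _
    _ ≤ ∑ y ∈ a.support, |a y| * (ε / (sz a + 1)) := by
        refine Finset.sum_le_sum fun y hy => ?_
        rw [smul_eq_mul, smul_eq_mul, ← mul_sub, abs_mul, abs_sub_comm]
        exact mul_le_mul_of_nonneg_left (hg y hy t ht) (abs_nonneg _)
    _ = sz a * (ε / (sz a + 1)) := by
        rw [← Finset.sum_mul]; rfl
    _ ≤ (sz a + 1) * (ε / (sz a + 1)) :=
        mul_le_mul_of_nonneg_right (by linarith) hδ.le
    _ = ε := by field_simp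

/-- the filter basis -/
noncomputable def basisB (b : H → ℝ) : GroupFilterBasis (K0 H) where
  sets := {U | ∃ T, Adm b T ∧ ∃ ε : ℝ, 0 < ε ∧ ∃ W ∈ 𝓝 (1 : H), U = UB b T ε W}
  nonempty := ⟨_, ∅, adm_empty b, 1, one_pos, Set.univ, univ_mem, rfl⟩
  inter_sets := by
    rintro _ _ ⟨T, hT, ε, hε, W, hW, rfl⟩ ⟨T', hT', δ, hδ, V, hV, rfl⟩
    refine ⟨_, ⟨T ∪ T', adm_union hT hT', min ε δ, lt_min hε hδ, W ∩ V, inter_mem hW hV, rfl⟩, ?_⟩
    rintro x ⟨hx1, hx2⟩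
    exact ⟨⟨fun t ht => (hx1 t (Or.inl ht)).trans (min_le_left _ _), hx2.1⟩,
      ⟨fun t ht => (hx1 t (Or.inr ht)).trans (min_le_right _ _), hx2.2⟩⟩
  one' := by
    rintro _ ⟨T, hT, ε, hε, W, hW, rfl⟩
    refine ⟨fun t _ => ?_, mem_of_mem_nhds hW⟩
    rw [one_a, map_zero, abs_zero]; exact hε.le
  mul' := by
    rintro _ ⟨T, hT, ε, hε, W, hW, rfl⟩
    obtain ⟨V₁, hV₁, hA⟩ := adm_mul hT
    obtain ⟨V, hV, hVW⟩ := exists_split hW
    refine ⟨_, ⟨_, hA, ε / 2, half_pos hε, V ∩ V₁, inter_mem hV hV₁, rfl⟩, ?_⟩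
    rintro _ ⟨x, ⟨hx1, hx2⟩, y, ⟨hy1, hy2⟩, rfl⟩
    refine ⟨fun t ht => ?_, hVW _ hx2.1 _ hy2.1⟩
    dsimp only
    rw [mul_a, map_add, pair_tr']
    have h2 := hx1 t ⟨t, ht, 1, mem_of_mem_nhds hV₁, (mul_one t).symm⟩
    have h3 := hy1 (t * x.h) ⟨t, ht, x.h, hx2.2, rfl⟩
    exact (abs_add_le _ _).trans (by linarith)
  inv' := by
    rintro _ ⟨T, hT, ε, hε, W, hW, rfl⟩
    obtain ⟨V₁, hV₁, hA⟩ := adm_mul hT
    have h1 : ∀ᶠ h in 𝓝 (1 : H), h⁻¹ ∈ W ∧ h⁻¹ ∈ V₁ := by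
      have : Tendsto (fun h : H => h⁻¹) (𝓝 1) (𝓝 (1 : H)⁻¹) := continuous_inv.tendsto _
      rw [inv_one] at this
      exact this.eventually (inter_mem hW hV₁)
    refine ⟨_, ⟨_, hA, ε, hε, _, h1, rfl⟩, ?_⟩
    rintro x ⟨hx1, hx2, hx3⟩
    refine ⟨fun t ht => ?_, hx2⟩
    rw [inv_a, map_neg, abs_neg, pair_tr']
    exact hx1 _ ⟨t, ht, _, hx3, rfl⟩
  conj' := by
    rintro x₀ _ ⟨T, hT, ε, hε, W, hW, rfl⟩
    have hmv := pair_move' hT x₀.a (half_pos hε)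
    have h1 : ∀ᶠ h in 𝓝 (1 : H), x₀.h * h * x₀.h⁻¹ ∈ W ∩
        {g | ∀ t ∈ T, |pair (fun y => b (t * y)) (x₀.a - tr g x₀.a)| ≤ ε / 2} := by
      have : Tendsto (fun h : H => x₀.h * h * x₀.h⁻¹) (𝓝 1) (𝓝 (x₀.h * 1 * x₀.h⁻¹)) :=
        ((continuous_const.mul continuous_id).mul continuous_const).tendsto _
      rw [mul_one, mul_inv_cancel] at this
      exact this.eventually (inter_mem hW hmv)
    refine ⟨_, ⟨_, adm_translate hT x₀.h, ε / 2, half_pos hε, _, h1, rfl⟩, ?_⟩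
    rintro x ⟨hx1, hx2, hx3⟩
    refine ⟨fun t ht => ?_, hx2⟩
    have e1 : (x₀ * x * x₀⁻¹).a = tr x₀.h x.a + (x₀.a - tr (x₀.h * x.h * x₀.h⁻¹) x₀.a) := by
      rw [mul_a, mul_a, inv_a, mul_h, map_neg, ← tr_mul]
      abel
    rw [e1, map_add, pair_tr']
    have h2 := hx1 _ ⟨t, ht, rfl⟩
    have h3 := hx3 t ht
    exact (abs_add_le _ _).trans (by linarith)

/-- the general criterion -/
theorem exists_pair_of_fun (S : Subgroup H) (b : H → ℝ) (hbS : ∀ x, ∀ s ∈ S, b (x * s) = b x)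
    (hb : ∃ W ∈ 𝓝 (1 : H), ∀ (x : H) (ε : ℝ), 0 < ε → ∃ V ∈ 𝓝 (1 : H), ∀ w ∈ W, ∀ v ∈ V,
      |b (w * v * x) - b (w * x)| ≤ ε) (h : H) (hh : b h ≠ b 1) :
    ∃ (K : Type u) (_ : Group K) (_ : TopologicalSpace K) (_ : IsTopologicalGroup K)
      (_ : T2Space K) (φ₁ φ₂ : H →* K), Continuous φ₁ ∧ Continuous φ₂ ∧
      (∀ s ∈ S, φ₁ s = φ₂ s) ∧ φ₁ ≠ φ₂ := by
  letI : TopologicalSpace (K0 H) := (basisB b).topology
  haveI : IsTopologicalGroup (K0 H) := (basisB b).isTopologicalGroup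
  have hA1 : Adm b {(1 : H)} := by
    obtain ⟨W, hW, h1⟩ := hb
    refine ⟨W, hW, fun x ε hε => ?_⟩
    obtain ⟨V, hV, h2⟩ := h1 x ε hε
    refine ⟨V, hV, ?_⟩
    rintro t rfl v hv v' hv'
    rw [one_mul]
    exact h2 v hv v' hv'
  let f₁ : H →* K0 H :=
    { toFun := fun h => ⟨0, h⟩
      map_one' := rfl
      map_mul' := fun x y => by
        ext1
        · simp only [mul_a, map_zero, add_zero]
        · simp only [mul_h] }
  let f₂ : H →* K0 H :=
    { toFun := fun h => ⟨coc h, h⟩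
      map_one' := by
        ext1
        · simp only [coc, sub_self, one_a]
        · rfl
      map_mul' := fun x y => by
        ext1
        · simp only [mul_a, coc, map_sub, tr_single, mul_one]
          abel
        · simp only [mul_h] }
  have hbasis : ∀ U ∈ 𝓝 (1 : K0 H), ∃ T, Adm b T ∧ ∃ ε : ℝ, 0 < ε ∧ ∃ W ∈ 𝓝 (1 : H),
      UB b T ε W ⊆ U := by
    intro U hU
    obtain ⟨V, ⟨T, hT, ε, hε, W, hW, rfl⟩, hVU⟩ := (basisB b).nhds_one_hasBasis.mem_iff.1 hU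
    exact ⟨T, hT, ε, hε, W, hW, hVU⟩
  have hc₁ : Continuous f₁ := by
    refine continuous_of_continuousAt_one f₁ ?_
    intro U hU
    rw [map_one] at hU
    obtain ⟨T, hT, ε, hε, W, hW, hUU⟩ := hbasis U hU
    rw [mem_map]
    filter_upwards [hW] with h hh
    refine hUU ⟨fun b _ => ?_, hh⟩
    have : (f₁ h).a = 0 := rfl
    rw [this, map_zero, abs_zero]; exact hε.le
  have hc₂ : Continuous f₂ := by
    refine continuous_of_continuousAt_one f₂ ?_
    intro U hU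
    rw [map_one] at hU
    obtain ⟨T, hT, ε, hε, W, hW, hUU⟩ := hbasis U hU
    rw [mem_map]
    filter_upwards [hW, adm_point hT 1 hε] with h hh hh2
    refine hUU ⟨fun t ht => ?_, hh⟩
    have : (f₂ h).a = coc h := rfl
    rw [this]
    unfold coc
    rw [map_sub, pair_single, pair_single, one_mul, one_mul, abs_sub_comm]
    have h3 := hh2 t ht
    rwa [mul_one, mul_one] at *
  let π : K0 H →* SeparationQuotient (K0 H) :=
    { toFun := SeparationQuotient.mk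
      map_one' := rfl
      map_mul' := fun _ _ => rfl }
  refine ⟨SeparationQuotient (K0 H), inferInstance, inferInstance, inferInstance, inferInstance,
    π.comp f₁, π.comp f₂, SeparationQuotient.continuous_mk.comp hc₁,
    SeparationQuotient.continuous_mk.comp hc₂, fun s hs => ?_, ?_⟩
  · -- agreement on `S`
    change SeparationQuotient.mk (f₁ s) = SeparationQuotient.mk (f₂ s)
    rw [SeparationQuotient.mk_eq_mk]
    have h1 : (f₂ s * (f₁ s)⁻¹) ⤳ (1 : K0 H) := by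
      rw [specializes_iff_pure]
      intro U hU
      obtain ⟨T, hT, ε, hε, W, hW, hUU⟩ := hbasis U hU
      refine hUU ⟨fun t ht => ?_, ?_⟩
      · have e1 : (f₂ s * (f₁ s)⁻¹).a = coc s := by
          rw [mul_a, inv_a]
          change coc s + tr s (-tr s⁻¹ 0) = coc s
          simp
        rw [e1]
        unfold coc
        rw [map_sub, pair_single, pair_single, hbS t s hs, mul_one, sub_self, abs_zero]
        exact hε.le
      · have e2 : (f₂ s * (f₁ s)⁻¹).h = 1 := by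
          rw [mul_h, inv_h]
          change s * s⁻¹ = 1
          exact mul_inv_cancel s
        rw [e2]; exact mem_of_mem_nhds hW
    have h2 : Inseparable (f₂ s * (f₁ s)⁻¹) 1 := h1.inseparable
    have h3 := h2.mul (Inseparable.refl (f₁ s))
    rw [inv_mul_cancel_right, one_mul] at h3
    exact h3.symm
  · -- they differ at `h`
    intro heq
    have h1 : SeparationQuotient.mk (f₁ h) = SeparationQuotient.mk (f₂ h) := DFunLike.congr_fun heq h
    rw [SeparationQuotient.mk_eq_mk] at h1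
    have h2 := h1.symm.mul (Inseparable.refl (f₁ h)⁻¹)
    rw [mul_inv_cancel] at h2
    have hi : 0 < |b 1 - b h| := abs_pos.2 (sub_ne_zero.2 hh.symm)
    have h3 : UB b {(1 : H)} (|b 1 - b h| / 2) Set.univ ∈ 𝓝 (1 : K0 H) :=
      (basisB b).nhds_one_hasBasis.mem_of_mem ⟨_, hA1, _, half_pos hi, Set.univ, univ_mem, rfl⟩
    rw [← h2.nhds_eq] at h3
    have h4 := (mem_of_mem_nhds h3).1 1 rfl
    have e1 : (f₂ h * (f₁ h)⁻¹).a = coc h := by
      rw [mul_a, inv_a]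
      change coc h + tr h (-tr h⁻¹ 0) = coc h
      simp
    rw [e1] at h4
    unfold coc at h4
    rw [map_sub, pair_single, pair_single, one_mul, one_mul, one_mul, one_mul] at h4
    linarith

end

end Pool.Agent.H865R3.Mu
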