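import Pool.Agent.H865R3.Mu4

set_option autoImplicit false

/-!
Closed subgroups acting locally equicontinuously by conjugation, for instance locally compact
ones, are not epimorphic.
-/

namespace Pool.Agent.H865R3.Mu

open Filter Topology

universe u v

/-- a pseudometric from a sequence of relations -/
theorem exists_dist {X : Type u} (s : ℕ → Set (X × X)) (hr : ∀ n x, (x, x) ∈ s n)
    (hs : ∀ n x y, (x, y) ∈ s n → (y, x) ∈ s n)
    (hc : ∀ n x y z, (x, y) ∈ s (n + 1) → (y, z) ∈ s (n + 1) → (x, z) ∈ s n) :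
    ∃ d : X → X → ℝ, (∀ x, d x x = 0) ∧ (∀ x y, 0 ≤ d x y) ∧
      (∀ x y z, |d x z - d y z| ≤ d x y) ∧
      (∀ n, ∃ δ : ℝ, 0 < δ ∧ ∀ x y, d x y < δ → (x, y) ∈ s n) ∧
      (∀ ε : ℝ, 0 < ε → ∃ n, ∀ x y, (x, y) ∈ s n → d x y < ε) := by
  have hmono : ∀ n, s (n + 1) ⊆ s n := by
    rintro n ⟨x, y⟩ hxy
    exact hc n x y y hxy (hr _ _)
  have hanti : Antitone s := antitone_nat_of_succ_le hmono
  let B : FilterBasis (X × X) :=
    { sets := Set.range s
      nonempty := ⟨_, 0, rfl⟩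
      inter_sets := by
        rintro _ _ ⟨m, rfl⟩ ⟨n, rfl⟩
        exact ⟨_, ⟨max m n, rfl⟩, Set.subset_inter (hanti (le_max_left _ _))
          (hanti (le_max_right _ _))⟩ }
  let c : UniformSpace.Core X := UniformSpace.Core.mkOfBasis B
    (by rintro _ ⟨n, rfl⟩ x; exact hr n x)
    (by rintro _ ⟨n, rfl⟩; exact ⟨_, ⟨n, rfl⟩, fun p hp => hs n _ _ hp⟩)
    (by
      rintro _ ⟨n, rfl⟩
      refine ⟨_, ⟨n + 1, rfl⟩, ?_⟩
      rintro ⟨x, z⟩ ⟨y, h1, h2⟩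
      exact hc n x y z h1 h2)
  letI u : UniformSpace X := UniformSpace.ofCore c
  have hu : uniformity X = B.filter := rfl
  haveI : (uniformity X).IsCountablyGenerated := by
    rw [hu]
    exact ⟨⟨Set.range s, Set.countable_range s, (FilterBasis.generate B).symm⟩⟩
  letI m : PseudoMetricSpace X := UniformSpace.pseudoMetricSpace X
  refine ⟨fun x y => dist x y, fun x => dist_self x, fun x y => dist_nonneg,
    fun x y z => abs_dist_sub_le x y z, fun n => ?_, fun ε hε => ?_⟩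
  · have h1 : s n ∈ uniformity X := by
      rw [hu]
      exact B.mem_filter_of_mem ⟨n, rfl⟩
    obtain ⟨δ, hδ, h2⟩ := Metric.mem_uniformity_dist.1 h1
    exact ⟨δ, hδ, fun x y h => h2 h⟩
  · have h1 : {p : X × X | dist p.1 p.2 < ε} ∈ uniformity X := Metric.dist_mem_uniformity hε
    rw [hu, B.mem_filter_iff] at h1
    obtain ⟨_, ⟨n, rfl⟩, h2⟩ := h1
    exact ⟨n, fun x y h => h2 h⟩

variable {H : Type u} [Group H] [TopologicalSpace H] [IsTopologicalGroup H]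

theorem exists_sym {A : Set H} (hA : A ∈ 𝓝 (1 : H)) :
    ∃ B ∈ 𝓝 (1 : H), (∀ x ∈ B, x⁻¹ ∈ B) ∧ ∀ x ∈ B, ∀ y ∈ B, x * y ∈ A := by
  obtain ⟨W, hW, hWA⟩ := exists_split hA
  have h1 : {x : H | x⁻¹ ∈ W} ∈ 𝓝 (1 : H) := by
    have : Tendsto (fun h : H => h⁻¹) (𝓝 1) (𝓝 (1 : H)⁻¹) := continuous_inv.tendsto _
    rw [inv_one] at this
    exact this hW
  refine ⟨W ∩ {x : H | x⁻¹ ∈ W}, inter_mem hW h1, fun x hx => ⟨hx.2, ?_⟩,
    fun x hx y hy => hWA x hx.1 y hy.1⟩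
  change x⁻¹⁻¹ ∈ W
  rw [inv_inv]; exact hx.1

/-- left uniformly continuous bump functions -/
theorem exists_bump {O : Set H} (hO : O ∈ 𝓝 (1 : H)) :
    ∃ Φ : H → ℝ, Φ 1 = 0 ∧ (∀ g, 0 ≤ Φ g) ∧ (∀ g, Φ g ≤ 1) ∧ (∀ g, g ∉ O → Φ g = 1) ∧
      ∀ ε : ℝ, 0 < ε → ∃ V ∈ 𝓝 (1 : H), ∀ g, ∀ v ∈ V, |Φ (g * v) - Φ g| ≤ ε := by
  choose! F hF1 hF2 hF3 using fun (A : Set H) (hA : A ∈ 𝓝 (1 : H)) => exists_sym hA
  have hseq : ∃ V : ℕ → Set H, V 0 = O ∧ ∀ n, V (n + 1) = F (V n) :=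
    ⟨fun n => Nat.rec O (fun _ A => F A) n, rfl, fun n => rfl⟩
  obtain ⟨V, hV0, hVs⟩ := hseq
  have hVn : ∀ n, V n ∈ 𝓝 (1 : H) := by
    intro n
    induction n with
    | zero => rw [hV0]; exact hO
    | succ n ih => rw [hVs]; exact hF1 _ ih
  have hsy : ∀ n, ∀ x ∈ V (n + 1), x⁻¹ ∈ V (n + 1) := by
    intro n x hx
    rw [hVs] at hx ⊢
    exact hF2 _ (hVn n) x hx
  have hmu : ∀ n, ∀ x ∈ V (n + 1), ∀ y ∈ V (n + 1), x * y ∈ V n := by
    intro n x hx y hy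
    rw [hVs] at hx hy
    exact hF3 _ (hVn n) x hx y hy
  obtain ⟨d, hd0, hdn, hdt, hds, hde⟩ := exists_dist
    (fun n => {p : H × H | p.1⁻¹ * p.2 ∈ V (n + 1)})
    (fun n x => by
      change x⁻¹ * x ∈ V (n + 1)
      rw [inv_mul_cancel]; exact mem_of_mem_nhds (hVn _))
    (fun n x y h => by
      have h1 : x⁻¹ * y ∈ V (n + 1) := h
      have h2 := hsy n _ h1
      change y⁻¹ * x ∈ V (n + 1)
      rwa [mul_inv_rev, inv_inv] at h2)
    (fun n x y z h1 h2 => by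
      have h3 := hmu (n + 1) _ h1 _ h2
      change x⁻¹ * z ∈ V (n + 1)
      have e : x⁻¹ * y * (y⁻¹ * z) = x⁻¹ * z := by group
      simp only [e] at h3
      exact h3)
  obtain ⟨δ, hδ, hδ2⟩ := hds 0
  refine ⟨fun g => min 1 (d g 1 / δ), ?_, fun g => ?_, fun g => min_le_left _ _, fun g hg => ?_,
    fun ε hε => ?_⟩
  · change min 1 (d 1 1 / δ) = 0
    rw [hd0, zero_div]
    exact min_eq_right zero_le_one
  · exact le_min zero_le_one (div_nonneg (hdn _ _) hδ.le)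
  · refine min_eq_left ?_
    rw [le_div_iff₀ hδ, one_mul]
    by_contra hlt
    have h1 : g⁻¹ * 1 ∈ V (0 + 1) := hδ2 _ _ (not_le.1 hlt)
    rw [mul_one] at h1
    have h2 := hsy 0 _ h1
    rw [inv_inv] at h2
    have h3 := hmu 0 _ h2 _ (mem_of_mem_nhds (hVn (0 + 1)))
    rw [mul_one, hV0] at h3
    exact hg h3
  · obtain ⟨n, hn⟩ := hde (ε * δ) (mul_pos hε hδ)
    refine ⟨V (n + 1), hVn _, fun g v hv => ?_⟩
    have h1 : d g (g * v) < ε * δ := by
      refine hn _ _ ?_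
      change g⁻¹ * (g * v) ∈ V (n + 1)
      rwa [inv_mul_cancel_left]
    have h2 := hdt g (g * v) 1
    have h3 : |d (g * v) 1 / δ - d g 1 / δ| ≤ ε := by
      rw [← sub_div, abs_div, abs_of_pos hδ, div_le_iff₀ hδ, abs_sub_comm]
      exact h2.trans h1.le
    exact (abs_min_sub_min_le_max 1 (d (g * v) 1 / δ) 1 (d g 1 / δ)).trans
      (max_le (by rw [sub_self, abs_zero]; exact hε.le) h3)

/-- the elements of `S` near the identity act equicontinuously on `H` by conjugation -/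
def LocEquiConj (S : Subgroup H) : Prop :=
  ∃ C ∈ 𝓝 (1 : H), ∀ U ∈ 𝓝 (1 : H), ∃ V ∈ 𝓝 (1 : H), ∀ s ∈ S, s ∈ C → ∀ v ∈ V, s⁻¹ * v * s ∈ U

theorem locEquiConj_of_locallyCompact (S : Subgroup H) [LocallyCompactSpace S] :
    LocEquiConj S := by
  obtain ⟨K, hK, hK1⟩ := exists_compact_mem_nhds (1 : S)
  rw [nhds_subtype_eq_comap, mem_comap] at hK1
  obtain ⟨C, hC, hCK⟩ := hK1
  refine ⟨C, hC, fun U hU => ?_⟩
  have h1 : ∀ᶠ v in 𝓝 (1 : H), ∀ s ∈ K, (s : H)⁻¹ * v * (s : H) ∈ U := by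
    refine hK.eventually_forall_of_forall_eventually
      (P := fun (v : H) (s : S) => (s : H)⁻¹ * v * (s : H) ∈ U) ?_
    intro s _
    have hcont : Continuous (fun z : H × S => (z.2 : H)⁻¹ * z.1 * (z.2 : H)) := by
      fun_prop
    have h2 := hcont.tendsto ((1 : H), s)
    simp only [mul_one, inv_mul_cancel] at h2
    exact h2 hU
  refine ⟨_, h1, fun s hs hsC v hv => ?_⟩
  exact hv ⟨s, hs⟩ (hCK hsC)

/-- the test function for a closed subgroup -/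
theorem exists_fun (S : Subgroup H) (hS : IsClosed (S : Set H)) (hE : LocEquiConj S) {h : H}
    (hh : h ∉ S) :
    ∃ b : H → ℝ, (∀ x, ∀ s ∈ S, b (x * s) = b x) ∧
      (∃ W ∈ 𝓝 (1 : H), ∀ (x : H) (ε : ℝ), 0 < ε → ∃ V ∈ 𝓝 (1 : H), ∀ w ∈ W, ∀ v ∈ V,
        |b (w * v * x) - b (w * x)| ≤ ε) ∧ b h ≠ b 1 := by
  obtain ⟨C, hC, hCE⟩ := hE
  -- small neighbourhoods
  obtain ⟨D, hD, hDs, hDC⟩ := exists_sym hC
  obtain ⟨P, hP, hPs, hPD⟩ := exists_sym hD
  obtain ⟨W, hW, hWs, hWP⟩ := exists_sym hP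
  have hO1 : {u : H | h⁻¹ * u ∉ S} ∈ 𝓝 (1 : H) := by
    have h1 : Tendsto (fun u : H => h⁻¹ * u) (𝓝 1) (𝓝 (h⁻¹ * 1)) :=
      (continuous_const.mul continuous_id).tendsto _
    rw [mul_one] at h1
    refine h1 (hS.isOpen_compl.mem_nhds ?_)
    intro h2
    exact hh (by have := S.inv_mem h2; rwa [inv_inv] at this)
  obtain ⟨Φ, hΦ1, hΦ0, hΦl, hΦO, hΦc⟩ := exists_bump (inter_mem hP hO1)
  have hWinP : ∀ w ∈ W, w ∈ P := fun w hw => by
    have := hWP w hw 1 (mem_of_mem_nhds hW)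
    rwa [mul_one] at this
  have hbdd : ∀ x, BddBelow (Set.range fun s : S => Φ (x * s)) := fun x =>
    ⟨0, by rintro _ ⟨s, rfl⟩; exact hΦ0 _⟩
  have hle1 : ∀ x, (⨅ s : S, Φ (x * s)) ≤ 1 := fun x =>
    (ciInf_le (hbdd x) 1).trans (hΦl _)
  refine ⟨fun x => ⨅ s : S, Φ (x * s), ?_, ⟨W, hW, fun x ε hε => ?_⟩, ?_⟩
  · intro x s hs
    have : (fun t : S => Φ (x * s * t)) = (fun t : S => Φ (x * t)) ∘
        (Equiv.mulLeft (⟨s, hs⟩ : S)) := by
      funext t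
      simp [mul_assoc]
    dsimp only
    rw [this]
    exact Equiv.iInf_comp (g := fun t : S => Φ (x * t)) (Equiv.mulLeft (⟨s, hs⟩ : S))
  · obtain ⟨Vε, hVε, hVε2⟩ := hΦc ε hε
    -- uniform estimate
    have hkey : ∃ V ∈ 𝓝 (1 : H), ∀ w ∈ W, ∀ v ∈ V, v ∈ W ∧ ∀ s ∈ S, x * s ∈ D →
        |Φ (w * v * x * s) - Φ (w * x * s)| ≤ ε := by
      by_cases hex : ∃ s₀ ∈ S, x * s₀ ∈ D
      · obtain ⟨s₀, hs₀, hx₀⟩ := hex
        obtain ⟨VC, hVC, hVC2⟩ := hCE Vε hVε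
        have hcont : Tendsto (fun v : H => (x * s₀)⁻¹ * v * (x * s₀)) (𝓝 1) (𝓝 1) := by
          have : Tendsto (fun v : H => (x * s₀)⁻¹ * v * (x * s₀)) (𝓝 1)
              (𝓝 ((x * s₀)⁻¹ * 1 * (x * s₀))) :=
            ((continuous_const.mul continuous_id).mul continuous_const).tendsto _
          rwa [mul_one, inv_mul_cancel] at this
        refine ⟨_, inter_mem hW (hcont hVC), fun w _ v hv => ⟨hv.1, fun s hs hxs => ?_⟩⟩
        have hcC : s₀⁻¹ * s ∈ C := by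
          have := hDC _ (hDs _ hx₀) _ hxs
          have e : (x * s₀)⁻¹ * (x * s) = s₀⁻¹ * s := by group
          rwa [e] at this
        have h1 := hVC2 (s₀⁻¹ * s) (S.mul_mem (S.inv_mem hs₀) hs) hcC _ hv.2
        have h2 := hVε2 (w * x * s) _ h1
        have e : w * x * s * ((s₀⁻¹ * s)⁻¹ * ((x * s₀)⁻¹ * v * (x * s₀)) * (s₀⁻¹ * s)) =
            w * v * x * s := by group
        rwa [e] at h2
      · refine ⟨W, hW, fun w _ v hv => ⟨hv, fun s hs hxs => absurd ⟨s, hs, hxs⟩ hex⟩⟩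
    obtain ⟨V, hV, hV2⟩ := hkey
    refine ⟨V, hV, fun w hw v hv => ?_⟩
    obtain ⟨hvW, hest⟩ := hV2 w hw v hv
    have hPinv : ∀ p ∈ P, ∀ y, p * y ∈ P → y ∈ D := by
      intro p hp y hy
      have := hPD _ (hPs _ hp) _ hy
      rwa [inv_mul_cancel_left] at this
    dsimp only
    rw [abs_le]
    constructor
    · -- `F (w x) ≤ F (w v x) + ε`
      have h1 : (⨅ s : S, Φ (w * x * s)) - ε ≤ ⨅ s : S, Φ (w * v * x * s) := by
        refine le_ciInf fun s => ?_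
        by_cases hO : w * v * x * s ∈ P ∩ {u : H | h⁻¹ * u ∉ S}
        · have h2 : x * s ∈ D := by
            refine hPinv (w * v) (hWP _ hw _ hvW) _ ?_
            rw [← mul_assoc]; exact hO.1
          have h3 := abs_le.1 (hest s s.2 h2)
          have h4 := ciInf_le (hbdd (w * x)) s
          linarith [h3.1]
        · rw [hΦO _ hO]
          have := hle1 (w * x)
          linarith
      linarith
    · have h1 : (⨅ s : S, Φ (w * v * x * s)) - ε ≤ ⨅ s : S, Φ (w * x * s) := by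
        refine le_ciInf fun s => ?_
        by_cases hO : w * x * s ∈ P ∩ {u : H | h⁻¹ * u ∉ S}
        · have h2 : x * s ∈ D := by
            refine hPinv w (hWinP _ hw) _ ?_
            rw [← mul_assoc]; exact hO.1
          have h3 := abs_le.1 (hest s s.2 h2)
          have h4 := ciInf_le (hbdd (w * v * x)) s
          linarith [h3.2]
        · rw [hΦO _ hO]
          have := hle1 (w * v * x)
          linarith
      linarith
  · have h1 : (⨅ s : S, Φ (1 * s)) = 0 := by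
      refine le_antisymm ?_ (Real.iInf_nonneg fun s => hΦ0 _)
      have := ciInf_le (hbdd 1) (1 : S)
      simpa [hΦ1] using this
    have h2 : (⨅ s : S, Φ (h * s)) = 1 := by
      have h3 : ∀ s : S, Φ (h * s) = 1 := by
        intro s
        refine hΦO _ fun h4 => h4.2 ?_
        rw [inv_mul_cancel_left]; exact s.2
      simp only [h3, ciInf_const]
    dsimp only
    rw [h1, h2]
    exact one_ne_zero

end Pool.Agent.H865R3.Mu
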