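import Pool.Agent.H865R3.Mu5
import Pool.Agent.H865R3.Mu2

set_option autoImplicit false

/-!
Stabilisers of points for `C^1` actions on Banach manifolds are not epimorphic.
-/

namespace Pool.Agent.H865R3.Mu

open Filter Topology Pool.Agent.H865R3

universe u v w z

section
variable {H : Type u} [Group H] [TopologicalSpace H] [IsTopologicalGroup H]
  {X : Type v} [TopologicalSpace X] [MulAction H X] [ContinuousSMul H X]
  {B : Type w} [NormedAddCommGroup B]

/-- the action is uniformly Lipschitz near the point `x₀`, in the chart `e` -/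
def LocLip (H : Type u) [Group H] [TopologicalSpace H] {X : Type v} [TopologicalSpace X]
    [MulAction H X] {B : Type w} [NormedAddCommGroup B] (e : OpenPartialHomeomorph X B) (x₀ : X) :
    Prop :=
  ∃ W ∈ 𝓝 (1 : H), ∃ R : ℝ, 0 < R ∧ ∃ L : ℝ, 0 ≤ L ∧ ∀ w ∈ W, ∀ x ∈ e.source, ∀ y ∈ e.source,
    ‖e x - e x₀‖ < R → ‖e y - e x₀‖ < R →
      w • x ∈ e.source ∧ w • y ∈ e.source ∧ ‖e (w • x) - e (w • y)‖ ≤ L * ‖e x - e y‖

open Classical in
/-- the bump function in a chart -/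
noncomputable def bump (e : OpenPartialHomeomorph X B) (x₀ : X) (r : ℝ) (x : X) : ℝ :=
  if x ∈ e.source then max 0 (1 - ‖e x - e x₀‖ / r) else 0

theorem bump_eq_zero {e : OpenPartialHomeomorph X B} {x₀ : X} {r : ℝ} (hr : 0 < r) {x : X}
    (h : ¬ (x ∈ e.source ∧ ‖e x - e x₀‖ < r)) : bump e x₀ r x = 0 := by
  unfold bump
  split_ifs with hx
  · have h1 : r ≤ ‖e x - e x₀‖ := by
      by_contra h2
      exact h ⟨hx, not_le.1 h2⟩
    refine max_eq_left ?_
    rw [sub_nonpos, le_div_iff₀ hr, one_mul]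
    exact h1
  · rfl

theorem bump_lip {e : OpenPartialHomeomorph X B} {x₀ : X} {r : ℝ} (hr : 0 < r) {x y : X}
    (hx : x ∈ e.source) (hy : y ∈ e.source) :
    |bump e x₀ r x - bump e x₀ r y| ≤ ‖e x - e y‖ / r := by
  unfold bump
  rw [if_pos hx, if_pos hy]
  refine (abs_max_sub_max_le_max 0 _ 0 _).trans (max_le ?_ ?_)
  · rw [sub_self, abs_zero]; positivity
  · have e1 : 1 - ‖e x - e x₀‖ / r - (1 - ‖e y - e x₀‖ / r) =
        (‖e y - e x₀‖ - ‖e x - e x₀‖) / r := by ring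
    rw [e1, abs_div, abs_of_pos hr]
    refine div_le_div_of_nonneg_right ?_ hr.le
    refine (abs_norm_sub_norm_le _ _).trans (le_of_eq ?_)
    rw [sub_sub_sub_cancel_right, norm_sub_rev]

theorem exists_fun_of_action {e : OpenPartialHomeomorph X B} {x₀ : X} (hx₀ : x₀ ∈ e.source)
    (hL : LocLip H e x₀) {h : H} (hh : h • x₀ ≠ x₀) :
    ∃ b : H → ℝ, (∀ x, ∀ s ∈ MulAction.stabilizer H x₀, b (x * s) = b x) ∧
      (∃ W ∈ 𝓝 (1 : H), ∀ (x : H) (ε : ℝ), 0 < ε → ∃ V ∈ 𝓝 (1 : H), ∀ w ∈ W, ∀ v ∈ V,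
        |b (w * v * x) - b (w * x)| ≤ ε) ∧ b h ≠ b 1 := by
  obtain ⟨W₁, hW₁, R, hR, L, hL0, hLip⟩ := hL
  -- joint continuity at `(1, x₀)`
  have hball : {x : X | x ∈ e.source ∧ ‖e x - e x₀‖ < R} ∈ 𝓝 x₀ := by
    have h1 : Tendsto (fun x => ‖e x - e x₀‖) (𝓝 x₀) (𝓝 ‖e x₀ - e x₀‖) :=
      ((e.continuousAt hx₀).tendsto.sub_const _).norm
    rw [sub_self, norm_zero] at h1
    exact inter_mem (e.open_source.mem_nhds hx₀) (h1 (gt_mem_nhds hR))
  have hjoint : Tendsto (fun z : H × X => z.1 • z.2) (𝓝 ((1 : H), x₀)) (𝓝 ((1 : H) • x₀)) :=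
    continuous_smul.tendsto _
  rw [one_smul] at hjoint
  obtain ⟨P, hP, N, hN, hPN⟩ := mem_nhds_prod_iff.1 (hjoint hball)
  obtain ⟨W₂, hW₂, hW₂s, hW₂P⟩ := exists_sym hP
  -- radius of the bump function
  obtain ⟨r, hr, hrN⟩ : ∃ r : ℝ, 0 < r ∧ ∀ x ∈ e.source, ‖e x - e x₀‖ < r → x ∈ N := by
    have h2 : e.target ∩ e.symm ⁻¹' N ∈ 𝓝 (e x₀) := by
      refine inter_mem (e.open_target.mem_nhds (e.map_source hx₀)) ?_
      refine e.continuousAt_symm (e.map_source hx₀) ?_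
      rwa [e.left_inv hx₀]
    obtain ⟨r, hr, h3⟩ := Metric.mem_nhds_iff.1 h2
    refine ⟨r, hr, fun x hx hlt => ?_⟩
    have h4 : e x ∈ e.target ∩ e.symm ⁻¹' N := h3 (by rwa [Metric.mem_ball, dist_eq_norm])
    have h5 := h4.2
    rwa [Set.mem_preimage, e.left_inv hx] at h5
  have hback : ∀ p : H, p⁻¹ ∈ P → ∀ x : X, (p • x ∈ e.source ∧ ‖e (p • x) - e x₀‖ < r) →
      x ∈ e.source ∧ ‖e x - e x₀‖ < R := by
    intro p hp x hx
    have h1 := hPN (Set.mk_mem_prod hp (hrN _ hx.1 hx.2))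
    simp only [Set.mem_preimage, inv_smul_smul] at h1
    exact h1
  refine ⟨fun g => bump e x₀ r (g • x₀), ?_, ⟨W₁ ∩ W₂, inter_mem hW₁ hW₂, fun g ε hε => ?_⟩, ?_⟩
  · intro x s hs
    rw [MulAction.mem_stabilizer_iff] at hs
    dsimp only
    rw [mul_smul, hs]
  · by_cases hg : g • x₀ ∈ e.source ∧ ‖e (g • x₀) - e x₀‖ < R
    · have hcont : Tendsto (fun v : H => v • (g • x₀)) (𝓝 1) (𝓝 ((1 : H) • (g • x₀))) :=
        (continuous_id.smul continuous_const).tendsto _
      rw [one_smul] at hcont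
      have h1 : ∀ᶠ x in 𝓝 (g • x₀), x ∈ e.source ∧ ‖e x - e x₀‖ < R ∧
          L * ‖e x - e (g • x₀)‖ < ε * r := by
        have h2 : Tendsto (fun x => ‖e x - e x₀‖) (𝓝 (g • x₀)) (𝓝 ‖e (g • x₀) - e x₀‖) :=
          ((e.continuousAt hg.1).tendsto.sub_const _).norm
        have h3 : Tendsto (fun x => L * ‖e x - e (g • x₀)‖) (𝓝 (g • x₀))
            (𝓝 (L * ‖e (g • x₀) - e (g • x₀)‖)) :=
          (((e.continuousAt hg.1).tendsto.sub_const _).norm).const_mul L
        rw [sub_self, norm_zero, mul_zero] at h3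
        exact (Filter.eventually_mem_set.2 (e.open_source.mem_nhds hg.1)).and
          ((h2.eventually (gt_mem_nhds hg.2)).and
            (h3.eventually (gt_mem_nhds (mul_pos hε hr))))
      refine ⟨_, hcont h1, fun w hw v hv => ?_⟩
      obtain ⟨hv1, hv2, hv3⟩ := hv
      obtain ⟨h4, h5, h6⟩ := hLip w hw.1 _ hv1 _ hg.1 hv2 hg.2
      dsimp only
      rw [mul_smul, mul_smul, mul_smul]
      refine (bump_lip hr h4 h5).trans ?_
      rw [div_le_iff₀ hr]
      exact h6.trans hv3.le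
    · refine ⟨W₂, hW₂, fun w hw v hv => ?_⟩
      dsimp only
      rw [bump_eq_zero hr, bump_eq_zero hr, sub_self, abs_zero]
      · exact hε.le
      · intro hcon
        rw [mul_smul] at hcon
        refine hg (hback w ?_ _ hcon)
        have := hW₂P _ (hW₂s _ hw.2) 1 (mem_of_mem_nhds hW₂)
        rwa [mul_one] at this
      · intro hcon
        rw [mul_smul] at hcon
        refine hg (hback (w * v) ?_ _ hcon)
        rw [mul_inv_rev]
        exact hW₂P _ (hW₂s _ hv) _ (hW₂s _ hw.2)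
  · have h1 : bump e x₀ r ((1 : H) • x₀) = 1 := by
      unfold bump
      rw [one_smul, if_pos hx₀, sub_self, norm_zero, zero_div, sub_zero]
      exact max_eq_right zero_le_one
    dsimp only
    rw [h1]
    unfold bump
    split_ifs with h2
    · have h3 : 0 < ‖e (h • x₀) - e x₀‖ := by
        rw [norm_pos_iff, sub_ne_zero]
        intro h4
        exact hh (e.injOn h2 hx₀ h4)
      have h4 : 0 < ‖e (h • x₀) - e x₀‖ / r := div_pos h3 hr
      exact ne_of_lt (max_lt one_pos (by linarith))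
    · exact zero_ne_one

end

section Lie

variable {E : Type z} [AddCommGroup E] [Module ℝ E] [TopologicalSpace E]
  [IsTopologicalAddGroup E] [ContinuousSMul ℝ E] [LocallyConvexSpace ℝ E]
  {H : Type u} [Group H] [TopologicalSpace H] [IsTopologicalGroup H]
  {X : Type v} [TopologicalSpace X] [MulAction H X] [ContinuousSMul H X]
  {B : Type w} [NormedAddCommGroup B] [NormedSpace ℝ B]

/-- a continuous seminorm on a normed space is bounded by a multiple of the norm -/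
theorem seminorm_le_norm (q : Seminorm ℝ B) (hq : Continuous q) :
    ∃ L : ℝ, 0 ≤ L ∧ ∀ x, q x ≤ L * ‖x‖ := by
  have h1 : {x : B | q x < 1} ∈ 𝓝 (0 : B) :=
    (isOpen_lt hq continuous_const).mem_nhds (by
      change q 0 < 1
      rw [map_zero]; exact one_pos)
  obtain ⟨δ, hδ, h2⟩ := Metric.mem_nhds_iff.1 h1
  refine ⟨2 / δ, by positivity, fun x => ?_⟩
  rcases eq_or_ne x 0 with rfl | hx
  · rw [map_zero, norm_zero, mul_zero]
  · have hn : 0 < ‖x‖ := norm_pos_iff.2 hx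
    have h3 : q ((δ / 2 / ‖x‖) • x) < 1 := by
      refine h2 ?_
      rw [mem_ball_zero_iff, norm_smul, Real.norm_of_nonneg (by positivity)]
      have : δ / 2 / ‖x‖ * ‖x‖ = δ / 2 := by field_simp
      rw [this]; linarith
    rw [map_smul_eq_mul, Real.norm_of_nonneg (by positivity)] at h3
    have h4 : q x = (2 / δ * ‖x‖) * (δ / 2 / ‖x‖ * q x) := by field_simp
    rw [h4]
    have h5 : 0 ≤ 2 / δ * ‖x‖ := by positivity
    calc 2 / δ * ‖x‖ * (δ / 2 / ‖x‖ * q x) ≤ 2 / δ * ‖x‖ * 1 :=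
          mul_le_mul_of_nonneg_left h3.le h5
      _ = 2 / δ * ‖x‖ := mul_one _

omit [IsTopologicalGroup H] in
/-- `C^1` actions are locally uniformly Lipschitz -/
theorem locLip_of_C1 {c : OpenPartialHomeomorph H E} (hc1 : (1 : H) ∈ c.source)
    {e : OpenPartialHomeomorph X B} {x₀ : X} (hx₀ : x₀ ∈ e.source)
    (hC : IsCk B 1 (E × B) (fun z : E × B => e (c.symm z.1 • e.symm z.2))
      {z | z.1 ∈ c.target ∧ z.2 ∈ e.target ∧ c.symm z.1 • e.symm z.2 ∈ e.source}) :
    LocLip H e x₀ := by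
  obtain ⟨_, dm, hd, hc⟩ := hC
  set Ω : Set (E × B) :=
    {z | z.1 ∈ c.target ∧ z.2 ∈ e.target ∧ c.symm z.1 • e.symm z.2 ∈ e.source} with hΩ
  have hopen : IsOpen Ω := by
    have h4 : ContinuousOn (fun z : E × B => c.symm z.1 • e.symm z.2)
        (c.target ×ˢ e.target) := by
      refine ContinuousOn.smul ?_ ?_
      · exact c.continuousOn_symm.comp continuousOn_fst (fun p hp => hp.1)
      · exact e.continuousOn_symm.comp continuousOn_snd (fun p hp => hp.2)
    have h5 := h4.isOpen_inter_preimage (c.open_target.prod e.open_target) e.open_source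
    have h6 : Ω = (c.target ×ˢ e.target) ∩
        (fun z : E × B => c.symm z.1 • e.symm z.2) ⁻¹' e.source := by
      ext p
      simp only [hΩ, Set.mem_ofPred_eq, Set.mem_inter_iff, Set.mem_prod, Set.mem_preimage]
      tauto
    rw [h6]
    exact h5
  have hmem : (c 1, e x₀) ∈ Ω := by
    refine ⟨c.map_source hc1, e.map_source hx₀, ?_⟩
    simp only [c.left_inv hc1, e.left_inv hx₀, one_smul]
    exact hx₀
  obtain ⟨Q, hQ, N, hN, hNΩ, hest⟩ := mean_value hopen hd hc hmem (normSeminorm ℝ B)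
    (by rw [coe_normSeminorm]; exact continuous_norm)
  obtain ⟨A, hA, D, hD, hAD⟩ := mem_nhds_prod_iff.1 hN
  obtain ⟨R, hR, hRD⟩ := Metric.mem_nhds_iff.1 hD
  obtain ⟨L, hL, hL2⟩ := seminorm_le_norm (Q.comp (LinearMap.inr ℝ E B))
    (hQ.comp (by fun_prop : Continuous fun x : B => ((0 : E), x)))
  refine ⟨c.source ∩ c ⁻¹' A, inter_mem (c.open_source.mem_nhds hc1) (c.continuousAt hc1 hA),
    R, hR, L, hL, ?_⟩
  intro w hw x hx y hy hxR hyR
  have hxD : e x ∈ D := hRD (by rwa [Metric.mem_ball, dist_eq_norm])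
  have hyD : e y ∈ D := hRD (by rwa [Metric.mem_ball, dist_eq_norm])
  have h1 := (hNΩ (hAD (Set.mk_mem_prod hw.2 hxD))).2.2
  have h2 := (hNΩ (hAD (Set.mk_mem_prod hw.2 hyD))).2.2
  simp only [c.left_inv hw.1, e.left_inv hx] at h1
  simp only [c.left_inv hw.1, e.left_inv hy] at h2
  refine ⟨h1, h2, ?_⟩
  have h3 := hest _ (hAD (Set.mk_mem_prod hw.2 hyD)) _ (hAD (Set.mk_mem_prod hw.2 hxD))
  simp only [c.left_inv hw.1, e.left_inv hx, e.left_inv hy, Prod.mk_sub_mk, sub_self,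
    coe_normSeminorm] at h3
  exact h3.trans (hL2 _)

end Lie

end Pool.Agent.H865R3.Mu
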