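import Pool.Agent.H865R3.Mu6

set_option autoImplicit false

/-!
Lie groups modelled on (possibly incomplete) normed spaces.
-/

namespace Pool.Agent.H865R3.Mu

open Filter Topology Pool.Agent.H865R3

universe u v

theorem locEquiConj_of_normed {E : Type v} [NormedAddCommGroup E] [NormedSpace ℝ E]
    {H : Type u} [Group H] [TopologicalSpace H] [IsTopologicalGroup H]
    (LH : LieStructure E H) (S : Subgroup H) : LocEquiConj S := by
  obtain ⟨e, he, h1⟩ := LH.cover 1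
  obtain ⟨q, hq, hev⟩ := conj_estimate LH he h1 (normSeminorm ℝ E)
    (by rw [coe_normSeminorm]; exact continuous_norm) 1
  have hinv : Tendsto (fun h : H => h⁻¹) (𝓝 1) (𝓝 1) := by
    have : Tendsto (fun h : H => h⁻¹) (𝓝 1) (𝓝 (1 : H)⁻¹) := continuous_inv.tendsto _
    rwa [inv_one] at this
  refine ⟨_, hinv hev, fun U hU => ?_⟩
  obtain ⟨q₂, hq₂, hsmall⟩ := exists_small h1 hU
  obtain ⟨L, hL, hL2⟩ := seminorm_le_norm q₂ hq₂
  have hpos : 0 < min 1 (1 / (L + 1)) := by positivity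
  have hV : ∀ᶠ g in 𝓝 (1 : H), g ∈ e.source ∧ q (e g - e 1) < min 1 (1 / (L + 1)) := by
    refine Filter.Eventually.and (e.open_source.mem_nhds h1) ?_
    have h2 : Tendsto (fun g => q (e g - e 1)) (𝓝 1) (𝓝 (q (e 1 - e 1))) :=
      (hq.tendsto _).comp ((e.continuousAt h1).tendsto.sub_const _)
    rw [sub_self, map_zero] at h2
    exact h2.eventually (gt_mem_nhds hpos)
  refine ⟨_, hV, fun s _ hsC v hv => ?_⟩
  obtain ⟨hv1, hv2⟩ := hv
  have h3 : s⁻¹ * v * s⁻¹⁻¹ ∈ e.source ∧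
      normSeminorm ℝ E (e (s⁻¹ * v * s⁻¹⁻¹) - e 1) ≤ q (e v - e 1) :=
    hsC v hv1 (lt_of_lt_of_le hv2 (min_le_left _ _))
  rw [inv_inv, coe_normSeminorm] at h3
  refine hsmall _ h3.1 ?_
  have h4 : ‖e (s⁻¹ * v * s) - e 1‖ < 1 / (L + 1) :=
    lt_of_le_of_lt h3.2 (lt_of_lt_of_le hv2 (min_le_right _ _))
  have hL1 : 0 < L + 1 := by linarith
  have h5 : ‖e (s⁻¹ * v * s) - e 1‖ * (L + 1) < 1 := by
    rwa [lt_div_iff₀ hL1] at h4
  have h6 := hL2 (e (s⁻¹ * v * s) - e 1)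
  have h7 := norm_nonneg (e (s⁻¹ * v * s) - e 1)
  nlinarith

end Pool.Agent.H865R3.Mu
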