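import Pool.Agent.H865R3.Mu3

set_option autoImplicit false

/-!
Topological groups embedded in products of locally mu-convex Lie groups.
-/

namespace Pool.Agent.H865R3.Mu

open Filter Topology Pool.Agent.H865R3

universe u v w z t

section Lists

variable {H : Type u} [Group H] [TopologicalSpace H] {I : Type v} {ν : I → H → ℝ}

/-- finite sums of length functions -/
def sumLen (ν : I → H → ℝ) (l : List I) (g : H) : ℝ := (l.map fun i => ν i g).sum

theorem sumLen_nil (ν : I → H → ℝ) (g : H) : sumLen ν [] g = 0 := rfl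

theorem sumLen_cons (ν : I → H → ℝ) (i : I) (l : List I) (g : H) :
    sumLen ν (i :: l) g = ν i g + sumLen ν l g := by
  simp [sumLen]

theorem sumLen_append (ν : I → H → ℝ) (l l' : List I) (g : H) :
    sumLen ν (l ++ l') g = sumLen ν l g + sumLen ν l' g := by
  simp [sumLen]

theorem sumLen_nonneg (h0 : ∀ i g, 0 ≤ ν i g) (l : List I) (g : H) : 0 ≤ sumLen ν l g := by
  induction l with
  | nil => rw [sumLen_nil]
  | cons i l ih => rw [sumLen_cons]; exact add_nonneg (h0 i g) ih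

theorem le_sumLen (h0 : ∀ i g, 0 ≤ ν i g) {l : List I} {i : I} (hi : i ∈ l) (g : H) :
    ν i g ≤ sumLen ν l g := by
  induction l with
  | nil => simp at hi
  | cons j l ih =>
    rw [sumLen_cons]
    rcases List.mem_cons.1 hi with rfl | h
    · have := sumLen_nonneg h0 l g
      linarith
    · have := ih h
      have := h0 j g
      linarith

theorem lengthFamily_lists (h0 : ∀ i g, 0 ≤ ν i g) (hone : ∀ i, ν i 1 = 0)
    (hinv : ∀ i g, ν i g⁻¹ = ν i g) (hmul : ∀ i g h, ν i (g * h) ≤ ν i g + ν i h)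
    (hcont : ∀ i (ε : ℝ), 0 < ε → ∀ᶠ g in 𝓝 (1 : H), ν i g < ε)
    (hconj : ∀ i (h₀ : H), ∃ j, ∀ᶠ h in 𝓝 h₀, ∀ g, ν i (h * g * h⁻¹) ≤ ν j g) :
    LengthFamily H (List I) (sumLen ν) where
  one l := by
    induction l with
    | nil => rfl
    | cons i l ih => rw [sumLen_cons, hone, ih, add_zero]
  inv l g := by
    induction l with
    | nil => rfl
    | cons i l ih => rw [sumLen_cons, sumLen_cons, hinv, ih]
  mul l g h := by
    induction l with
    | nil => simp [sumLen_nil]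
    | cons i l ih =>
      rw [sumLen_cons, sumLen_cons, sumLen_cons]
      have := hmul i g h
      linarith
  cont l := by
    induction l with
    | nil =>
      intro ε hε
      exact Filter.Eventually.of_forall fun g => by rw [sumLen_nil]; exact hε
    | cons i l ih =>
      intro ε hε
      filter_upwards [hcont i (ε / 2) (half_pos hε), ih (ε / 2) (half_pos hε)] with g h1 h2
      rw [sumLen_cons]
      linarith
  conj l h₀ := by
    induction l with
    | nil => exact ⟨[], Filter.Eventually.of_forall fun h g => le_refl _⟩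
    | cons i l ih =>
      obtain ⟨j, hj⟩ := hconj i h₀
      obtain ⟨l', hl'⟩ := ih
      refine ⟨j :: l', ?_⟩
      filter_upwards [hj, hl'] with h h1 h2 g
      rw [sumLen_cons, sumLen_cons]
      exact add_le_add (h1 g) (h2 g)
  dir l l' := by
    refine ⟨l ++ l', fun g => ?_⟩
    rw [sumLen_append]
    have h1 := sumLen_nonneg h0 l g
    have h2 := sumLen_nonneg h0 l' g
    constructor <;> linarith
  ne := ⟨[]⟩

end Lists

section Embed

variable {H : Type u} [Group H] [TopologicalSpace H] [IsTopologicalGroup H]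
  {J : Type w} {E : J → Type v} [∀ j, AddCommGroup (E j)] [∀ j, Module ℝ (E j)]
  [∀ j, TopologicalSpace (E j)] [∀ j, IsTopologicalAddGroup (E j)]
  [∀ j, ContinuousSMul ℝ (E j)] [∀ j, LocallyConvexSpace ℝ (E j)] [∀ j, T2Space (E j)]
  {L : J → Type z} [∀ j, Group (L j)] [∀ j, TopologicalSpace (L j)]
  [∀ j, IsTopologicalGroup (L j)]

/-- pulled back lengths -/
noncomputable def pullLen (e : ∀ j, OpenPartialHomeomorph (L j) (E j)) (φ : ∀ j, H →* L j)
    (i : Σ j, {q : Seminorm ℝ (E j) // Continuous q}) (g : H) : ℝ :=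
  len (scost (e i.1) i.2.1) (φ i.1 g)

theorem len_nonneg' {K : Type z} [Group K] {C : K → ℝ} (hC : ∀ g, 0 ≤ C g) (g : K) :
    0 ≤ len C g :=
  le_len fun l _ => sum_nonneg' hC l

/-- the length functions separate -/
theorem exists_list_of_nhds (LL : ∀ j, LieStructure (E j) (L j)) (φ : ∀ j, H →* L j)
    (hφ : ∀ j, Continuous (φ j)) (hμ : ∀ j, LocallyMuConvex (LL j))
    (htop : ∀ U ∈ 𝓝 (1 : H), ∃ (s : Finset J) (V : ∀ j, Set (L j)),
      (∀ j, V j ∈ 𝓝 (1 : L j)) ∧ ∀ g : H, (∀ j ∈ s, φ j g ∈ V j) → g ∈ U) :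
    ∃ (I : Type (max w v)) (ν : I → H → ℝ), LengthFamily H I ν ∧
      ∀ U ∈ 𝓝 (1 : H), ∃ i, ∀ g, ν i g < 1 → g ∈ U := by
  choose e he h1 hU using hμ
  have h0 : ∀ (i : Σ j, {q : Seminorm ℝ (E j) // Continuous q}) (g : H), 0 ≤ pullLen e φ i g :=
    fun i g => len_nonneg' (scost_nonneg _ _) _
  have hF := fun j => lengthFamily (e j) (LL j) (he j) (h1 j)
  refine ⟨List (Σ j, {q : Seminorm ℝ (E j) // Continuous q}), sumLen (pullLen e φ),
    lengthFamily_lists h0 ?_ ?_ ?_ ?_ ?_, ?_⟩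
  · rintro ⟨j, q⟩
    unfold pullLen
    rw [map_one]
    exact (hF j).one q
  · rintro ⟨j, q⟩ g
    unfold pullLen
    rw [map_inv]
    exact (hF j).inv q _
  · rintro ⟨j, q⟩ g h
    unfold pullLen
    rw [map_mul]
    exact (hF j).mul q _ _
  · rintro ⟨j, q⟩ ε hε
    have h2 : Tendsto (φ j) (𝓝 1) (𝓝 (φ j 1)) := (hφ j).tendsto 1
    rw [map_one] at h2
    exact h2.eventually ((hF j).cont q ε hε)
  · rintro ⟨j, q⟩ h₀
    obtain ⟨q', hq'⟩ := (hF j).conj q (φ j h₀)
    refine ⟨⟨j, q'⟩, ?_⟩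
    have h2 : Tendsto (φ j) (𝓝 h₀) (𝓝 (φ j h₀)) := (hφ j).tendsto h₀
    filter_upwards [h2.eventually hq'] with h hh g
    unfold pullLen
    rw [map_mul, map_mul, map_inv]
    exact hh _
  · intro U hUn
    obtain ⟨s, V, hV, hsV⟩ := htop U hUn
    choose q hq hqV using fun j => hU j (V j) (hV j)
    refine ⟨s.toList.map fun j => ⟨j, q j, hq j⟩, fun g hg => hsV g fun j hj => ?_⟩
    have hmem : (⟨j, q j, hq j⟩ : Σ j, {q : Seminorm ℝ (E j) // Continuous q}) ∈
        s.toList.map fun j => (⟨j, q j, hq j⟩ : Σ j, {q : Seminorm ℝ (E j) // Continuous q}) :=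
      List.mem_map.2 ⟨j, Finset.mem_toList.2 hj, rfl⟩
    have h3 : pullLen e φ ⟨j, q j, hq j⟩ g < 1 := lt_of_le_of_lt (le_sumLen h0 hmem g) hg
    obtain ⟨l, hl, hl2, hl3⟩ := exists_list (e j) (le_refl 1) h3
    rw [← hl]
    exact hqV j l hl2 hl3

end Embed

end Pool.Agent.H865R3.Mu
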