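import Pool.Agent.H865R3.Mu7
import Pool.Agent.H865R3.Mu8

set_option autoImplicit false

/-!
Consequences for epimorphisms.
-/

namespace Pool.Agent.H865R3.Mu

open Filter Topology Pool.Agent.H865R3

universe u v w z t

/-- `f : G → H` is an epimorphism in Hausdorff topological groups: two continuous homomorphisms
from `H` to a Hausdorff topological group that agree on `f(G)` are equal -/
def IsTopEpi {G : Type w} [Group G] {H : Type u} [Group H] [TopologicalSpace H] (f : G →* H) :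
    Prop :=
  ∀ (K : Type u) [Group K] [TopologicalSpace K] [IsTopologicalGroup K] [T2Space K]
    (φ₁ φ₂ : H →* K), Continuous φ₁ → Continuous φ₂ → (∀ g : G, φ₁ (f g) = φ₂ (f g)) → φ₁ = φ₂

variable {H : Type u} [Group H] [TopologicalSpace H] [IsTopologicalGroup H]
  {G : Type w} [Group G]

theorem epi_fun {f : G →* H} (hepi : IsTopEpi f) (S : Subgroup H) (hfS : ∀ g, f g ∈ S)
    (b : H → ℝ) (hbS : ∀ x, ∀ s ∈ S, b (x * s) = b x)
    (hb : ∃ W ∈ 𝓝 (1 : H), ∀ (x : H) (ε : ℝ), 0 < ε → ∃ V ∈ 𝓝 (1 : H), ∀ w ∈ W, ∀ v ∈ V,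
      |b (w * v * x) - b (w * x)| ≤ ε) (h : H) : b h = b 1 := by
  by_contra hne
  obtain ⟨K, i1, i2, i3, i4, φ₁, φ₂, hc1, hc2, hag, hφ⟩ := exists_pair_of_fun S b hbS hb h hne
  exact hφ (hepi K φ₁ φ₂ hc1 hc2 fun g => hag _ (hfS g))

theorem dense_of_locEquiConj {f : G →* H} (hepi : IsTopEpi f)
    (hE : LocEquiConj f.range.topologicalClosure) : DenseRange f := by
  intro x
  by_contra hx
  have hx' : x ∉ f.range.topologicalClosure := by
    intro h3
    apply hx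
    have h4 : x ∈ closure ((f.range : Subgroup H) : Set H) := h3
    rwa [MonoidHom.coe_range] at h4
  obtain ⟨b, hb1, hb2, hb3⟩ :=
    exists_fun f.range.topologicalClosure f.range.isClosed_topologicalClosure hE hx'
  exact hb3 (epi_fun hepi _ (fun g => f.range.le_topologicalClosure ⟨g, rfl⟩) b hb1 hb2 x)

/-- separating length functions give dense range -/
theorem dense_of_lengths {f : G →* H} (hepi : IsTopEpi f) {I : Type v} {ν : I → H → ℝ}
    (hν : LengthFamily H I ν) (hsep : ∀ U ∈ 𝓝 (1 : H), ∃ i, ∀ g, ν i g < 1 → g ∈ U) :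
    DenseRange f := by
  intro x
  rw [mem_closure_iff_nhds]
  intro U hU
  have hV : {u : H | u⁻¹ * x ∈ U} ∈ 𝓝 (1 : H) := by
    have h2 : Tendsto (fun u : H => u⁻¹ * x) (𝓝 1) (𝓝 ((1 : H)⁻¹ * x)) :=
      (continuous_inv.mul continuous_const).tendsto _
    rw [inv_one, one_mul] at h2
    exact h2 hU
  obtain ⟨i, hi⟩ := hsep _ hV
  by_contra hne
  have hS : ∀ s ∈ f.range, (1 : ℝ) ≤ ν i (x * s) := by
    rintro s ⟨g, rfl⟩
    by_contra hlt
    have h3 : (x * f g)⁻¹ * x ∈ U := hi _ (not_le.1 hlt)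
    refine hne ⟨f g⁻¹, ?_, ⟨g⁻¹, rfl⟩⟩
    have h4 : (x * f g)⁻¹ * x = f g⁻¹ := by
      rw [map_inv]
      group
    rwa [h4] at h3
  obtain ⟨K, i1, i2, i3, i4, φ₁, φ₂, hc1, hc2, hag, hφ⟩ :=
    exists_pair f.range hν x i 1 one_pos hS
  exact hφ (hepi K φ₁ φ₂ hc1 hc2 fun g => hag _ ⟨g, rfl⟩)

end Pool.Agent.H865R3.Mu
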